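import Mathlib

/-! Independence of functions of disjoint sets of coordinates of a product measure. -/

namespace Pool.Agent.Lib.MP_69dcc1_pr

open MeasureTheory ProbabilityTheory Set Function
open scoped ENNReal

section
variable {ι : Type*} {X : ι → Type*} [∀ i, MeasurableSpace (X i)] (μ : ∀ i, Measure (X i))
  [∀ i, IsProbabilityMeasure (μ i)]

theorem iIndepFun_of_dependsOn {κ : Type*} {Y : κ → Type*} [∀ k, MeasurableSpace (Y k)]
    (f : ∀ k, (∀ i, X i) → Y k) (hf : ∀ k, Measurable (f k)) (S : κ → Set ι)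
    (hS : Pairwise (Disjoint on S)) (hd : ∀ k, DependsOn (f k) (S k)) :
    iIndepFun f (Measure.infinitePi μ) := by
  classical
  have hne : ∀ i, Nonempty (X i) := fun i => nonempty_of_isProbabilityMeasure (μ i)
  let x0 : ∀ i, X i := fun i => Classical.choice (hne i)
  let g : (Σ k, S k) → ι := fun p => p.2.1
  have hg : Injective g := by
    rintro ⟨k, i, hi⟩ ⟨k', i', hi'⟩ h
    obtain rfl : i = i' := h
    by_cases hk : k = k'
    · subst hk; rfl
    · exact absurd hi' (disjoint_left.1 (hS hk) hi)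
  have h1 := Measure.map_infinitePi_infinitePi_of_inj (P := μ) hg
  have h2 : iIndepFun (fun k (ω : ∀ i, X i) (i : S k) => ω i) (Measure.infinitePi μ) := by
    rw [iIndepFun_iff_map_fun_eq_infinitePi_map (by fun_prop)]
    have h3 := Measure.infinitePi_map_piCurry (fun k (i : S k) => μ i)
    have h4 : (fun (ω : ∀ i, X i) k (i : S k) => ω i)
        = (MeasurableEquiv.piCurry fun k (i : S k) => X i) ∘ fun ω p => ω (g p) := by
      ext; simp [Sigma.curry, g]
    rw [h4, ← Measure.map_map (by fun_prop) (by fun_prop), h1, h3]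
    congr 1
    funext k
    exact (Measure.map_infinitePi_infinitePi_of_inj (P := μ)
      (f := fun i : S k => i.1) Subtype.val_injective).symm
  have h5 := h2.comp (fun k (z : ∀ i : S k, X i) => f k fun i => if h : i ∈ S k then z ⟨i, h⟩ else x0 i)
    fun k => (hf k).comp (measurable_pi_lambda _ fun i => by
      by_cases h : i ∈ S k
      · simp only [h, dite_true]; fun_prop
      · simp only [h, dite_false]; fun_prop)
  convert h5 using 2 with k
  funext ω
  exact hd k fun i hi => by simp [hi]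

theorem indepFun_of_dependsOn {Y Z : Type*} [MeasurableSpace Y] [MeasurableSpace Z]
    {f : (∀ i, X i) → Y} {g : (∀ i, X i) → Z} (hf : Measurable f) (hg : Measurable g)
    {S T : Set ι} (hST : Disjoint S T) (h1 : DependsOn f S) (h2 : DependsOn g T) :
    IndepFun f g (Measure.infinitePi μ) := by
  classical
  have hne : ∀ i, Nonempty (X i) := fun i => nonempty_of_isProbabilityMeasure (μ i)
  let x0 : ∀ i, X i := fun i => Classical.choice (hne i)
  let r : Bool → (∀ i, X i) → ∀ i, X i := fun b ω i => if i ∈ (cond b S T) then ω i else x0 i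
  have hr : ∀ b, Measurable (r b) := fun b => measurable_pi_lambda _ fun i => by
    by_cases h : i ∈ cond b S T
    · simp only [r, h, if_true]; fun_prop
    · simp only [r, h, if_false]; fun_prop
  have h := iIndepFun_of_dependsOn μ (Y := fun _ => ∀ i, X i) r hr (fun b => cond b S T)
    (by
      rintro (_ | _) (_ | _) h
      · exact absurd rfl h
      · exact hST.symm
      · exact hST
      · exact absurd rfl h)
    fun b ω ω' h => funext fun i => by
      by_cases hi : i ∈ cond b S T
      · simp only [r, hi, if_true]; exact h i hi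
      · simp only [r, hi, if_false]
  have h3 := (h.indepFun (show true ≠ false by simp)).comp hf hg
  convert h3 using 1
  · funext ω; exact h1 fun i hi => by simp [r, hi]
  · funext ω; exact h2 fun i hi => by simp [r, hi]

end

/-- a measurable event depending only on the coordinates in `S` -/
structure Dep {ι : Type*} {X : ι → Type*} [∀ i, MeasurableSpace (X i)] (S : Set ι)
    (A : Set (∀ i, X i)) : Prop where
  meas : MeasurableSet A
  dep : ∀ ω ω', (∀ i ∈ S, ω i = ω' i) → ω ∈ A → ω' ∈ A

section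
variable {ι : Type*} {X : ι → Type*} [∀ i, MeasurableSpace (X i)] {S T : Set ι}
  {A B : Set (∀ i, X i)}

lemma Dep.dependsOn (h : Dep S A) : DependsOn (fun ω => ω ∈ A) S := fun _ _ hh =>
  propext ⟨h.dep _ _ hh, h.dep _ _ fun i hi => (hh i hi).symm⟩

lemma Dep.mono (h : Dep S A) (hST : S ⊆ T) : Dep T A :=
  ⟨h.meas, fun ω ω' hh => h.dep ω ω' fun i hi => hh i (hST hi)⟩

lemma Dep.inter (h : Dep S A) (h' : Dep S B) : Dep S (A ∩ B) :=
  ⟨h.meas.inter h'.meas, fun ω ω' hh hω => ⟨h.dep ω ω' hh hω.1, h'.dep ω ω' hh hω.2⟩⟩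

lemma Dep.compl (h : Dep S A) : Dep S Aᶜ :=
  ⟨h.meas.compl, fun ω ω' hh hω h' => hω (h.dep ω' ω (fun i hi => (hh i hi).symm) h')⟩

lemma Dep.iUnion {κ : Sort*} [Countable κ] {A : κ → Set (∀ i, X i)} (h : ∀ k, Dep S (A k)) :
    Dep S (⋃ k, A k) :=
  ⟨MeasurableSet.iUnion fun k => (h k).meas, fun ω ω' hh hω => by
    obtain ⟨k, hk⟩ := mem_iUnion.1 hω
    exact mem_iUnion.2 ⟨k, (h k).dep ω ω' hh hk⟩⟩

lemma Dep.iInter {κ : Sort*} [Countable κ] {A : κ → Set (∀ i, X i)} (h : ∀ k, Dep S (A k)) :
    Dep S (⋂ k, A k) :=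
  ⟨MeasurableSet.iInter fun k => (h k).meas, fun ω ω' hh hω =>
    mem_iInter.2 fun k => (h k).dep ω ω' hh (mem_iInter.1 hω k)⟩

lemma Dep.const (S : Set ι) (p : Prop) : Dep S {_ω : ∀ i, X i | p} :=
  ⟨MeasurableSet.const p, fun _ _ _ h => h⟩

lemma Dep.univ (S : Set ι) : Dep S (univ : Set (∀ i, X i)) := ⟨.univ, fun _ _ _ h => h⟩

lemma Dep.eval (i : ι) {C : Set (X i)} (hC : MeasurableSet C) :
    Dep {i} {ω : ∀ i, X i | ω i ∈ C} :=
  ⟨measurable_pi_apply i hC, fun ω ω' hh hω => by
    have := hh i rfl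
    simp only [mem_ofPred_eq] at hω ⊢
    rwa [← this]⟩

variable (μ : ∀ i, Measure (X i)) [∀ i, IsProbabilityMeasure (μ i)]

lemma Dep.meas_inter (h : Dep S A) (h' : Dep T B) (hST : Disjoint S T) :
    Measure.infinitePi μ (A ∩ B) = Measure.infinitePi μ A * Measure.infinitePi μ B := by
  have := indepFun_of_dependsOn μ (measurable_mem.2 h.meas) (measurable_mem.2 h'.meas) hST
    h.dependsOn h'.dependsOn
  have := this.measure_inter_preimage_eq_mul {True} {True} trivial trivial
  simpa [preimage] using this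

lemma meas_biInter {κ : Type*} (F : Finset κ) {A : κ → Set (∀ i, X i)} {S : κ → Set ι}
    (h : ∀ k ∈ F, Dep (S k) (A k)) (hS : (F : Set κ).PairwiseDisjoint S) :
    Measure.infinitePi μ (⋂ k ∈ F, A k) = ∏ k ∈ F, Measure.infinitePi μ (A k) := by
  classical
  induction F using Finset.induction_on with
  | empty => simp
  | insert k F hk ih =>
    rw [Finset.set_biInter_insert, Finset.prod_insert hk,
      ← ih (fun j hj => h j (Finset.mem_insert_of_mem hj)) (hS.subset (by simp))]
    refine Dep.meas_inter μ (h k (Finset.mem_insert_self _ _)) (T := ⋃ j ∈ F, S j) ?_ ?_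
    · refine ⟨Finset.measurableSet_biInter _ fun j hj => (h j (Finset.mem_insert_of_mem hj)).meas,
        fun ω ω' hh hω => ?_⟩
      simp only [mem_iInter] at hω ⊢
      exact fun j hj => (h j (Finset.mem_insert_of_mem hj)).dep ω ω'
        (fun i hi => hh i (mem_iUnion₂.2 ⟨j, hj, hi⟩)) (hω j hj)
    · simp only [disjoint_iUnion_right]
      intro j hj
      exact hS (by simp) (by simp [hj]) (fun e => hk (e ▸ hj))

end

/-- expected size of a random set -/
lemma tsum_meas_eq {Ω V : Type*} [MeasurableSpace Ω] (P : Measure Ω) [Countable V]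
    (A : V → Set Ω) (hA : ∀ v, MeasurableSet (A v)) :
    ∑' v, P (A v) = ∫⁻ ω, ({v | ω ∈ A v}.encard : ℝ≥0∞) ∂P := by
  classical
  have : ∀ ω, ({v | ω ∈ A v}.encard : ℝ≥0∞) = ∑' v, (A v).indicator 1 ω := fun ω => by
    rw [← ENNReal.tsum_set_one, tsum_subtype {v | ω ∈ A v} fun _ => (1 : ℝ≥0∞)]
    rfl
  simp_rw [this]
  rw [lintegral_tsum fun v => (measurable_one.indicator (hA v)).aemeasurable]
  simp_rw [lintegral_indicator_one (hA _)]

end Pool.Agent.Lib.MP_69dcc1_pr
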