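import Pool.Agent.Lib.MP_69dcc1_pr.Model

/-! Measure theoretic tools for the coupling. -/

namespace Pool.Agent.Lib.MP_69dcc1_pr

open Set Function MeasureTheory ProbabilityTheory
open scoped NNReal ENNReal

lemma zip_law {ι X Y : Type*} [MeasurableSpace X] [MeasurableSpace Y] (μ : ι → Measure X)
    (ν : ι → Measure Y) [∀ i, IsProbabilityMeasure (μ i)] [∀ i, IsProbabilityMeasure (ν i)] :
    ((Measure.infinitePi μ).prod (Measure.infinitePi ν)).map (fun p i => (p.1 i, p.2 i))
      = Measure.infinitePi fun i => (μ i).prod (ν i) := by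
  refine Measure.eq_infinitePi _ fun s t ht => ?_
  have h1 : MeasurePreserving (s.restrict (π := fun _ => X)) (Measure.infinitePi μ)
      (Measure.pi fun i : s => μ i) := ⟨by fun_prop, Measure.infinitePi_map_restrict _⟩
  have h2 : MeasurePreserving (s.restrict (π := fun _ => Y)) (Measure.infinitePi ν)
      (Measure.pi fun i : s => ν i) := ⟨by fun_prop, Measure.infinitePi_map_restrict _⟩
  have h3 := ((measurePreserving_arrowProdEquivProdArrow X Y s (fun i => μ i)
    fun i => ν i).symm _).comp (h1.prod h2)
  have h4 := h3.measure_preimage (s := univ.pi fun i : s => t i)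
    (MeasurableSet.univ_pi fun i : s => ht i).nullMeasurableSet
  rw [Measure.pi_pi, Finset.prod_coe_sort s fun i => (μ i).prod (ν i) (t i)] at h4
  rw [Measure.map_apply (by fun_prop) (MeasurableSet.pi s.countable_toSet fun i _ => ht i), ← h4]
  congr 1
  ext p
  simp [MeasurableEquiv.arrowProdEquivProdArrow, Equiv.arrowProdEquivProdArrow]

lemma vol_le {c : ℝ} (h0 : 0 ≤ c) (h1 : c ≤ 1) :
    (volume : Measure unitInterval) {u | (u : ℝ) ≤ c} = ENNReal.ofReal c :=
  unitInterval.volume_Iic ⟨c, h0, h1⟩

lemma meas_le (c : ℝ) : MeasurableSet {u : unitInterval | (u : ℝ) ≤ c} :=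
  measurableSet_le (by fun_prop) measurable_const

/-- acceptance probability of a cell with `n` points -/
noncomputable def ratio (α lam : ℝ≥0) (n : ℕ) : ℝ := Real.exp (lam - α) * (α / lam) ^ n

open Classical in
/-- thinning of a cell: keep all its points or none -/
noncomputable def thin (α lam : ℝ≥0) (z : Cell × unitInterval) : Cell :=
  (if (z.2 : ℝ) ≤ ratio α lam z.1.1 then z.1.1 else 0, z.1.2)

lemma ratio_le {α lam : ℝ≥0} (h : α ≤ lam) (hl : 0 < lam) {n : ℕ} (hn : 0 < n) :
    ratio α lam n ≤ Real.exp lam * α / lam := by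
  have h1 : (α : ℝ) / lam ≤ 1 := (div_le_one (by exact_mod_cast hl)).2 (by exact_mod_cast h)
  have h2 : ((α : ℝ) / lam) ^ n ≤ α / lam := by
    simpa using pow_le_pow_of_le_one (by positivity) h1 hn
  have h3 : Real.exp (lam - α) ≤ Real.exp lam := Real.exp_le_exp.2 (by simp)
  rw [ratio, mul_div_assoc]
  gcongr

lemma thin_preserving {α lam : ℝ≥0} (h : α ≤ lam) (hl : 0 < lam)
    (h1 : Real.exp lam * α / lam ≤ 1) :
    MeasurePreserving (thin α lam) ((cellLaw lam).prod volume) (cellLaw α) := by
  classical
  let g : ℕ × unitInterval → ℕ := fun z => if (z.2 : ℝ) ≤ ratio α lam z.1 then z.1 else 0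
  have mg : Measurable g := Measurable.ite (measurableSet_le (by fun_prop)
    ((measurable_from_top (f := ratio α lam)).comp measurable_fst)) measurable_fst measurable_const
  have hg : MeasurePreserving g ((poissonMeasure lam).prod volume) (poissonMeasure α) := by
    refine ⟨mg, ?_⟩
    have := Measure.isProbabilityMeasure_map (μ := (poissonMeasure lam).prod volume) mg.aemeasurable
    have pos : ∀ n, ((poissonMeasure lam).prod volume).map g {n + 1} = poissonMeasure α {n + 1} := by
      intro n
      have e : g ⁻¹' {n + 1} = {n + 1} ×ˢ {u : unitInterval | (u : ℝ) ≤ ratio α lam (n + 1)} := by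
        ext ⟨m, u⟩
        simp only [g, mem_preimage, mem_singleton_iff, mem_prod, mem_ofPred_eq]
        by_cases hh : (u : ℝ) ≤ ratio α lam m
        · rw [if_pos hh]
          exact ⟨fun e => ⟨e, e ▸ hh⟩, fun e => e.1⟩
        · rw [if_neg hh]
          exact ⟨fun e => by omega, fun e => absurd (e.1 ▸ e.2) hh⟩
      have hl' : (0 : ℝ) < lam := by exact_mod_cast hl
      rw [Measure.map_apply mg (measurableSet_singleton _), e, Measure.prod_prod,
        vol_le (by unfold ratio; positivity) ((ratio_le h hl n.succ_pos).trans h1),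
        poissonMeasure_singleton, poissonMeasure_singleton, ← ENNReal.ofReal_mul (by positivity)]
      congr 1
      rw [ratio, Real.exp_sub, Real.exp_neg, Real.exp_neg, div_pow]
      field_simp
    refine Measure.ext_of_singleton fun n => ?_
    cases n with
    | succ n => exact pos n
    | zero =>
      have e : ({0} : Set ℕ) = (⋃ n, {n + 1})ᶜ := by
        ext n; cases n <;> simp
      have hd : Pairwise (Disjoint on fun n : ℕ => ({n + 1} : Set ℕ)) := fun i j hij => by
        simpa using hij
      rw [e, prob_compl_eq_one_sub .of_discrete, prob_compl_eq_one_sub .of_discrete,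
        measure_iUnion hd fun _ => .of_discrete, measure_iUnion hd fun _ => .of_discrete]
      simp_rw [pos]
  have h2 := (hg.prod (MeasurePreserving.id
    (Measure.infinitePi fun _ : ℕ => (volume : Measure unitInterval)))).comp
    (((measurePreserving_prodAssoc (poissonMeasure lam) (volume : Measure unitInterval)
      (Measure.infinitePi fun _ : ℕ => (volume : Measure unitInterval))).symm _).comp
    (((MeasurePreserving.id (poissonMeasure lam)).prod Measure.measurePreserving_swap).comp
    (measurePreserving_prodAssoc (poissonMeasure lam)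
      (Measure.infinitePi fun _ : ℕ => (volume : Measure unitInterval)) volume)))
  exact h2

lemma mem_pts_thin {α lam : ℝ≥0} {z : Cell × unitInterval} {i : ℕ} (h : i < (thin α lam z).1) :
    i < z.1.1 ∧ (z.2 : ℝ) ≤ ratio α lam z.1.1 := by
  unfold thin at h
  split_ifs at h with hh
  · exact ⟨h, hh⟩
  · simp at h

open Classical in
/-- mixture used to couple a variable of law `Q` with an event -/
noncomputable def mix {Y : Type*} (c : ℝ) (z : Prop × unitInterval × Y × Y) : Y :=
  if z.1 ∧ (z.2.1 : ℝ) ≤ c then z.2.2.1 else z.2.2.2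

lemma meas_mixset (c : ℝ) : MeasurableSet {z : Prop × unitInterval | z.1 ∧ (z.2 : ℝ) ≤ c} :=
  measurableSet_setOfPred.2 (measurable_fst.and
    (measurableSet_setOfPred.1 (measurableSet_le (by fun_prop) measurable_const)))

lemma measurable_mix {Y : Type*} [MeasurableSpace Y] (c : ℝ) : Measurable (mix (Y := Y) c) := by
  classical
  exact Measurable.ite ((meas_mixset c).preimage
    (f := fun z : Prop × unitInterval × Y × Y => (z.1, z.2.1)) (by fun_prop))
    (by fun_prop) (by fun_prop)

lemma mix_law {Y : Type*} [MeasurableSpace Y] (Q : Measure Y) [IsProbabilityMeasure Q] {E : Set Y}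
    (hE : MeasurableSet E) (h1 : Q E ≠ 0) (h2 : Q Eᶜ ≠ 0) (m : Measure Prop)
    [IsProbabilityMeasure m] (h3 : Q E ≤ m {True}) :
    (m.prod (volume.prod (Q[|E].prod Q[|Eᶜ]))).map (mix (Q E / m {True}).toReal) = Q := by
  have := cond_isProbabilityMeasure (μ := Q) h1
  have := cond_isProbabilityMeasure (μ := Q) h2
  set c := (Q E / m {True}).toReal with hc
  have hm : m {True} ≠ 0 := fun h => h1 (by simpa [h] using h3)
  set G := {z : Prop × unitInterval | z.1 ∧ (z.2 : ℝ) ≤ c} with hG
  have mG : (m.prod volume) G = Q E := by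
    have e : G = {True} ×ˢ {u : unitInterval | (u : ℝ) ≤ c} := by
      ext z; simp [hG]
    have e1 : Q E / m {True} ≤ 1 := ENNReal.div_le_of_le_mul (by simpa using h3)
    rw [e, Measure.prod_prod, vol_le ENNReal.toReal_nonneg
      (ENNReal.toReal_le_of_le_ofReal zero_le_one (by simpa using e1)),
      ENNReal.ofReal_toReal (ne_top_of_le_ne_top ENNReal.one_ne_top e1),
      ENNReal.mul_div_cancel hm (measure_ne_top _ _)]
  ext S hS
  rw [Measure.map_apply (measurable_mix c) hS, ← (measurePreserving_prodAssoc m volume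
    (Q[|E].prod Q[|Eᶜ])).measure_preimage (measurable_mix c hS).nullMeasurableSet]
  have e : MeasurableEquiv.prodAssoc ⁻¹' (mix c ⁻¹' S)
      = G ×ˢ (S ×ˢ univ) ∪ Gᶜ ×ˢ ((univ : Set Y) ×ˢ S) := by
    ext ⟨⟨z, u⟩, a, b⟩
    by_cases hz : z ∧ (u : ℝ) ≤ c <;> simp [MeasurableEquiv.prodAssoc, mix, hG, hz]
  rw [e, measure_union (disjoint_left.2 fun z h h' => h'.1 h.1)
    ((meas_mixset c).compl.prod (MeasurableSet.univ.prod hS)), Measure.prod_prod, Measure.prod_prod,
    Measure.prod_prod, Measure.prod_prod, prob_compl_eq_one_sub (meas_mixset c), mG,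
    ← prob_compl_eq_one_sub hE, measure_univ, measure_univ, mul_one, one_mul, mul_comm (Q E),
    mul_comm (Q Eᶜ), cond_add_cond_compl_eq hE]

lemma mix_mem {Y : Type*} {c : ℝ} {z : Prop × unitInterval × Y × Y} {E : Set Y} (h : mix c z ∈ E)
    (h' : z.2.2.2 ∉ E) : z.1 := by
  unfold mix at h
  split_ifs at h with hh
  · exact hh.1
  · exact absurd h h'

end Pool.Agent.Lib.MP_69dcc1_pr
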