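import Mathlib

/-!
Graphical construction of the contact process and of the independent spin-flip process on the
homogeneous tree.
-/

namespace Pool.Agent.Lib.MP_69dcc1_pr

open MeasureTheory ProbabilityTheory Filter Topology
open scoped NNReal

/-- Vertices of the homogeneous tree `T_d`: words in `d + 1` letters with no two equal
consecutive letters. -/
def Vx (d : ℕ) : Type := {l : List (Fin (d + 1)) // l.IsChain (· ≠ ·)}

/-- The empty word. -/
def root (d : ℕ) : Vx d := ⟨[], List.IsChain.nil⟩

/-- The neighbour of `v` along the letter `a`: delete the first letter if it is `a`, otherwise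
put `a` in front. -/
def nbr {d : ℕ} (a : Fin (d + 1)) (v : Vx d) : Vx d :=
  if h : v.1.head? = some a then ⟨v.1.tail, v.2.tail⟩
  else ⟨a :: v.1, v.2.cons fun _ hb e => h (e ▸ hb)⟩

/-- The homogeneous tree in which every vertex has `d + 1` neighbours. -/
def tree (d : ℕ) : SimpleGraph (Vx d) := SimpleGraph.fromRel fun u v => ∃ a, v = nbr a u

/-- Positive lower density in balls for the graph distance. -/
def PosDensity {d : ℕ} (Δ : Set (Vx d)) : Prop :=
  0 < liminf (fun n : ℕ => (({x | x ∈ Δ ∧ (tree d).dist (root d) x ≤ n}.ncard : ℕ) : ℝ) /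
    (({y | (tree d).dist (root d) y ≤ n}.ncard : ℕ) : ℝ)) atTop

/-- The randomness of a Poisson process in a unit time interval: a number of points and a
sequence of positions. -/
abbrev Cell : Type := ℕ × (ℕ → unitInterval)

/-- Poisson number of points with mean `r`, independent uniform positions. -/
noncomputable def cellLaw (r : ℝ≥0) : Measure Cell :=
  (poissonMeasure r).prod (Measure.infinitePi fun _ => volume)

/-- Independent Poisson processes on `[0, ∞)`, the one with label `e` having rate `rate e`. -/
noncomputable def poissonMarks {ι : Type} (rate : ι → ℝ≥0) : Measure (ι × ℕ → Cell) :=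
  Measure.infinitePi fun p => cellLaw (rate p.1)

/-- The points of the Poisson process with label `e`: the cell `(e, k)` gives the points in
`[k, k + 1]`. -/
def times {ι : Type} (ω : ι × ℕ → Cell) (e : ι) : Set ℝ :=
  {t | ∃ k i : ℕ, i < (ω (e, k)).1 ∧ t = (k : ℝ) + ((ω (e, k)).2 i : ℝ)}

/-- `Reach cure arrow y s x t`: there is an active path from `(y, s)` to `(x, t)`, moving along
infection arrows and avoiding recovery marks. -/
inductive Reach {d : ℕ} (cure : Vx d → Set ℝ) (arrow : Vx d → Fin (d + 1) → Set ℝ) (y : Vx d)
    (s : ℝ) : Vx d → ℝ → Prop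
  | stay (t : ℝ) : s ≤ t → Disjoint (cure y) (Set.Ioc s t) → Reach cure arrow y s y t
  | jump (x : Vx d) (a : Fin (d + 1)) (r t : ℝ) : Reach cure arrow y s x r → r ∈ arrow x a →
      s < r → r ≤ t → Disjoint (cure (nbr a x)) (Set.Ioc r t) → Reach cure arrow y s (nbr a x) t

/-- Marks of the contact process: label `(v, none)` carries the recoveries at `v` (rate `1`),
label `(v, some a)` the infection arrows from `v` to `nbr a v` (rate `lam`). -/
noncomputable def contactMarks (d : ℕ) (lam : ℝ≥0) :
    Measure ((Vx d × Option (Fin (d + 1))) × ℕ → Cell) :=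
  poissonMarks fun e => e.2.elim 1 fun _ => lam

/-- The set of infected vertices at time `t` of the contact process started from `η`. -/
def contact {d : ℕ} (η : Set (Vx d)) (ω : (Vx d × Option (Fin (d + 1))) × ℕ → Cell) (t : ℝ) :
    Set (Vx d) :=
  {x | ∃ y ∈ η, Reach (fun v => times ω (v, none)) (fun v a => times ω (v, some a)) y 0 x t}

/-- `ν` is the upper invariant measure: the limit in law, as the time `n` tends to infinity, of
the contact process started from all vertices infected. -/
def IsUpperInvariant {d : ℕ} (lam : ℝ≥0) (ν : Measure (Set (Vx d))) : Prop :=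
  IsProbabilityMeasure ν ∧ ∀ (F : Finset (Vx d)) (S : Set (Vx d)),
    Tendsto (fun n : ℕ => contactMarks d lam {ω | ∀ x ∈ F, x ∈ contact Set.univ ω n ↔ x ∈ S})
      atTop (𝓝 (ν {η | ∀ x ∈ F, x ∈ η ↔ x ∈ S}))

/-- The critical value: the supremum of the rates whose upper invariant measure is the point mass
at the empty configuration. -/
noncomputable def critical (d : ℕ) : ENNReal :=
  ⨆ (lam : ℝ≥0) (_ : IsUpperInvariant lam (Measure.dirac (∅ : Set (Vx d)))), (lam : ENNReal)

/-- Marks of the spin-flip process: label `(v, false)` carries the flips to `0` (rate `1`),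
label `(v, true)` the flips to `1` (rate `α`). -/
noncomputable def flipMarks (d : ℕ) (α : ℝ≥0) : Measure ((Vx d × Bool) × ℕ → Cell) :=
  poissonMarks fun e => cond e.2 α 1

/-- The set of vertices in state `1` at time `t` of the spin-flip process started from `ξ`. -/
def spinFlip {d : ℕ} (ξ : Set (Vx d)) (ω : (Vx d × Bool) × ℕ → Cell) (t : ℝ) : Set (Vx d) :=
  {x | (x ∈ ξ ∧ Disjoint (times ω (x, false)) (Set.Ioc 0 t)) ∨
    ∃ r ∈ times ω (x, true), 0 < r ∧ r ≤ t ∧ Disjoint (times ω (x, false)) (Set.Ioc r t)}

end Pool.Agent.Lib.MP_69dcc1_pr
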