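import Pool.Agent.Lib.MP_69dcc1_pr.Stationary
import Pool.Agent.Lib.MP_69dcc1_pr.Couple

-- part Pool.Agent.Lib.MP_69dcc1_pr.Blocks
section

/-! Independent block events guaranteeing an infected neighbour. -/

namespace Pool.Agent.Lib.MP_69dcc1_pr

open Set Function MeasureTheory ProbabilityTheory
open scoped NNReal ENNReal

variable {d : ℕ} {lam : ℝ≥0} [Fact (2 ≤ d)] {K L τ : ℕ}

/-- parity -/
def par (m : ℤ) : Bool := decide (m % 2 = 0)

/-- the child used in block `m` -/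
noncomputable def yy (x : Vx d) (m : ℤ) : Vx d := ch x (par m)

/-- labels of the recoveries at `x` and of the arrows from the child used in block `m` -/
noncomputable def lab (x : Vx d) (β : Bool) (m : ℤ) : Lb d :=
  cond β (yy x m, some (lt x (par m))) (x, none)

lemma nbr_yy (x : Vx d) (m : ℤ) : nbr (lt x (par m)) (yy x m) = x := nbr_nbr _ _

lemma lab_inj {x x' : Vx d} {β β' : Bool} {m m' : ℤ} (h : lab x β m = lab x' β' m') :
    x = x' ∧ β = β' := by
  cases β <;> cases β' <;> simp only [lab, cond_true, cond_false, Prod.mk.injEq, reduceCtorEq, and_false] at h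
  · exact ⟨h.1, rfl⟩
  · exact ⟨(ch_inj h.1).1, rfl⟩

lemma lab_mem_ED {W : Set (Vx d)} {x : Vx d} {β : Bool} {m : ℤ} (h : lab x β m ∈ ED W) : x ∈ W := by
  cases β
  · exact h.1
  · have := h.2 _ rfl
    rwa [show (lab x true m).1 = yy x m from rfl, nbr_yy] at this

lemma ch_notMem_Dl (hL : 2 ≤ L) {x : Vx d} (hx : x ∈ Dl d L) (i : Bool) : ch x i ∉ Dl d L := by
  intro h
  have h1 := Dl_len hx
  have h2 := Dl_len h
  rw [len_ch] at h2
  have := Nat.le_of_dvd one_pos ((Nat.dvd_add_right h1).1 h2)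
  omega

lemma notMem_Free (hL : 2 ≤ L) {x x' : Vx d} (hx : x ∈ Dl d L) (hx' : x' ∈ Dl d L) (i : Bool) :
    x' ∉ Free L (ch x i) := fun h => by
  have := (h.2 x' hx' (Anc.refl _)).eq_of_len h.1.len_le
  exact ch_notMem_Dl hL hx i (this ▸ hx')

lemma free_unique (hL : 2 ≤ L) {x x' v : Vx d} (hx : x ∈ Dl d L) (hx' : x' ∈ Dl d L) {i i' : Bool}
    (h : v ∈ Free L (ch x i)) (h' : v ∈ Free L (ch x' i')) : ch x i = ch x' i' := by
  wlog hl : len (ch x i) ≤ len (ch x' i') generalizing x x' i i'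
  · exact (this hx' hx h' h (by omega)).symm
  rcases anc_ch.1 (h.1.of_len_le h'.1 hl) with e | e
  · exact e
  · have := (h.2 x' hx' ((anc_ch_self _ _).trans h'.1)).eq_of_len e.len_le
    exact absurd (this ▸ hx') (ch_notMem_Dl hL hx i)

/-- no recovery at `y` in the cells `s, ..., s + j - 1` -/
def Stay (y : Vx d) (s : ℤ) (j : ℕ) : Set (Om d) :=
  ⋂ i ∈ Finset.range j, {ω | ω ((y, none), s + i) ∈ {c : Cell | c.1 = 0}}

omit [Fact (2 ≤ d)] in
lemma dep_Stay (y : Vx d) (s : ℤ) (j : ℕ) :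
    Dep {p | p.1 = (y, none) ∧ s ≤ p.2 ∧ p.2 < s + j} (Stay y s j) :=
  Dep.iInter fun i => Dep.iInter fun hi =>
    (Dep.eval (X := fun _ : Lb d × ℤ => Cell) ((y, none), s + i) meas_c0).mono (by
      have := Finset.mem_range.1 hi
      simp only [singleton_subset_iff, mem_ofPred_eq, true_and]
      omega)

omit [Fact (2 ≤ d)] in
lemma Stay_prob (y : Vx d) (s : ℤ) (j : ℕ) : Pr d lam (Stay y s j) = c0 1 ^ j := by
  rw [Stay, Pr, meas_biInter _ _ (fun (i : ℕ) _ =>
    Dep.eval (X := fun _ : Lb d × ℤ => Cell) ((y, none), s + i) meas_c0) (fun i _ i' _ h => by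
      simpa using h)]
  rw [← Finset.card_range j, ← Finset.prod_const, Finset.card_range]
  exact Finset.prod_congr rfl fun i _ => Pr_eval _ meas_c0

omit [Fact (2 ≤ d)] in
lemma Stay.ch {y : Vx d} {s : ℤ} {j : ℕ} {ω : Om d} (h : ω ∈ Stay y s j) :
    ∀ i ≤ j, Ch univ K ω s y i y := by
  intro i hi
  induction i with
  | zero => rfl
  | succ i ih =>
    refine ⟨y, ih (by omega), PN.stay _ _ trivial zero_le_one ?_⟩
    have : (ω ((y, none), s + i)).1 = 0 := mem_iInter₂.1 h i (Finset.mem_range.2 hi)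
    simp only [pts_empty this, empty_disjoint]

/-- the child used in block `m` is infected throughout the block -/
def ZZ (K L τ : ℕ) (x : Vx d) (m : ℤ) : Set (Om d) :=
  Surv K L τ (yy x m) (m * τ) ∩ Stay (yy x m) (m * τ) τ

/-- region on which `ZZ` depends -/
def ZR (L τ : ℕ) (x : Vx d) (m : ℤ) : Set (Lb d × ℤ) :=
  SR L τ (yy x m) (m * τ) ∪ {p | p.1 = (yy x m, none) ∧ m * τ ≤ p.2 ∧ p.2 < m * τ + τ}

lemma dep_ZZ (x : Vx d) (m : ℤ) : Dep (ZR L τ x m) (ZZ K L τ x m) :=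
  ((dep_Surv _ _).mono subset_union_left).inter ((dep_Stay _ _ _).mono subset_union_right)

lemma ZZ_prob (x : Vx d) (m : ℤ) :
    Pr d lam (ZZ K L τ x m) = Pr d lam (Surv K L τ (yy x m) (m * τ)) * c0 1 ^ τ := by
  rw [← Stay_prob (lam := lam) (yy x m) (m * τ) τ]
  exact Dep.meas_inter _ (dep_Surv _ _) (dep_Stay _ _ _) (disjoint_left.2 fun p h h' => by
    have := (SR_sub h).2; have := h'.2.1; omega)

lemma ZR_spec {x : Vx d} {m : ℤ} {q : Lb d × ℤ} (h : q ∈ ZR L τ x m) :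
    q.1 ∈ ED (Free L (yy x m)) ∧ ∃ γ : ℕ, len (yy x m) + γ * L ≤ len q.1.1 + L ∧
      len q.1.1 ≤ len (yy x m) + γ * L ∧ (m - γ) * τ ≤ q.2 ∧ q.2 < (m - γ + 1) * τ := by
  rcases h with h | ⟨h1, h2, h3⟩
  · refine ⟨(SR_sub h).1, ?_⟩
    obtain ⟨γ, h1, h2, h3⟩ := h
    have e1 := h1.1.2.1
    refine ⟨γ + 1, by rw [add_mul]; omega, h1.1.2.2, by push_cast; linarith, by push_cast; linarith⟩
  · rw [h1]
    exact ⟨⟨⟨Anc.refl _, fun _ _ h => h⟩, by simp⟩, 0, by simp, by simp, by simpa using h2,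
      by simpa [add_mul] using h3⟩

lemma ZR_disjoint (hL : 2 ≤ L) {x x' : Vx d} (hx : x ∈ Dl d L) (hx' : x' ∈ Dl d L) {m m' : ℤ}
    {q : Lb d × ℤ} (h : q ∈ ZR L τ x m) (h' : q ∈ ZR L τ x' m') : x = x' ∧ m = m' := by
  obtain ⟨h1, γ, h2, h3, h4, h5⟩ := ZR_spec h
  obtain ⟨h1', γ', h2', h3', h4', h5'⟩ := ZR_spec h'
  have e := free_unique hL hx hx' h1.1 h1'.1
  have e' : yy x m = yy x' m' := e
  rw [← e'] at h2' h3'
  refine ⟨(ch_inj e).1, ?_⟩
  have e1 : m % 2 = 0 ↔ m' % 2 = 0 := by simpa [par] using (ch_inj e).2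
  have τ0 : (0 : ℤ) ≤ τ := Nat.cast_nonneg τ
  have e2 : m - γ < m' - γ' + 1 := lt_of_mul_lt_mul_right (h4.trans_lt h5') τ0
  have e3 : m' - γ' < m - γ + 1 := lt_of_mul_lt_mul_right (h4'.trans_lt h5) τ0
  have e4 : γ ≤ γ' + 1 := Nat.le_of_mul_le_mul_right (c := L) (by rw [add_mul]; omega) (by omega)
  have e5 : γ' ≤ γ + 1 := Nat.le_of_mul_le_mul_right (c := L) (by rw [add_mul]; omega) (by omega)
  omega

lemma lab_notMem_ZR (hL : 2 ≤ L) {x x' : Vx d} (hx : x ∈ Dl d L) (hx' : x' ∈ Dl d L) {m m' k : ℤ}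
    {β : Bool} : (lab x' β m', k) ∉ ZR L τ x m := fun h =>
  notMem_Free hL hx hx' _ (lab_mem_ED (ZR_spec h).1)

/-- index of a block -/
def idx (o : Option ℕ) : ℤ := o.elim (-1) Nat.cast

lemma idx_inj : Injective idx := by
  rintro (_ | m) (_ | m') h <;> simp only [idx, Option.elim] at h
  · rfl
  · omega
  · omega
  · rw [Nat.cast_injective h]

/-- block events -/
def Bev (K L τ : ℕ) (b : Vx d × Option ℕ) : Set (Om d) :=
  {ω | b.1 ∈ Dl d L → ω ∈ ZZ K L τ b.1 (idx b.2) ∧ (b.2 = none →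
    ω (lab b.1 true (-1), -1) ∈ {c : Cell | 0 < c.1 ∧ 0 < (c.2 0 : ℝ)} ∧
      ω (lab b.1 false (-1), -1) ∈ {c : Cell | c.1 = 0})}

/-- regions of the block events -/
def BR (L τ : ℕ) (b : Vx d × Option ℕ) : Set (Lb d × ℤ) :=
  {p | b.1 ∈ Dl d L ∧ (p ∈ ZR L τ b.1 (idx b.2) ∨ (b.2 = none ∧ ∃ β, p = (lab b.1 β (-1), -1)))}

lemma Bev_none {x : Vx d} (hx : x ∈ Dl d L) : Bev K L τ (x, none) = ZZ K L τ x (-1) ∩
    ({ω | ω (lab x true (-1), -1) ∈ {c : Cell | 0 < c.1 ∧ 0 < (c.2 0 : ℝ)}} ∩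
      {ω | ω (lab x false (-1), -1) ∈ {c : Cell | c.1 = 0}}) := by
  ext ω
  simp only [Bev, mem_ofPred_eq, hx, idx, Option.elim, forall_const, mem_inter_iff]

lemma Bev_some {x : Vx d} (hx : x ∈ Dl d L) (m : ℕ) : Bev K L τ (x, some m) = ZZ K L τ x m := by
  ext ω; simp [Bev, hx, idx]

lemma Bev_notMem {b : Vx d × Option ℕ} (hx : b.1 ∉ Dl d L) : Bev K L τ b = univ := by
  ext ω; simp [Bev, hx]

lemma dep_Bev (b : Vx d × Option ℕ) : Dep (BR L τ b) (Bev K L τ b) := by
  by_cases hx : b.1 ∈ Dl d L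
  · obtain ⟨x, _ | m⟩ := b
    · rw [Bev_none hx]
      refine Dep.inter ((dep_ZZ _ _).mono fun p hp => ⟨hx, Or.inl hp⟩) (Dep.inter
        ((Dep.eval (X := fun _ : Lb d × ℤ => Cell) _ meas_c1).mono ?_)
        ((Dep.eval (X := fun _ : Lb d × ℤ => Cell) _ meas_c0).mono ?_))
      · exact singleton_subset_iff.2 ⟨hx, Or.inr ⟨rfl, true, rfl⟩⟩
      · exact singleton_subset_iff.2 ⟨hx, Or.inr ⟨rfl, false, rfl⟩⟩
    · rw [Bev_some hx]
      exact (dep_ZZ _ _).mono fun p hp => ⟨hx, Or.inl hp⟩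
  · rw [Bev_notMem hx]; exact Dep.univ _

lemma BR_disjoint (hL : 2 ≤ L) : Pairwise (Disjoint on (BR L τ : Vx d × Option ℕ → _)) := by
  rintro ⟨x, o⟩ ⟨x', o'⟩ hne
  refine disjoint_left.2 fun p h h' => hne ?_
  obtain ⟨hx, h | ⟨h, β, rfl⟩⟩ := h <;> obtain ⟨hx', h' | ⟨h', β', e⟩⟩ := h'
  · obtain ⟨e1, e2⟩ := ZR_disjoint hL hx hx' h h'
    exact Prod.ext e1 (idx_inj e2)
  · exact absurd (e ▸ h) (lab_notMem_ZR hL hx hx')
  · exact absurd h' (lab_notMem_ZR hL hx' hx)
  · exact Prod.ext (lab_inj (congrArg Prod.fst e)).1 (h.trans h'.symm)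

lemma lab_notMem_BR (hL : 2 ≤ L) {x : Vx d} (hx : x ∈ Dl d L) (β : Bool) (m : ℤ) (k : ℕ)
    (b : Vx d × Option ℕ) : (lab x β m, (k : ℤ)) ∉ BR L τ b := by
  rintro ⟨hb, h | ⟨-, β', e⟩⟩
  · exact lab_notMem_ZR hL hb hx h
  · have : (k : ℤ) = -1 := congrArg Prod.snd e
    omega

lemma Bev_prob (hlam : 0 < lam) (hL : 2 ≤ L) {q : ℝ≥0∞} (hq0 : q ≠ 0)
    (hq : ∀ (z : Vx d) t, 0 < len z → L ∣ len z → q ≤ Pr d lam (Surv K L τ z t)) :
    ∃ q' : ℝ≥0∞, q' ≠ 0 ∧ ∀ b : Vx d × Option ℕ, q' ≤ Pr d lam (Bev K L τ b) := by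
  refine ⟨min 1 (q * c0 1 ^ τ * (c1 lam * c0 1)), (lt_min one_pos (pos_iff_ne_zero.2
    (mul_ne_zero (mul_ne_zero hq0 (pow_ne_zero _ (c0_ne_zero 1)))
      (mul_ne_zero (c1_ne_zero hlam) (c0_ne_zero 1))))).ne', fun b => ?_⟩
  by_cases hx : b.1 ∈ Dl d L
  swap
  · rw [Bev_notMem hx, measure_univ]; exact min_le_left _ _
  refine (min_le_right _ _).trans ?_
  have h1 : ∀ m, q * c0 1 ^ τ ≤ Pr d lam (ZZ K L τ b.1 m) := fun m => by
    rw [ZZ_prob]
    exact mul_le_mul' (hq _ _ (by simp [yy]) (by simpa [yy] using Dl_len hx)) le_rfl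
  obtain ⟨x, _ | m⟩ := b
  · have e1 := Dep.eval (X := fun _ : Lb d × ℤ => Cell) (lab x true (-1), -1) meas_c1
    have e2 := Dep.eval (X := fun _ : Lb d × ℤ => Cell) (lab x false (-1), -1) meas_c0
    rw [Bev_none hx, Pr, Dep.meas_inter _ (dep_ZZ _ _)
      ((e1.mono subset_union_left).inter (e2.mono subset_union_right)) (by
        simp only [disjoint_union_right, disjoint_singleton_right]
        exact ⟨lab_notMem_ZR hL hx hx, lab_notMem_ZR hL hx hx⟩),
      Dep.meas_inter _ e1 e2 (by simp [lab])]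
    have e3 : Pr d lam _ = c1 lam := Pr_eval (lab x true (-1), -1) meas_c1
    have e4 : Pr d lam _ = c0 1 := Pr_eval (lab x false (-1), -1) meas_c0
    exact mul_le_mul' (h1 _) (mul_le_mul' e3.ge e4.ge)
  · rw [Bev_some hx]
    exact (mul_le_of_le_one_right' (mul_le_one' prob_le_one prob_le_one)).trans (h1 _)

lemma Surv.hit (hτ : 0 < τ) {z : Vx d} {t : ℤ} {ω : Om d} (h : ω ∈ Surv K L τ z t) (n : ℕ) :
    ∃ y, Ch univ K ω (t - n) y n z := by
  obtain ⟨z', h1, -⟩ := Surv.steps n h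
  have e : n ≤ n * τ := Nat.le_mul_of_pos_right n hτ
  rw [show n * τ = (n * τ - n) + n by omega, Ch_add] at h1
  obtain ⟨y, -, h2⟩ := h1
  refine ⟨y, ?_⟩
  convert h2 using 1
  push_cast; ring

lemma Surv.eta0 (hτ : 0 < τ) {z : Vx d} {ω : Om d} (h : ω ∈ Surv K L τ z 0) : z ∈ eta0 ω := by
  intro n
  obtain ⟨y, hy⟩ := Surv.hit hτ h n
  exact mem_iUnion₂.2 ⟨y, K, by simpa using hy⟩

lemma Bev_eta0 (hK : 1 ≤ K) (hτ : 0 < τ) {x : Vx d} (hx : x ∈ Dl d L) {ω : Om d}
    (h : ω ∈ Bev K L τ (x, none)) : x ∈ eta0 ω := by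
  rw [Bev_none hx] at h
  obtain ⟨⟨h1, h2⟩, ⟨h3, h4⟩, h5⟩ := h
  intro n
  refine Hit_anti x (Nat.le_add_right n τ) ?_
  obtain ⟨y, hy⟩ := Surv.hit hτ h1 n
  obtain ⟨j, rfl⟩ : ∃ j, τ = j + 1 := ⟨τ - 1, by omega⟩
  refine mem_iUnion₂.2 ⟨y, K, Ch_add.2 ⟨yy x (-1), ?_, yy x (-1), ?_, ?_⟩⟩
  · convert hy using 1
    push_cast; ring
  · convert Stay.ch (K := K) h2 j (by omega) using 1
    push_cast; ring
  · rw [show (-((n + (j + 1) : ℕ) : ℤ) + n + j) = -1 by push_cast; ring]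
    have h6 : (ω ((yy x (-1), none), -1 * ((j + 1 : ℕ) : ℤ) + j)).1 = 0 :=
      mem_iInter₂.1 h2 j (by simp)
    rw [show (-1 * ((j + 1 : ℕ) : ℤ) + j) = -1 by push_cast; ring] at h6
    have h7 : (ω ((x, none), -1)).1 = 0 := h5
    have := PN.jump (W := univ) (cure := fun v => pts (ω ((v, none), -1)))
      (arrow := fun v a => pts (ω ((v, some a), -1))) 0 (yy x (-1)) (lt x (par (-1)))
      ((ω (lab x true (-1), -1)).2 0) 1 (.stay _ _ trivial h4.le (by
        simp only [pts_empty h6, empty_disjoint])) ⟨0, h3, rfl⟩ h4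
      ((ω (lab x true (-1), -1)).2 0).2.2 trivial (by
        simp only [nbr_yy, pts_empty h7, empty_disjoint])
    rw [nbr_yy] at this
    exact this.monoK hK

lemma Bev_reach (hτ : 0 < τ) {x : Vx d} (hx : x ∈ Dl d L) {ω : Om d} (hg : Gen (fut ω)) {k : ℕ}
    (h : ω ∈ Bev K L τ (x, some (k / τ))) {r : ℝ} (hr : k ≤ r) (hr' : r ≤ k + 1) :
    ∃ z ∈ eta0 ω, Reach (cu (fut ω)) (ar (fut ω)) z 0 (yy x (k / τ : ℕ)) r := by
  rw [Bev_some hx] at h
  set m := k / τ with hm
  obtain ⟨h1, h2⟩ := h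
  obtain ⟨z, h3, h4⟩ := Surv.steps m h1
  rw [show (m : ℤ) * τ - (m * τ : ℕ) = 0 by push_cast; ring] at h3 h4
  refine ⟨z, Surv.eta0 hτ h4, ?_⟩
  have h5 := ch_reach (ω := ω) hg (fun _ _ => rfl) (k := 0) _ _ h3
  have e1 : m * τ ≤ k := Nat.div_mul_le_self k τ
  have e2 : k < m * τ + τ := Nat.lt_div_mul_add hτ
  have e1' : ((m * τ : ℕ) : ℝ) ≤ k := by exact_mod_cast e1
  rw [Nat.cast_zero, zero_add] at h5
  refine h5.trans (.stay _ (e1'.trans hr) (disjoint_left.2 ?_))
  rintro u ⟨k', i, hi, rfl⟩ ⟨h6, h7⟩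
  have h8 := hg.1 ((yy x m, none), k') i
  have e3 : ((m * τ : ℕ) : ℝ) < k' + 1 := by linarith
  have e4 : (k' : ℝ) < k + 1 := by linarith
  have e3' : m * τ < k' + 1 := by exact_mod_cast e3
  have e4' : k' < k + 1 := by exact_mod_cast e4
  have h9 : (ω ((yy x m, none), (m : ℤ) * τ + (k' - m * τ : ℕ))).1 = 0 :=
    mem_iInter₂.1 h2 (k' - m * τ) (Finset.mem_range.2 (by omega))
  rw [show (m : ℤ) * τ + (k' - m * τ : ℕ) = k' by push_cast [show m * τ ≤ k' by omega]; ring] at h9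
  have : (fut ω ((yy x m, none), k')).1 = 0 := h9
  omega

omit [Fact (2 ≤ d)] in
lemma ball_eq (n : ℕ) : {y | (tree d).dist (root d) y ≤ n} = Bl d n := by
  ext y; simp [dist_root, Bl]

lemma posDensity_Dl (hL : 2 ≤ L) : PosDensity (Dl d L) := by
  have key : ∀ n, L ≤ n → (Bl d n).ncard ≤
      2 * (d + 1) ^ (L + 1) * {x | x ∈ Dl d L ∧ (tree d).dist (root d) x ≤ n}.ncard := by
    intro n hn
    set k := (n + 1) / L * L - 2 with hk
    have e1 : (n + 1) / L * L ≤ n + 1 := Nat.div_mul_le_self _ _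
    have e2 : n + 1 < (n + 1) / L * L + L := Nat.lt_div_mul_add (by omega)
    have e3 : L ≤ (n + 1) / L * L :=
      Nat.le_mul_of_pos_left _ (Nat.div_pos (by omega) (by omega))
    have h1 : (Lv d k).ncard ≤ {x | x ∈ Dl d L ∧ (tree d).dist (root d) x ≤ n}.ncard := by
      refine ncard_le_ncard_of_injOn (fun w => ch w false) (fun w hw => ?_)
        (fun _ _ _ _ e => (ch_inj e).1) ((Bl_finite n).subset fun x hx => ?_)
      · have hw : len w = k := hw
        refine ⟨⟨w, rfl, ?_⟩, by rw [dist_root, len_ch]; omega⟩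
        rw [show len w + 2 = (n + 1) / L * L by omega]
        exact dvd_mul_left _ _
      · have := hx.2
        rwa [dist_root] at this
    have h2 := Lv_add_le (d := d) k (n - k)
    rw [show k + (n - k) = n by omega] at h2
    have h3 : (d + 1) ^ (n - k) ≤ (d + 1) ^ (L + 1) := Nat.pow_le_pow_right (by omega) (by omega)
    calc _ ≤ 2 * (Lv d n).ncard := Bl_le n
      _ ≤ 2 * ((d + 1) ^ (L + 1) * {x | x ∈ Dl d L ∧ (tree d).dist (root d) x ≤ n}.ncard) := by
        gcongr; exact h2.trans (by gcongr)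
      _ = _ := by ring
  have hpos : ∀ n, (0 : ℝ) < (Bl d n).ncard := fun n => by
    exact_mod_cast (ncard_pos (Bl_finite n)).2 ⟨root d, by simp [Bl]⟩
  refine lt_of_lt_of_le (b := 1 / (2 * ((d : ℝ) + 1) ^ (L + 1))) (by positivity)
    (Filter.le_liminf_of_le ?_ ?_)
  · refine Filter.isCoboundedUnder_ge_of_le _ (x := 1) fun n => ?_
    rw [ball_eq, div_le_one (hpos n)]
    exact_mod_cast ncard_le_ncard (fun x hx => by simpa [dist_root, Bl] using hx.2) (Bl_finite n)
  · filter_upwards [Filter.eventually_ge_atTop L] with n hn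
    rw [ball_eq, div_le_div_iff₀ (by positivity) (hpos n), one_mul, mul_comm]
    exact_mod_cast key n hn

end Pool.Agent.Lib.MP_69dcc1_pr
end

-- part Pool.Agent.Lib.MP_69dcc1_pr.Final
section

/-! Construction of the coupling. -/

namespace Pool.Agent.Lib.MP_69dcc1_pr

open Set Function MeasureTheory ProbabilityTheory
open scoped NNReal ENNReal

/-- sequences of uniform variables -/
abbrev Yq : Type := ℕ → unitInterval
/-- their law -/
noncomputable def Qm : Measure Yq := Measure.infinitePi fun _ => volume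
instance : IsProbabilityMeasure Qm := by unfold Qm; infer_instance
/-- coordinates of the coupling space -/
abbrev Jx (d : ℕ) : Type := (Lb d × ℤ) ⊕ ((Vx d × Bool) × ℕ) ⊕ (Vx d × Option ℕ)
/-- the coupling space -/
abbrev Wx (d : ℕ) : Type := Jx d → Cell × unitInterval × Yq × Yq

variable {d : ℕ}

/-- rates of the cells -/
def rJ (lam : ℝ≥0) : Jx d → ℝ≥0
  | .inl p => rate lam p.1
  | .inr (.inl e) => cond e.1.2 lam 1
  | .inr (.inr _) => 1

/-- law of one coordinate -/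
noncomputable def muJ (lam : ℝ≥0) (E : Set Yq) (j : Jx d) : Measure (Cell × unitInterval × Yq × Yq) :=
  (cellLaw (rJ lam j)).prod (volume.prod (Qm[|E].prod Qm[|Eᶜ]))

instance (lam : ℝ≥0) (E : Set Yq) [IsProbabilityMeasure Qm[|E]] [IsProbabilityMeasure Qm[|Eᶜ]]
    (j : Jx d) : IsProbabilityMeasure (muJ lam E j) := by unfold muJ; infer_instance

/-- marks of the contact process -/
def proj (w : Wx d) : Om d := fun p => (w (.inl p)).1

lemma measurable_proj : Measurable (proj : Wx d → Om d) := by unfold proj; fun_prop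

section
variable {lam : ℝ≥0} {E : Set Yq} [IsProbabilityMeasure Qm[|E]] [IsProbabilityMeasure Qm[|Eᶜ]]

lemma cells_law {ι : Type} {g : ι → Jx d} (hg : Injective g) :
    (Measure.infinitePi (muJ lam E)).map (fun (w : Wx d) i => (w (g i)).1)
      = Measure.infinitePi fun i => cellLaw (rJ lam (g i)) := by
  have h1 := Measure.map_infinitePi_infinitePi_of_inj (P := muJ (d := d) lam E) hg
  have h2 := Measure.infinitePi_map_pi (fun i => muJ lam E (g i))
    (f := fun _ => Prod.fst) fun _ => measurable_fst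
  rw [← h1, Measure.map_map (by fun_prop) (by fun_prop)] at h2
  refine h2.trans ?_
  congr 1
  funext i
  exact measurePreserving_fst.map_eq

lemma proj_preserving : MeasurePreserving proj (Measure.infinitePi (muJ lam E)) (Pr d lam) :=
  ⟨measurable_proj, cells_law Sum.inl_injective⟩

lemma extra_preserving (j : Jx d) : MeasurePreserving (fun w : Wx d => (w j).2)
    (Measure.infinitePi (muJ lam E)) (volume.prod (Qm[|E].prod Qm[|Eᶜ])) :=
  measurePreserving_snd.comp (measurePreserving_eval_infinitePi (muJ lam E) j)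

end

variable [Fact (2 ≤ d)]

/-- uniform variables coupled with the block events -/
noncomputable def VV (lam : ℝ≥0) (E : Set Yq) (K L τ : ℕ) (b : Vx d × Option ℕ) (w : Wx d) : Yq :=
  mix (Qm E / Pr d lam (Bev K L τ b)).toReal (proj w ∈ Bev K L τ b, (w (.inr (.inr b))).2)

/-- coordinates on which they depend -/
def SV (L τ : ℕ) (b : Vx d × Option ℕ) : Set (Jx d) := Sum.inl '' BR L τ b ∪ {.inr (.inr b)}

open Classical in
/-- source cells for the marks of the spin-flip process -/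
noncomputable def src (L τ : ℕ) (e : (Vx d × Bool) × ℕ) : Jx d :=
  if e.1.1 ∈ Dl d L then .inl (lab e.1.1 e.1.2 (e.2 / τ : ℕ), e.2) else .inr (.inl e)

variable {lam : ℝ≥0} {E : Set Yq} {K L τ : ℕ}

lemma measurable_Bev (b : Vx d × Option ℕ) : Measurable fun w : Wx d => proj w ∈ Bev K L τ b :=
  (measurable_mem.2 (dep_Bev b).meas).comp measurable_proj

lemma measurable_VV (b : Vx d × Option ℕ) : Measurable (VV lam E K L τ b) :=
  (measurable_mix _).comp ((measurable_Bev b).prodMk (by fun_prop))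

lemma dependsOn_Bev (b : Vx d × Option ℕ) :
    DependsOn (fun w : Wx d => proj w ∈ Bev K L τ b) (Sum.inl '' BR L τ b) := fun w w' h =>
  (dep_Bev b).dependsOn fun p hp => by simp only [proj, h _ (mem_image_of_mem _ hp)]

lemma dependsOn_VV (b : Vx d × Option ℕ) : DependsOn (VV lam E K L τ b) (SV L τ b) := by
  intro w w' h
  have h1 : (proj w ∈ Bev K L τ b) = (proj w' ∈ Bev K L τ b) :=
    dependsOn_Bev b fun i hi => h i (Or.inl hi)
  unfold VV
  rw [h1, h _ (Or.inr rfl)]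

lemma SV_disjoint (hL : 2 ≤ L) : Pairwise (Disjoint on (SV L τ : Vx d × Option ℕ → _)) := by
  intro b b' h
  refine disjoint_left.2 ?_
  rintro _ (⟨p, hp, rfl⟩ | rfl) (⟨p', hp', e⟩ | e)
  · exact disjoint_left.1 (BR_disjoint hL h) hp (Sum.inl_injective e ▸ hp')
  · simp at e
  · simp at e
  · exact h (by simpa using e)

lemma src_injective : Injective (src L τ : (Vx d × Bool) × ℕ → _) := by
  rintro ⟨⟨x, β⟩, k⟩ ⟨⟨x', β'⟩, k'⟩ h
  unfold src at h
  split_ifs at h
  · simp only [Sum.inl.injEq, Prod.mk.injEq, Nat.cast_inj] at h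
    rw [(lab_inj h.1).1, (lab_inj h.1).2, h.2]
  · simpa using h

lemma src_notMem (hL : 2 ≤ L) (e : (Vx d × Bool) × ℕ) (b : Vx d × Option ℕ) :
    src L τ e ∉ SV L τ b := by
  unfold src
  split_ifs with h
  · rintro (⟨p, hp, e'⟩ | e')
    · exact lab_notMem_BR hL h _ _ _ b (Sum.inl_injective e' ▸ hp)
    · simp at e'
  · rintro (⟨p, hp, e'⟩ | e') <;> simp at e'

lemma rJ_src (e : (Vx d × Bool) × ℕ) : rJ lam (src L τ e) = cond e.1.2 lam 1 := by
  unfold src
  split_ifs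
  · rcases e with ⟨⟨x, _ | _⟩, k⟩ <;> rfl
  · rfl

/-- position of the uniform variable used for a cell -/
def gU (τ : ℕ) (e : (Vx d × Bool) × ℕ) : (Vx d × ℕ) × ℕ :=
  cond e.1.2 ((e.1.1, e.2 / τ), e.2 % τ) ((e.1.1, e.2), τ)

omit [Fact (2 ≤ d)] in
lemma gU_injective (hτ : 0 < τ) : Injective (gU τ : (Vx d × Bool) × ℕ → _) := by
  rintro ⟨⟨x, _ | _⟩, k⟩ ⟨⟨x', _ | _⟩, k'⟩ h <;>
    simp only [gU, cond_true, cond_false, Prod.mk.injEq] at h
  · rw [h.1.1, h.1.2]
  · have := Nat.mod_lt k' hτ; omega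
  · have := Nat.mod_lt k hτ; omega
  · rw [h.1.1, ← Nat.div_add_mod k τ, h.1.2, h.2, Nat.div_add_mod]

/-- marks of the spin-flip process -/
noncomputable def om2 (α lam : ℝ≥0) (E : Set Yq) (K L τ : ℕ) (w : Wx d) (e : (Vx d × Bool) × ℕ) :
    Cell :=
  cond e.1.2 (thin α lam) Prod.fst
    ((w (src L τ e)).1, VV lam E K L τ ((gU τ e).1.1, some (gU τ e).1.2) w (gU τ e).2)

/-- initial state of the spin-flip process -/
def xi0 (ρ : unitInterval) (lam : ℝ≥0) (E : Set Yq) (K L τ : ℕ) (w : Wx d) : Set (Vx d) :=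
  {x | (VV lam E K L τ (x, none) w 0 : ℝ) ≤ ρ}

section
variable [IsProbabilityMeasure Qm[|E]] [IsProbabilityMeasure Qm[|Eᶜ]] (hE : MeasurableSet E)
  (h1 : Qm E ≠ 0) (h2 : Qm Eᶜ ≠ 0) (h3 : ∀ b : Vx d × Option ℕ, Qm E ≤ Pr d lam (Bev K L τ b))
include hE h1 h2 h3

lemma VV_law (b : Vx d × Option ℕ) :
    (Measure.infinitePi (muJ lam E)).map (VV lam E K L τ b) = Qm := by
  have hi := indepFun_of_dependsOn (muJ lam E) (measurable_Bev (K := K) (L := L) (τ := τ) b)
    (g := fun w : Wx d => (w (.inr (.inr b))).2) (by fun_prop) (T := {.inr (.inr b)}) (by simp)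
    (dependsOn_Bev b) fun w w' h => congrArg Prod.snd (h _ rfl)
  have h4 := hi.map_prod_eq_prod_map_map (measurable_Bev b).aemeasurable
    (Measurable.aemeasurable (by fun_prop))
  rw [(extra_preserving _).map_eq] at h4
  have := Measure.isProbabilityMeasure_map (μ := Measure.infinitePi (muJ (d := d) lam E))
    (measurable_Bev (K := K) (L := L) (τ := τ) b).aemeasurable
  have h5 : (Measure.infinitePi (muJ lam E)).map (fun w : Wx d => proj w ∈ Bev K L τ b) {True}
      = Pr d lam (Bev K L τ b) := by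
    rw [Measure.map_apply (measurable_Bev b) trivial,
      ← (proj_preserving (E := E)).measure_preimage (dep_Bev b).meas.nullMeasurableSet]
    congr 1
    ext w; simp
  have h6 := mix_law Qm hE h1 h2 _ (h5 ▸ h3 b)
  rw [h5, ← h4, Measure.map_map (measurable_mix _) ((measurable_Bev b).prodMk (by fun_prop))] at h6
  exact h6

lemma xi0_law (hL : 2 ≤ L) (ρ : unitInterval) :
    (Measure.infinitePi (muJ lam E)).map (xi0 (d := d) ρ lam E K L τ) = setBernoulli univ ρ := by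
  have hm : Measurable fun v : Yq => (v 0 : ℝ) ≤ ρ :=
    measurableSet_setOfPred.1 (measurableSet_le (by fun_prop) measurable_const)
  have hi := iIndepFun_of_dependsOn (muJ lam E)
    (fun (x : Vx d) w => (VV lam E K L τ (x, none) w 0 : ℝ) ≤ ρ)
    (fun x => hm.comp (measurable_VV _)) (fun x => SV L τ (x, none))
    (fun x x' h => SV_disjoint hL (by simpa using h))
    fun x w w' h => congrArg (fun v : Yq => (v 0 : ℝ) ≤ ρ) (dependsOn_VV _ h)
  have h4 := hi.map_fun_eq_infinitePi_map fun x => hm.comp (measurable_VV _)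
  have h5 : ∀ x : Vx d, (Measure.infinitePi (muJ lam E)).map
      (fun w => (VV lam E K L τ (x, none) w 0 : ℝ) ≤ ρ) = unitInterval.toNNReal ρ •
        Measure.dirac (x ∈ (univ : Set (Vx d))) +
          unitInterval.toNNReal (unitInterval.symm ρ) • Measure.dirac False := by
    intro x
    have e1 := Measure.map_map (μ := Measure.infinitePi (muJ lam E)) hm
      (measurable_VV (lam := lam) (E := E) (K := K) (L := L) (τ := τ) (x, none))
    rw [VV_law hE h1 h2 h3] at e1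
    refine e1.symm.trans ?_
    have e2 := measurePreserving_eval_infinitePi (fun _ : ℕ => (volume : Measure unitInterval)) 0
    refine Measure.ext_of_singleton fun z => ?_
    rw [Measure.map_apply hm trivial]
    by_cases hz : z
    · have e3 : (fun v : Yq => (v 0 : ℝ) ≤ ρ) ⁻¹' {z} = eval 0 ⁻¹' Iic ρ := by
        ext v; simp [hz, eval]
      rw [e3, Qm, e2.measure_preimage measurableSet_Iic.nullMeasurableSet]
      simp [hz, ENNReal.ofReal, unitInterval.toNNReal, Real.toNNReal_of_nonneg ρ.2.1]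
      rfl
    · have e3 : (fun v : Yq => (v 0 : ℝ) ≤ ρ) ⁻¹' {z} = eval 0 ⁻¹' Ioi ρ := by
        ext v; simp [hz, eval]
      rw [e3, Qm, e2.measure_preimage measurableSet_Ioi.nullMeasurableSet]
      simp [hz, ENNReal.ofReal, unitInterval.toNNReal,
        Real.toNNReal_of_nonneg (sub_nonneg.2 ρ.2.2)]
      rfl
  simp_rw [comp_def, h5] at h4
  rw [setBernoulli_eq_map, ← h4]
  exact (Measure.map_map measurable_setOfPred
    (measurable_pi_lambda _ fun x => hm.comp (measurable_VV _))).symm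

lemma UU_law (hL : 2 ≤ L) (hτ : 0 < τ) :
    (Measure.infinitePi (muJ lam E)).map (fun (w : Wx d) (e : (Vx d × Bool) × ℕ) =>
      VV lam E K L τ ((gU τ e).1.1, some (gU τ e).1.2) w (gU τ e).2)
      = Measure.infinitePi fun _ => volume := by
  have hi := iIndepFun_of_dependsOn (muJ lam E)
    (fun (b : Vx d × ℕ) w => VV lam E K L τ (b.1, some b.2) w)
    (fun b => measurable_VV _) (fun b => SV L τ (b.1, some b.2))
    (fun b b' h => SV_disjoint hL (by simpa [Prod.ext_iff] using h)) fun b => dependsOn_VV _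
  have h4 := hi.map_fun_eq_infinitePi_map fun b => measurable_VV _
  simp_rw [VV_law hE h1 h2 h3] at h4
  have h5 := Measure.infinitePi_map_curry_symm
    (fun (_ : Vx d × ℕ) (_ : ℕ) => (volume : Measure unitInterval))
  have h6 := Measure.map_infinitePi_infinitePi_of_inj
    (P := fun _ : (Vx d × ℕ) × ℕ => (volume : Measure unitInterval)) (gU_injective hτ)
  have hm : Measurable fun (w : Wx d) (b : Vx d × ℕ) => VV lam E K L τ (b.1, some b.2) w :=
    measurable_pi_lambda _ fun b => measurable_VV _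
  unfold Qm at h4
  rw [← h5, ← h4, Measure.map_map (MeasurableEquiv.measurable _) hm,
    Measure.map_map (by fun_prop) ((MeasurableEquiv.measurable _).comp hm)] at h6
  exact h6

omit [IsProbabilityMeasure Qm[|E]] [IsProbabilityMeasure Qm[|Eᶜ]] hE h1 h2 h3 in
lemma measurable_UU : Measurable fun (w : Wx d) (e : (Vx d × Bool) × ℕ) =>
    VV lam E K L τ ((gU τ e).1.1, some (gU τ e).1.2) w (gU τ e).2 :=
  measurable_pi_lambda _ fun _ => (measurable_pi_apply _).comp (measurable_VV _)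

lemma om2_law (hL : 2 ≤ L) (hτ : 0 < τ) {α : ℝ≥0} (hα : α ≤ lam) (hl : 0 < lam)
    (hα' : Real.exp lam * α / lam ≤ 1) : MeasurePreserving (om2 α lam E K L τ)
      (Measure.infinitePi (muJ lam E)) (flipMarks d α) := by
  have mC : Measurable fun (w : Wx d) (e : (Vx d × Bool) × ℕ) => (w (src L τ e)).1 := by fun_prop
  have hi := indepFun_of_dependsOn (muJ lam E) mC
    (measurable_UU (lam := lam) (E := E) (K := K) (L := L) (τ := τ)) (S := range (src L τ))
    (T := ⋃ b, SV L τ b) (disjoint_left.2 (by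
      rintro _ ⟨e, rfl⟩ h
      obtain ⟨b, hb⟩ := mem_iUnion.1 h
      exact src_notMem hL e b hb))
    (fun w w' h => funext fun e => congrArg Prod.fst (h _ ⟨e, rfl⟩))
    fun w w' h => funext fun e => congrFun (dependsOn_VV _ fun i hi => h i (mem_iUnion.2 ⟨_, hi⟩)) _
  have h4 := hi.map_prod_eq_prod_map_map mC.aemeasurable measurable_UU.aemeasurable
  rw [cells_law src_injective, UU_law hE h1 h2 h3 hL hτ] at h4
  have hp : ∀ e : (Vx d × Bool) × ℕ, MeasurePreserving (cond e.1.2 (thin α lam) Prod.fst)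
      ((cellLaw (rJ lam (src L τ e))).prod volume) (cellLaw (cond e.1.2 α 1)) := by
    intro e
    rw [rJ_src]
    rcases e with ⟨⟨x, _ | _⟩, k⟩
    · exact measurePreserving_fst
    · exact thin_preserving hα hl hα'
  have p1 : MeasurePreserving _ _ _ := ⟨mC.prodMk measurable_UU, h4⟩
  have p2 : MeasurePreserving _ _ _ := ⟨by fun_prop, zip_law
    (fun e : (Vx d × Bool) × ℕ => cellLaw (rJ lam (src L τ e))) fun _ => (volume : Measure unitInterval)⟩
  have p3 : MeasurePreserving (fun (z : (Vx d × Bool) × ℕ → Cell × unitInterval) e =>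
      cond e.1.2 (thin α lam) Prod.fst (z e))
      (Measure.infinitePi fun e => (cellLaw (rJ lam (src L τ e))).prod volume) (flipMarks d α) := by
    refine ⟨measurable_pi_lambda _ fun e => (hp e).measurable.comp (measurable_pi_apply e), ?_⟩
    rw [Measure.infinitePi_map_pi _ fun e => (hp e).measurable]
    simp_rw [(hp _).map_eq]
    rfl
  exact p3.comp (p2.comp p1)

lemma flip_law (hL : 2 ≤ L) (hτ : 0 < τ) {α : ℝ≥0} (hα : α ≤ lam) (hl : 0 < lam)
    (hα' : Real.exp lam * α / lam ≤ 1) (ρ : unitInterval) :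
    HasLaw (fun w => (xi0 ρ lam E K L τ w, om2 α lam E K L τ w))
      ((setBernoulli univ ρ).prod (flipMarks d α)) (Measure.infinitePi (muJ lam E)) := by
  have p := om2_law hE h1 h2 h3 hL hτ hα hl hα'
  have mx : Measurable (xi0 (d := d) ρ lam E K L τ) := measurable_set_iff.2 fun x =>
    measurableSet_setOfPred.1 (measurableSet_le (measurable_subtype_coe.comp
      ((measurable_pi_apply 0).comp (measurable_VV _))) measurable_const)
  refine ⟨(mx.prodMk p.measurable).aemeasurable, ?_⟩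
  rw [← xi0_law hE h1 h2 h3 hL ρ, ← p.map_eq]
  refine IndepFun.map_prod_eq_prod_map_map mx.aemeasurable p.measurable.aemeasurable ?_
  refine indepFun_of_dependsOn _ mx p.measurable (S := ⋃ x, SV L τ (x, none))
    (T := range (src L τ) ∪ ⋃ b : Vx d × ℕ, SV L τ (b.1, some b.2)) ?_ (fun w w' h => ?_)
    fun w w' h => funext fun e => ?_
  · simp only [disjoint_union_right, disjoint_iUnion_left, disjoint_iUnion_right]
    refine ⟨fun x => disjoint_right.2 ?_, fun b x => SV_disjoint hL (by simp)⟩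
    rintro _ ⟨e, rfl⟩
    exact src_notMem hL e _
  · ext x
    simp only [xi0, mem_ofPred_eq]
    rw [dependsOn_VV (x, none) fun i hi => h i (mem_iUnion.2 ⟨x, hi⟩)]
  · unfold om2
    rw [h _ (Or.inl ⟨e, rfl⟩), dependsOn_VV ((gU τ e).1.1, some (gU τ e).1.2)
      fun i hi => h i (Or.inr (mem_iUnion.2 ⟨(gU τ e).1, hi⟩))]

end

lemma dominate (hK : 1 ≤ K) (hτ : 0 < τ) {α : ℝ≥0} (hα : α ≤ lam) (hl : 0 < lam)
    {ρ : unitInterval} (hρ : (ρ : ℝ) ≤ Real.exp lam * α / lam)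
    (hE : ∀ v : Yq, ∀ i < τ, (v i : ℝ) ≤ Real.exp lam * α / lam → v ∈ E) {w : Wx d}
    (hg : Gen (fut (proj w))) (hw : ∀ j, (w j).2.2.2 ∉ E) {t : ℝ} (ht : 0 ≤ t) {x : Vx d}
    (hx : x ∈ Dl d L) (h : x ∈ spinFlip (xi0 ρ lam E K L τ w) (om2 α lam E K L τ w) t) :
    x ∈ contact (eta0 (proj w)) (fut (proj w)) t := by
  have hc : times (om2 α lam E K L τ w) (x, false) = times (fut (proj w)) (x, none) := by
    simp [times, om2, src, hx, lab, fut, proj]
  rcases h with ⟨h1, h2⟩ | ⟨r, ⟨k, i, h1, rfl⟩, h2, h3, h4⟩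
  · rw [hc] at h2
    exact ⟨x, Bev_eta0 hK hτ hx (mix_mem (hE _ 0 hτ (le_trans h1 hρ)) (hw _)), .stay t ht h2⟩
  · rw [hc] at h4
    have e1 : (w (src L τ ((x, true), k))).1
        = fut (proj w) ((yy x (k / τ : ℕ), some (lt x (par (k / τ : ℕ)))), k) := by
      simp [src, hx, lab, fut, proj]
    obtain ⟨h5, h6⟩ := mem_pts_thin h1
    have h7 : proj w ∈ Bev K L τ (x, some (k / τ)) :=
      mix_mem (hE _ _ (Nat.mod_lt k hτ) (h6.trans (ratio_le hα hl (by omega)))) (hw _)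
    have e2 : (om2 α lam E K L τ w ((x, true), k)).2 = (w (src L τ ((x, true), k))).1.2 := rfl
    rw [e2] at h2 h3 h4
    obtain ⟨z, h8, h9⟩ := Bev_reach hτ hx hg h7 (r := k + ((w (src L τ ((x, true), k))).1.2 i : ℝ))
      (by linarith [((w (src L τ ((x, true), k))).1.2 i).2.1])
      (by linarith [((w (src L τ ((x, true), k))).1.2 i).2.2])
    refine ⟨z, h8, ?_⟩
    have := Reach.jump _ (lt x (par (k / τ : ℕ))) _ t h9 ⟨k, i, e1 ▸ h5, by rw [e1]⟩ h2 h3
      (by rw [nbr_yy]; exact h4)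
    rwa [nbr_yy] at this

omit [Fact (2 ≤ d)] in
theorem main (hd : 2 ≤ d) (lam : ℝ≥0) (hlam : critical d < lam) :
    ∃ ν : Measure (Set (Vx d)), IsUpperInvariant lam ν ∧ ∃ Δ : Set (Vx d), PosDensity Δ ∧ ∃ α : ℝ≥0, 0 < α ∧ ∃ ρ : unitInterval,
      (ρ : ℝ) = α / (α + 1) ∧ ∃ (Ω : Type) (_ : MeasurableSpace Ω) (P : Measure Ω)
        (η ξ : Ω → Set (Vx d)) (ω₁ : Ω → (Vx d × Option (Fin (d + 1))) × ℕ → Cell)
        (ω₂ : Ω → (Vx d × Bool) × ℕ → Cell), IsProbabilityMeasure P ∧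
        HasLaw (fun w => (η w, ω₁ w)) (ν.prod (contactMarks d lam)) P ∧
        HasLaw (fun w => (ξ w, ω₂ w)) ((setBernoulli univ ρ).prod (flipMarks d α)) P ∧
        ∀ᵐ w ∂P, ∀ t : ℝ, 0 ≤ t → ∀ x ∈ Δ,
          x ∈ spinFlip (ξ w) (ω₂ w) t → x ∈ contact (η w) (ω₁ w) t := by
  have : Fact (2 ≤ d) := ⟨hd⟩
  have hl : 0 < lam := by exact_mod_cast zero_le.trans_lt hlam
  have hne : (Pr d lam).map eta0 ≠ Measure.dirac ∅ := fun h => absurd hlam (not_lt.2
    (le_iSup₂ (f := fun (l : ℝ≥0) (_ : IsUpperInvariant l (Measure.dirac (∅ : Set (Vx d)))) =>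
      (l : ℝ≥0∞)) lam (h ▸ isUpperInvariant_eta0)))
  obtain ⟨x0, θ, h0, hθ⟩ := exists_theta hne
  obtain ⟨K, m, hK, hm⟩ := exists_ex_large h0 hθ (M := 1 + (d + 1) * 2)
    (ENNReal.add_ne_top.2 ⟨by simp, ENNReal.mul_ne_top (by simp) (by simp)⟩)
  obtain ⟨L, τ, hL, hτ, hoff⟩ := offspring hl hK hm
  obtain ⟨q0, hq0, hq0'⟩ := Surv_prob hoff
  obtain ⟨q, hq, hq'⟩ := Bev_prob hl hL hq0 hq0'
  have hq1 : q ≤ 1 := (hq' (x0, none)).trans prob_le_one
  have hqt : q ≠ ∞ := ne_top_of_le_ne_top ENNReal.one_ne_top hq1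
  have hqr : 0 < q.toReal := ENNReal.toReal_pos hq hqt
  have hqr1 : q.toReal ≤ 1 := ENNReal.toReal_le_of_le_ofReal zero_le_one (by simpa using hq1)
  have hl' : (0 : ℝ) < lam := by exact_mod_cast hl
  have hτ' : (1 : ℝ) ≤ τ := by exact_mod_cast hτ
  have he : (lam : ℝ) + 1 ≤ Real.exp lam := Real.add_one_le_exp _
  set s : ℝ := q.toReal / (2 * τ) with hs
  have s0 : 0 < s := by positivity
  have s1 : τ * s = q.toReal / 2 := by rw [hs]; field_simp
  have s2 : s ≤ 1 := by nlinarith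
  let α : ℝ≥0 := ⟨s * lam / Real.exp lam, by positivity⟩
  have hαs : Real.exp lam * α / lam = s := by
    change Real.exp lam * (s * lam / Real.exp lam) / lam = s
    field_simp
  have α0 : (0 : ℝ) < α := by
    change 0 < s * lam / Real.exp lam
    positivity
  have α1 : (α : ℝ) ≤ lam := by
    change s * lam / Real.exp lam ≤ lam
    rw [div_le_iff₀ (Real.exp_pos _)]
    nlinarith
  have α2 : (α : ℝ) ≤ s := by
    change s * lam / Real.exp lam ≤ s
    rw [div_le_iff₀ (Real.exp_pos _)]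
    nlinarith
  let ρ : unitInterval := ⟨α / (α + 1), by positivity, by
    rw [div_le_one (by positivity)]; linarith⟩
  have hρ : (ρ : ℝ) ≤ s := le_trans (div_le_self α0.le (by linarith)) α2
  set E : Set Yq := ⋃ i ∈ Finset.range τ, {v | (v i : ℝ) ≤ s} with hEdef
  have hEi : ∀ i, Qm {v : Yq | (v i : ℝ) ≤ s} = ENNReal.ofReal s := fun i => by
    rw [← vol_le s0.le s2]
    exact (measurePreserving_eval_infinitePi (fun _ : ℕ => (volume : Measure unitInterval))
      i).measure_preimage (meas_le s).nullMeasurableSet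
  have hE : MeasurableSet E :=
    Finset.measurableSet_biUnion _ fun i _ => measurableSet_le (by fun_prop) measurable_const
  have h1 : Qm E ≠ 0 := by
    refine ne_of_gt (lt_of_lt_of_le (by simpa using s0) ((hEi 0).ge.trans (measure_mono ?_)))
    exact subset_biUnion_of_mem (u := fun i => {v : Yq | (v i : ℝ) ≤ s})
      (Finset.mem_coe.2 (Finset.mem_range.2 hτ))
  have h3 : Qm E ≤ q / 2 := by
    refine (measure_biUnion_finset_le _ _).trans (le_of_eq ?_)
    simp_rw [hEi]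
    rw [Finset.sum_const, Finset.card_range, nsmul_eq_mul, ← ENNReal.ofReal_natCast,
      ← ENNReal.ofReal_mul (by positivity), s1, ENNReal.ofReal_div_of_pos two_pos,
      ENNReal.ofReal_toReal hqt]
    simp
  have h2 : Qm Eᶜ ≠ 0 := by
    rw [prob_compl_eq_one_sub hE]
    exact (tsub_pos_of_lt ((h3.trans_lt (ENNReal.half_lt_self hq hqt)).trans_le hq1)).ne'
  have := cond_isProbabilityMeasure (μ := Qm) h1
  have := cond_isProbabilityMeasure (μ := Qm) h2
  have h4 : ∀ b : Vx d × Option ℕ, Qm E ≤ Pr d lam (Bev K L τ b) := fun b =>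
    (h3.trans ENNReal.half_le_self).trans (hq' b)
  refine ⟨_, isUpperInvariant_eta0, Dl d L, posDensity_Dl hL, α, by exact_mod_cast α0, ρ, rfl, Wx d, inferInstance,
    Measure.infinitePi (muJ lam E), fun w => eta0 (proj w), xi0 ρ lam E K L τ,
    fun w => fut (proj w), om2 α lam E K L τ, inferInstance, ?_,
    flip_law hE h1 h2 h4 hL hτ α1 hl (hαs ▸ s2) ρ, ?_⟩
  · have p : MeasurePreserving (fun ω : Om d => (eta0 ω, fut ω)) _ _ :=
      ⟨measurable_eta0.prodMk measurable_fut, joint_law (lam := lam)⟩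
    exact (p.comp proj_preserving).hasLaw
  · have a1 : ∀ᵐ w ∂Measure.infinitePi (muJ (d := d) lam E), Gen (fut (proj w)) :=
      (fut_preserving.comp proj_preserving).quasiMeasurePreserving.ae
        (ae_Gen fun p : Lb d × ℕ => rate lam p.1)
    have a2 : ∀ᵐ w ∂Measure.infinitePi (muJ (d := d) lam E), ∀ j, (w j).2.2.2 ∉ E :=
      ae_all_iff.2 fun j => ((measurePreserving_snd.comp measurePreserving_snd).comp
        (extra_preserving j)).quasiMeasurePreserving.ae (ae_cond_mem hE.compl)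
    filter_upwards [a1, a2] with w hg hw t ht x hx h
    exact dominate hK hτ α1 hl (hαs ▸ hρ) (fun v i hi hv => mem_biUnion
      (Finset.mem_coe.2 (Finset.mem_range.2 hi)) (hαs ▸ hv)) hg hw ht hx h

end Pool.Agent.Lib.MP_69dcc1_pr
end
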