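import Pool.Agent.Lib.MP_69dcc1_pr.Path
import Pool.Agent.Lib.MP_69dcc1_pr.Indep

/-! The two-sided graphical representation and its discrete time skeleton. -/

namespace Pool.Agent.Lib.MP_69dcc1_pr

open Set Function MeasureTheory ProbabilityTheory
open scoped NNReal ENNReal

variable {d : ℕ}

/-- labels of the Poisson processes -/
abbrev Lb (d : ℕ) : Type := Vx d × Option (Fin (d + 1))
/-- two-sided marks -/
abbrev Om (d : ℕ) : Type := Lb d × ℤ → Cell

/-- points of a cell -/
def pts (c : Cell) : Set ℝ := {u | ∃ i < c.1, u = (c.2 i : ℝ)}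

/-- rates -/
def rate (lam : ℝ≥0) (e : Lb d) : ℝ≥0 := e.2.elim 1 fun _ => lam

instance (r : ℝ≥0) : IsProbabilityMeasure (cellLaw r) := by unfold cellLaw; infer_instance

/-- law of the two-sided marks -/
noncomputable def Pr (d : ℕ) (lam : ℝ≥0) : Measure (Om d) :=
  Measure.infinitePi fun p => cellLaw (rate lam p.1)

instance (lam : ℝ≥0) : IsProbabilityMeasure (Pr d lam) := by unfold Pr; infer_instance

/-- one step of the skeleton -/
def Step (W : Set (Vx d)) (K : ℕ) (ω : Om d) (k : ℤ) (v v' : Vx d) : Prop :=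
  PN W (fun v => pts (ω ((v, none), k))) (fun v a => pts (ω ((v, some a), k))) v 0 K v' 1

/-- labels inside a region -/
def ED (W : Set (Vx d)) : Set (Lb d) := {e | e.1 ∈ W ∧ ∀ a, e.2 = some a → nbr a e.1 ∈ W}

/-- space-time regions -/
def Reg (W : Set (Vx d)) (k : ℤ) (n : ℕ) : Set (Lb d × ℤ) :=
  {p | p.1 ∈ ED W ∧ k ≤ p.2 ∧ p.2 < k + n}

/-- chains of steps -/
def Ch (W : Set (Vx d)) (K : ℕ) (ω : Om d) (k : ℤ) (v : Vx d) : ℕ → Vx d → Prop
  | 0, v' => v' = v
  | n + 1, v' => ∃ z, Ch W K ω k v n z ∧ Step W K ω (k + n) z v'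

lemma ED_mono {W W' : Set (Vx d)} (h : W ⊆ W') : ED W ⊆ ED W' :=
  fun _ he => ⟨h he.1, fun a ha => h (he.2 a ha)⟩

lemma Reg_mono {W W' : Set (Vx d)} {k k' : ℤ} {n n' : ℕ} (h : W ⊆ W') (h1 : k' ≤ k)
    (h2 : k + n ≤ k' + n') : Reg W k n ⊆ Reg W' k' n' :=
  fun _ hp => ⟨ED_mono h hp.1, h1.trans hp.2.1, hp.2.2.trans_le h2⟩

lemma meas_free (e : Lb d × ℤ) : Measurable fun p : Om d × ℝ × ℝ =>
    Disjoint (pts (p.1 e)) (Ioc p.2.1 p.2.2) := by
  have : (fun p : Om d × ℝ × ℝ => Disjoint (pts (p.1 e)) (Ioc p.2.1 p.2.2)) = fun p =>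
      ∀ i, i < (p.1 e).1 → ¬ (p.2.1 < ((p.1 e).2 i : ℝ) ∧ ((p.1 e).2 i : ℝ) ≤ p.2.2) := by
    funext p
    rw [disjoint_left]
    exact propext ⟨fun h i hi => h ⟨i, hi, rfl⟩, fun h u ⟨i, hi, e⟩ => e ▸ h i hi⟩
  rw [this]
  refine Measurable.forall fun i => Measurable.imp ?_ (Measurable.not (Measurable.and ?_ ?_))
  · exact measurableSet_setOfPred.1 (measurableSet_lt measurable_const (by fun_prop))
  · exact measurableSet_setOfPred.1 (measurableSet_lt (by fun_prop) (by fun_prop))
  · exact measurableSet_setOfPred.1 (measurableSet_le (by fun_prop) (by fun_prop))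

lemma meas_PN (W : Set (Vx d)) (k : ℤ) (y : Vx d) (K : ℕ) : ∀ x, Measurable fun p : Om d × ℝ =>
    PN W (fun v => pts (p.1 ((v, none), k))) (fun v a => pts (p.1 ((v, some a), k))) y 0 K x p.2 := by
  have h0 : ∀ x, Measurable fun p : Om d × ℝ => PN W (fun v => pts (p.1 ((v, none), k)))
      (fun v a => pts (p.1 ((v, some a), k))) y 0 0 x p.2 := by
    intro x
    simp_rw [PN_zero]
    refine measurable_const.and (measurable_const.and (Measurable.and ?_ ?_))
    · exact measurableSet_setOfPred.1 (measurableSet_le (by fun_prop) (by fun_prop))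
    · exact (meas_free ((y, none), k)).comp (f := fun p : Om d × ℝ => (p.1, 0, p.2)) (by fun_prop)
  induction K with
  | zero => exact h0
  | succ K ih =>
    intro x
    have : (fun p : Om d × ℝ => PN W (fun v => pts (p.1 ((v, none), k)))
        (fun v a => pts (p.1 ((v, some a), k))) y 0 (K + 1) x p.2) = fun p =>
        PN W (fun v => pts (p.1 ((v, none), k))) (fun v a => pts (p.1 ((v, some a), k))) y 0 0 x p.2
        ∨ ∃ a i, i < (p.1 ((nbr a x, some a), k)).1 ∧ PN W (fun v => pts (p.1 ((v, none), k)))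
          (fun v a => pts (p.1 ((v, some a), k))) y 0 K (nbr a x) ((p.1 ((nbr a x, some a), k)).2 i)
          ∧ 0 < ((p.1 ((nbr a x, some a), k)).2 i : ℝ) ∧ ((p.1 ((nbr a x, some a), k)).2 i : ℝ) ≤ p.2
          ∧ x ∈ W ∧ Disjoint (pts (p.1 ((x, none), k)))
            (Ioc ((p.1 ((nbr a x, some a), k)).2 i : ℝ) p.2) := by
      funext p
      rw [PN_succ]
      refine propext (or_congr Iff.rfl (exists_congr fun a => ⟨?_, ?_⟩))
      · rintro ⟨r, h1, ⟨i, hi, rfl⟩, h2⟩
        exact ⟨i, hi, h1, h2⟩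
      · rintro ⟨i, hi, h1, h2⟩
        exact ⟨_, h1, ⟨i, hi, rfl⟩, h2⟩
    rw [this]
    refine (h0 x).or (Measurable.exists fun a => Measurable.exists fun i => Measurable.and ?_
      (Measurable.and ?_ (Measurable.and ?_ (Measurable.and ?_ (measurable_const.and ?_)))))
    · exact measurableSet_setOfPred.1 (measurableSet_lt measurable_const (by fun_prop))
    · exact (ih (nbr a x)).comp
        (f := fun p : Om d × ℝ => (p.1, ((p.1 ((nbr a x, some a), k)).2 i : ℝ))) (by fun_prop)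
    · exact measurableSet_setOfPred.1 (measurableSet_lt measurable_const (by fun_prop))
    · exact measurableSet_setOfPred.1 (measurableSet_le (by fun_prop) (by fun_prop))
    · exact (meas_free ((x, none), k)).comp
        (f := fun p : Om d × ℝ => (p.1, ((p.1 ((nbr a x, some a), k)).2 i : ℝ), p.2)) (by fun_prop)

lemma dep_Step (W : Set (Vx d)) (K : ℕ) (k : ℤ) (v v' : Vx d) :
    Dep (Reg W k 1) {ω : Om d | Step W K ω k v v'} := by
  refine ⟨measurableSet_setOfPred.2 ((meas_PN W k v K v').comp (f := fun ω : Om d => (ω, (1 : ℝ)))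
    (by fun_prop)), fun ω ω' h hω => ?_⟩
  have := PN.map (W' := W) (cure' := fun v => pts (ω' ((v, none), k)))
    (arrow' := fun v a => pts (ω' ((v, some a), k))) id id 0 1 (fun _ _ => rfl) (fun _ h => h)
    (fun v hv u _ hu => by
      rw [h ((v, none), k) ⟨⟨hv, by simp⟩, le_rfl, by simp⟩]; simpa using hu)
    (fun v hv a ha u _ hu => by
      rw [h ((v, some a), k) ⟨⟨hv, by simpa using ha⟩, le_rfl, by simp⟩] at hu; simpa using hu)
    hω le_rfl
  simpa [Step] using this

lemma dep_Ch (W : Set (Vx d)) (K : ℕ) (k : ℤ) (v : Vx d) (n : ℕ) : ∀ v',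
    Dep (Reg W k n) {ω : Om d | Ch W K ω k v n v'} := by
  induction n with
  | zero => exact fun v' => Dep.const _ _
  | succ n ih =>
    intro v'
    have : {ω : Om d | Ch W K ω k v (n + 1) v'}
        = ⋃ z, {ω | Ch W K ω k v n z} ∩ {ω | Step W K ω (k + n) z v'} := by
      ext ω; simp [Ch]
    rw [this]
    refine Dep.iUnion fun z => Dep.inter ((ih z).mono (Reg_mono subset_rfl le_rfl ?_))
      ((dep_Step W K (k + n) z v').mono (Reg_mono subset_rfl ?_ ?_)) <;> push_cast <;> omega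

variable {W W' : Set (Vx d)} {K : ℕ} {ω : Om d} {k : ℤ} {v v' : Vx d} {n : ℕ}

lemma Ch_one : Ch W K ω k v 1 v' ↔ Step W K ω k v v' := by simp [Ch]

lemma Ch_add {m : ℕ} : Ch W K ω k v (n + m) v' ↔ ∃ z, Ch W K ω k v n z ∧ Ch W K ω (k + n) z m v' := by
  induction m generalizing v' with
  | zero => simp [Ch]
  | succ m ih =>
    rw [← add_assoc]
    simp only [Ch, ih]
    constructor
    · rintro ⟨z, ⟨z', h1, h2⟩, h3⟩
      exact ⟨z', h1, z, h2, by simpa [add_assoc] using h3⟩
    · rintro ⟨z', h1, z, h2, h3⟩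
      exact ⟨z, ⟨z', h1, h2⟩, by simpa [add_assoc] using h3⟩

lemma Ch.mono {K' : ℕ} (h : Ch W K ω k v n v') (hW : W ⊆ W') (hK : K ≤ K') :
    Ch W' K' ω k v n v' := by
  induction n generalizing v' with
  | zero => exact h
  | succ n ih =>
    obtain ⟨z, h1, h2⟩ := h
    exact ⟨z, ih h1, (PN.monoW h2 hW).monoK hK⟩

lemma Ch.len (h : Ch W K ω k v n v') : len v ≤ len v' + n * K ∧ len v' ≤ len v + n * K := by
  induction n generalizing v' with
  | zero => rw [h]; omega
  | succ n ih =>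
    obtain ⟨z, h1, h2⟩ := h
    have := ih h1
    have := PN.len h2
    rw [add_mul]; omega

lemma Ch.mem (h : Ch W K ω k v n v') (hv : v ∈ W) : v' ∈ W := by
  cases n with
  | zero => rw [h]; exact hv
  | succ n => obtain ⟨z, -, h2⟩ := h; exact PN.mem h2

lemma Ch.closed (h : Ch W K ω k v n v') (hv : v ∈ W')
    (hcl : ∀ v ∈ W', ∀ a, nbr a v ∈ W → nbr a v ∈ W') : Ch (W ∩ W') K ω k v n v' ∧ v' ∈ W' := by
  induction n generalizing v' with
  | zero => exact ⟨h, by rw [h]; exact hv⟩
  | succ n ih =>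
    obtain ⟨z, h1, h2⟩ := h
    have h3 := PN.closed h2 (ih h1).2 hcl
    exact ⟨⟨z, (ih h1).1, h3⟩, h3.mem.2⟩

lemma Ch.depth (h : Ch W K ω k v n v') :
    Ch (W ∩ {u | MP_69dcc1_pr.len u ≤ MP_69dcc1_pr.len v + n * K}) K ω k v n v' := by
  induction n generalizing v' with
  | zero => exact h
  | succ n ih =>
    obtain ⟨z, h1, h2⟩ := h
    have := h1.len
    refine ⟨z, (ih h1).mono (fun u hu => ⟨hu.1, ?_⟩) le_rfl,
      (PN.range h2).monoW fun u hu => ⟨hu.1, ?_⟩⟩
    · have := hu.2; simp only [mem_ofPred_eq, add_mul] at this ⊢; omega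
    · have := hu.2.2; simp only [mem_ofPred_eq, add_mul]; omega

/-! ### symmetries -/

/-- action of an automorphism and a time shift on the marks -/
def act (f : Aut d) (j : ℤ) (ω : Om d) : Om d := fun p => ω ((f.φ p.1.1, p.1.2.map f.π), p.2 + j)

lemma act_preserving (lam : ℝ≥0) (f : Aut d) (j : ℤ) :
    MeasurePreserving (act f j) (Pr d lam) (Pr d lam) := by
  refine ⟨by unfold act; fun_prop, ?_⟩
  have := Measure.map_infinitePi_infinitePi_of_inj (P := fun p : Lb d × ℤ => cellLaw (rate lam p.1))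
    (f := fun p : Lb d × ℤ => ((f.φ p.1.1, p.1.2.map f.π), p.2 + j)) (by
      rintro ⟨⟨v, o⟩, k⟩ ⟨⟨v', o'⟩, k'⟩ h
      simp only [Prod.mk.injEq, EmbeddingLike.apply_eq_iff_eq, add_left_inj] at h
      rw [h.1.1, Option.map_injective f.π.injective h.1.2, h.2])
  refine this.trans ?_
  unfold Pr
  congr 1
  funext p
  rcases p with ⟨⟨v, _ | a⟩, k⟩ <;> rfl

lemma Ch.act {f : Aut d} {j : ℤ} (hW : ∀ v ∈ W, f.φ v ∈ W') (h : Ch W K (act f j ω) k v n v') :
    Ch W' K ω (k + j) (f.φ v) n (f.φ v') := by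
  induction n generalizing v' with
  | zero => rw [h]; rfl
  | succ n ih =>
    obtain ⟨z, h1, h2⟩ := h
    refine ⟨f.φ z, ih h1, ?_⟩
    have := PN.map (W' := W') (cure' := fun v => pts (ω ((v, none), k + j + n)))
      (arrow' := fun v a => pts (ω ((v, some a), k + j + n))) f.φ f.π 0 1 f.eqv hW
      (fun v _ u _ hu => by simpa [MP_69dcc1_pr.act, add_right_comm k] using hu)
      (fun v _ a _ u _ hu => by simpa [MP_69dcc1_pr.act, add_right_comm k] using hu) h2 le_rfl
    simpa [Step] using this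

/-- identity automorphism -/
def Aut.one (d : ℕ) : Aut d := ⟨Equiv.refl _, 1, fun _ _ => rfl⟩

/-- inverse automorphism -/
def Aut.inv (f : Aut d) : Aut d :=
  ⟨f.φ.symm, f.π.symm, fun a v => f.φ.injective (by rw [f.eqv]; simp)⟩

/-- transition weights -/
noncomputable def p (lam : ℝ≥0) (W : Set (Vx d)) (K n : ℕ) (v v' : Vx d) : ℝ≥0∞ :=
  Pr d lam {ω | Ch W K ω 0 v n v'}

variable {lam : ℝ≥0}

lemma Pr_Ch_le (f : Aut d) (hW : ∀ v ∈ W, f.φ v ∈ W') (k k' : ℤ) :
    Pr d lam {ω | Ch W K ω k v n v'} ≤ Pr d lam {ω | Ch W' K ω k' (f.φ v) n (f.φ v')} := by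
  rw [← (act_preserving lam f (k' - k)).measure_preimage (dep_Ch W K k v n v').meas.nullMeasurableSet]
  refine measure_mono fun ω h => ?_
  have := Ch.act hW h
  rwa [add_sub_cancel] at this

lemma Pr_Ch (k : ℤ) : Pr d lam {ω | Ch W K ω k v n v'} = p lam W K n v v' :=
  le_antisymm (Pr_Ch_le (Aut.one d) (fun _ h => h) k 0) (Pr_Ch_le (Aut.one d) (fun _ h => h) 0 k)

lemma p_le_aut (f : Aut d) (hW : ∀ v ∈ W, f.φ v ∈ W') :
    p lam W K n v v' ≤ p lam W' K n (f.φ v) (f.φ v') := Pr_Ch_le f hW 0 0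

lemma p_mono {K' : ℕ} (hW : W ⊆ W') (hK : K ≤ K') : p lam W K n v v' ≤ p lam W' K' n v v' :=
  measure_mono fun _ h => Ch.mono h hW hK

lemma Reg_disjoint_time {k k' : ℤ} {n n' : ℕ} (h : k + n ≤ k') :
    Disjoint (Reg W k n) (Reg W' k' n') :=
  disjoint_left.2 fun p hp hp' => by have := hp.2.2; have := hp'.2.1; omega

lemma p_mul_le {m : ℕ} {z : Vx d} : p lam W K n v z * p lam W K m z v' ≤ p lam W K (n + m) v v' := by
  rw [← Pr_Ch (n := m) (0 + n), p, Pr, ← Dep.meas_inter _ (dep_Ch W K 0 v n z)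
    (dep_Ch W K (0 + n) z m v') (Reg_disjoint_time le_rfl)]
  exact measure_mono fun ω h => Ch_add.2 ⟨z, h.1, h.2⟩

lemma p_le_one : p lam W K n v v' ≤ 1 := prob_le_one

/-! ### genericity and time reversal -/

lemma pos_preserving (r : ℝ≥0) (i : ℕ) :
    MeasurePreserving (fun c : Cell => c.2 i) (cellLaw r) volume :=
  (measurePreserving_eval_infinitePi (fun _ : ℕ => (volume : Measure unitInterval)) i).comp
    measurePreserving_snd

/-- generic marks -/
def Gen {ι : Type} (ω : ι → Cell) : Prop :=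
  (∀ p i, 0 < ((ω p).2 i : ℝ) ∧ ((ω p).2 i : ℝ) < 1) ∧ ∀ p p', p ≠ p' → ∀ i j, (ω p).2 i ≠ (ω p').2 j

lemma ae_Gen {ι : Type} [Countable ι] (r : ι → ℝ≥0) :
    ∀ᵐ ω ∂(Measure.infinitePi fun p => cellLaw (r p)), Gen ω := by
  have h1 : ∀ p i (c : unitInterval),
      ∀ᵐ ω ∂(Measure.infinitePi fun p => cellLaw (r p)), (ω p).2 i ≠ c := by
    intro p i c
    have := ((pos_preserving (r p) i).comp (measurePreserving_eval_infinitePi
      (fun p => cellLaw (r p)) p)).measure_preimage (s := {c}) (measurableSet_singleton c).nullMeasurableSet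
    rw [measure_singleton] at this
    rw [ae_iff]
    simpa [preimage] using this
  have h2 : ∀ p p', p ≠ p' → ∀ i j,
      ∀ᵐ ω ∂(Measure.infinitePi fun p => cellLaw (r p)), (ω p).2 i ≠ (ω p').2 j := by
    intro p p' hp i j
    have hm : MeasurableSet {c : Cell × Cell | c.1.2 i = c.2.2 j} :=
      measurableSet_eq_fun (by fun_prop) (by fun_prop)
    have e1 := Measure.infinitePi_map_eval_prod (P := fun p => cellLaw (r p)) hp
    have e2 : ((cellLaw (r p)).prod (cellLaw (r p'))) {c : Cell × Cell | c.1.2 i = c.2.2 j} = 0 := by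
      rw [Measure.measure_prod_null hm]
      refine Filter.Eventually.of_forall fun c => ?_
      have := (pos_preserving (r p') j).measure_preimage (s := {c.2 i})
        (measurableSet_singleton _).nullMeasurableSet
      rw [measure_singleton] at this
      simpa [preimage, eq_comm] using this
    rw [← e1, Measure.map_apply (by fun_prop) hm] at e2
    rw [ae_iff]
    simpa [preimage] using e2
  refine Filter.Eventually.and (ae_all_iff.2 fun p => ae_all_iff.2 fun i => ?_)
    (ae_all_iff.2 fun p => ae_all_iff.2 fun p' => ?_)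
  · filter_upwards [h1 p i 0, h1 p i 1] with ω e0 e1
    exact ⟨lt_of_le_of_ne ((ω p).2 i).2.1 fun e => e0 (Subtype.ext e.symm),
      lt_of_le_of_ne ((ω p).2 i).2.2 fun e => e1 (Subtype.ext e)⟩
  · by_cases hp : p = p'
    · exact Filter.Eventually.of_forall fun ω h => absurd hp h
    · filter_upwards [ae_all_iff.2 fun i => ae_all_iff.2 fun j => h2 p p' hp i j] with ω h _
      exact h

lemma Gen.mem {ι : Type} {ω : ι → Cell} (h : Gen ω) {p : ι} {u : ℝ} (hu : u ∈ pts (ω p)) :
    0 < u ∧ u < 1 := by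
  obtain ⟨i, -, rfl⟩ := hu
  exact h.1 p i

lemma Gen.disj {ι : Type} {ω : ι → Cell} (h : Gen ω) {p p' : ι} (hp : p ≠ p') :
    Disjoint (pts (ω p)) (pts (ω p')) := by
  rw [disjoint_left]
  rintro u ⟨i, -, rfl⟩ ⟨j, -, e⟩
  exact h.2 p p' hp i j (Subtype.ext e)

/-- reflection of a cell -/
def refl (c : Cell) : Cell := (c.1, fun i => unitInterval.symm (c.2 i))

lemma refl_preserving (r : ℝ≥0) : MeasurePreserving refl (cellLaw r) (cellLaw r) := by
  have h : MeasurePreserving (fun (u : ℕ → unitInterval) i => unitInterval.symm (u i))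
      (Measure.infinitePi fun _ => volume) (Measure.infinitePi fun _ => volume) := by
    refine ⟨by fun_prop, ?_⟩
    rw [Measure.infinitePi_map_pi _ fun _ => unitInterval.measurable_symm]
    simp_rw [unitInterval.measurePreserving_symm.map_eq]
  exact (MeasurePreserving.id (poissonMeasure r)).prod h

lemma mem_pts_refl {c : Cell} {u : ℝ} : u ∈ pts (refl c) ↔ 1 - u ∈ pts c := by
  unfold pts refl
  simp only [mem_ofPred_eq, unitInterval.coe_symm_eq]
  exact exists_congr fun i => and_congr Iff.rfl ⟨fun h => by linarith, fun h => by linarith⟩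

/-- reversal of labels -/
def revL : Lb d → Lb d
  | (v, none) => (v, none)
  | (v, some a) => (nbr a v, some a)

/-- time reversal of the marks -/
def rev (ω : Om d) : Om d := fun p => refl (ω (revL p.1, -1 - p.2))

lemma rev_preserving (lam : ℝ≥0) : MeasurePreserving rev (Pr d lam) (Pr d lam) := by
  have hinv : ∀ e : Lb d, revL (revL e) = e := by
    rintro ⟨v, _ | a⟩ <;> simp [revL]
  have h1 : MeasurePreserving (fun (ω : Om d) (p : Lb d × ℤ) => ω (revL p.1, -1 - p.2))
      (Pr d lam) (Pr d lam) := by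
    refine ⟨by fun_prop, ?_⟩
    have := Measure.map_infinitePi_infinitePi_of_inj
      (P := fun p : Lb d × ℤ => cellLaw (rate lam p.1))
      (f := fun p : Lb d × ℤ => (revL p.1, -1 - p.2)) (by
        rintro ⟨e, k⟩ ⟨e', k'⟩ h
        simp only [Prod.mk.injEq, sub_right_inj] at h
        rw [← hinv e, h.1, hinv, h.2])
    refine this.trans ?_
    unfold Pr
    congr 1
    funext p
    rcases p with ⟨⟨v, _ | a⟩, k⟩ <;> rfl
  have h2 : MeasurePreserving (fun (ω : Om d) (p : Lb d × ℤ) => refl (ω p)) (Pr d lam) (Pr d lam) := by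
    refine ⟨measurable_pi_lambda _ fun p => (refl_preserving 1).measurable.comp (by fun_prop), ?_⟩
    unfold Pr
    rw [Measure.infinitePi_map_pi _ fun _ => (refl_preserving 1).measurable]
    simp_rw [(refl_preserving _).map_eq]
  exact h2.comp h1

lemma Step.rev (hg : Gen ω) (h : Step W K ω k v v') : Step W K (rev ω) (-1 - k) v' v := by
  have := PN.reverse (cure' := fun v => pts (MP_69dcc1_pr.rev ω ((v, none), -1 - k)))
    (arrow' := fun v a => pts (MP_69dcc1_pr.rev ω ((v, some a), -1 - k))) 1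
    (fun v h => lt_irrefl _ (hg.mem h).1) (fun v z a => hg.disj (by simp))
    (fun z a z' a' h => hg.disj (by simp [h]))
    (fun v u hu => by simpa [MP_69dcc1_pr.rev, revL, mem_pts_refl] using hu)
    (fun v a u hu => by simpa [MP_69dcc1_pr.rev, revL, mem_pts_refl] using hu)
    h (fun a h => lt_irrefl _ (hg.mem h).2)
  simpa [Step] using this

lemma Ch.rev (hg : Gen ω) (h : Ch W K ω k v n v') : Ch W K (rev ω) (-k - n) v' n v := by
  induction n generalizing v' with
  | zero => exact h.symm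
  | succ n ih =>
    obtain ⟨z, h1, h2⟩ := h
    rw [add_comm n 1, Ch_add]
    refine ⟨z, Ch_one.2 ?_, ?_⟩
    · convert h2.rev hg using 1
      push_cast; ring
    · convert ih h1 using 1
      push_cast; ring

lemma p_symm : p lam W K n v v' = p lam W K n v' v := by
  have : ∀ v v' : Vx d, p lam W K n v v' ≤ p lam W K n v' v := fun v v' => by
    rw [← Pr_Ch (v := v') (-0 - n), ← (rev_preserving lam).measure_preimage
      (dep_Ch W K _ v' n v).meas.nullMeasurableSet]
    refine measure_mono_ae ?_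
    filter_upwards [ae_Gen fun p : Lb d × ℤ => rate lam p.1] with ω hg h
    exact Ch.rev hg h
  exact le_antisymm (this _ _) (this _ _)

/-! ### one step to a neighbour -/

/-- probability of an empty cell -/
noncomputable def c0 (r : ℝ≥0) : ℝ≥0∞ := cellLaw r {c | c.1 = 0}
/-- probability of a cell with a positive first point -/
noncomputable def c1 (r : ℝ≥0) : ℝ≥0∞ := cellLaw r {c | 0 < c.1 ∧ 0 < (c.2 0 : ℝ)}

lemma cellLaw_fst (r : ℝ≥0) {S : Set ℕ} : cellLaw r {c | c.1 ∈ S} = poissonMeasure r S :=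
  (measurePreserving_fst (μ := poissonMeasure r)
    (ν := Measure.infinitePi fun _ : ℕ => (volume : Measure unitInterval))).measure_preimage
    (s := S) (MeasurableSet.of_discrete).nullMeasurableSet

lemma poisson_ne_zero {r : ℝ≥0} (n : ℕ) (h : n = 0 ∨ 0 < r) : poissonMeasure r {n} ≠ 0 := by
  rw [poissonMeasure_singleton]
  simp only [ne_eq, ENNReal.ofReal_eq_zero, not_le]
  rcases h with rfl | h
  · simpa using Real.exp_pos _
  · positivity

lemma c0_ne_zero (r : ℝ≥0) : c0 r ≠ 0 := by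
  have := cellLaw_fst r (S := {0})
  rw [c0]
  exact this ▸ poisson_ne_zero 0 (Or.inl rfl)

lemma c1_ne_zero {r : ℝ≥0} (hr : 0 < r) : c1 r ≠ 0 := by
  have h1 := cellLaw_fst r (S := {1})
  have h2 := (pos_preserving r 0).measure_preimage (s := {0})
    (measurableSet_singleton _).nullMeasurableSet
  rw [measure_singleton] at h2
  intro h
  refine poisson_ne_zero 1 (Or.inr hr) (h1 ▸ measure_mono_null (fun c hc => ?_) (measure_union_null h h2))
  by_cases e : c.2 0 = 0
  · exact Or.inr e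
  · refine Or.inl ⟨?_, lt_of_le_of_ne (c.2 0).2.1 fun e' => e (Subtype.ext e'.symm)⟩
    have : c.1 = 1 := hc
    omega

lemma meas_c0 : MeasurableSet {c : Cell | c.1 = 0} := measurableSet_eq_fun (by fun_prop) (by fun_prop)
lemma meas_c1 : MeasurableSet {c : Cell | 0 < c.1 ∧ 0 < (c.2 0 : ℝ)} :=
  MeasurableSet.inter (s₁ := {c : Cell | 0 < c.1}) (s₂ := {c : Cell | 0 < (c.2 0 : ℝ)})
    (measurableSet_lt measurable_const (by fun_prop))
    (measurableSet_lt measurable_const (by fun_prop))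

lemma Pr_eval (q : Lb d × ℤ) {C : Set Cell} (hC : MeasurableSet C) :
    Pr d lam {ω | ω q ∈ C} = cellLaw (rate lam q.1) C :=
  (measurePreserving_eval_infinitePi (fun p : Lb d × ℤ => cellLaw (rate lam p.1)) q).measure_preimage
    hC.nullMeasurableSet

lemma pts_empty {c : Cell} (h : c.1 = 0) : pts c = ∅ := by
  ext u; simp [pts, h]

/-- lower bound for the probability of moving to a neighbour -/
noncomputable def eps (lam : ℝ≥0) : ℝ≥0∞ := c0 1 * c0 1 * c1 lam

lemma eps_ne_zero (h : 0 < lam) : eps lam ≠ 0 :=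
  mul_ne_zero (mul_ne_zero (c0_ne_zero 1) (c0_ne_zero 1)) (c1_ne_zero h)

lemma eps_le_p {a : Fin (d + 1)} (hv : v ∈ W) (ha : nbr a v ∈ W) (hK : 1 ≤ K) :
    eps lam ≤ p lam W K 1 v (nbr a v) := by
  have e1 := Dep.eval (X := fun _ : Lb d × ℤ => Cell) ((v, none), 0) meas_c0
  have e2 := Dep.eval (X := fun _ : Lb d × ℤ => Cell) ((nbr a v, none), 0) meas_c0
  have e3 := Dep.eval (X := fun _ : Lb d × ℤ => Cell) ((v, some a), 0) meas_c1
  have h12 := Dep.meas_inter (fun p : Lb d × ℤ => cellLaw (rate lam p.1)) e1 e2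
    (by simp [(nbr_ne a v).symm])
  have h123 := Dep.meas_inter (fun p : Lb d × ℤ => cellLaw (rate lam p.1))
    ((e1.mono subset_union_left).inter (e2.mono subset_union_right)) e3 (by simp)
  rw [h12] at h123
  have := h123
  change Pr d lam _ = Pr d lam _ * Pr d lam _ * Pr d lam _ at this
  rw [Pr_eval _ meas_c0, Pr_eval _ meas_c0, Pr_eval _ meas_c1] at this
  refine le_trans (le_of_eq this.symm) (measure_mono fun ω h => ?_)
  obtain ⟨⟨h1, h2⟩, h3, h4⟩ := h
  refine Ch_one.2 (PN.monoK ?_ hK)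
  refine PN.jump 0 v a ((ω ((v, some a), 0)).2 0) 1 (.stay _ _ hv h4.le ?_) ⟨0, h3, rfl⟩ h4
    ((ω ((v, some a), 0)).2 0).2.2 ha ?_
  · simp only [pts_empty h1, empty_disjoint]
  · simp only [pts_empty h2, empty_disjoint]

lemma eps_le_one : eps lam ≤ 1 :=
  (eps_le_p (d := 0) (W := univ) (v := root 0) (a := 0) trivial trivial le_rfl).trans p_le_one

end Pool.Agent.Lib.MP_69dcc1_pr
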