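import Pool.Agent.Lib.MP_69dcc1_pr.Tree

/-! Active paths confined to a region and with a bounded number of jumps. -/

namespace Pool.Agent.Lib.MP_69dcc1_pr

open Set Function

variable {d : ℕ}

/-- active paths inside `W` with at most `K` jumps -/
inductive PN (W : Set (Vx d)) (cure : Vx d → Set ℝ) (arrow : Vx d → Fin (d + 1) → Set ℝ)
    (y : Vx d) (s : ℝ) : ℕ → Vx d → ℝ → Prop
  | stay (K : ℕ) (t : ℝ) : y ∈ W → s ≤ t → Disjoint (cure y) (Ioc s t) → PN W cure arrow y s K y t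
  | jump (K : ℕ) (x : Vx d) (a : Fin (d + 1)) (r t : ℝ) : PN W cure arrow y s K x r →
      r ∈ arrow x a → s < r → r ≤ t → nbr a x ∈ W → Disjoint (cure (nbr a x)) (Ioc r t) →
      PN W cure arrow y s (K + 1) (nbr a x) t

variable {W W' : Set (Vx d)} {cure cure' : Vx d → Set ℝ}
  {arrow arrow' : Vx d → Fin (d + 1) → Set ℝ} {y x : Vx d} {s t : ℝ} {K : ℕ}

lemma PN.le (h : PN W cure arrow y s K x t) : s ≤ t := by
  induction h with
  | stay _ _ _ h _ => exact h
  | jump _ _ _ _ _ _ _ h1 h2 => linarith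

lemma PN.mem (h : PN W cure arrow y s K x t) : x ∈ W := by
  cases h with
  | stay _ _ h => exact h
  | jump _ _ _ _ _ _ _ _ _ h => exact h

lemma PN.start_mem (h : PN W cure arrow y s K x t) : y ∈ W := by
  induction h with
  | stay _ _ h => exact h
  | jump _ _ _ _ _ _ _ _ _ _ _ ih => exact ih

lemma PN.monoK (h : PN W cure arrow y s K x t) {K' : ℕ} (hK : K ≤ K') :
    PN W cure arrow y s K' x t := by
  induction h generalizing K' with
  | stay _ t h1 h2 h3 => exact .stay _ t h1 h2 h3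
  | jump K x a r t _ h2 h3 h4 h5 h6 ih =>
    obtain ⟨K', rfl⟩ : ∃ k, K' = k + 1 := ⟨K' - 1, by omega⟩
    exact .jump _ x a r t (ih (by omega)) h2 h3 h4 h5 h6

lemma PN.len (h : PN W cure arrow y s K x t) : len y ≤ len x + K ∧ len x ≤ len y + K := by
  induction h with
  | stay => omega
  | jump K x a r t _ _ _ _ _ _ ih => have := len_nbr a x; omega

lemma disjoint_Ioc_shift {C C' : Set ℝ} {r t c : ℝ} (h : Disjoint C (Ioc r t))
    (hC : ∀ u ∈ Ioc r t, u + c ∈ C' → u ∈ C) : Disjoint C' (Ioc (r + c) (t + c)) := by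
  rw [disjoint_left] at h ⊢
  intro u hu hu'
  have h1 : u - c ∈ Ioc r t := ⟨by linarith [hu'.1], by linarith [hu'.2]⟩
  exact h (hC _ h1 (by simpa using hu)) h1

/-- transport of paths along automorphisms, time shifts and changes of marks -/
lemma PN.map (φ : Vx d → Vx d) (π : Fin (d + 1) → Fin (d + 1)) (c T : ℝ)
    (hφ : ∀ a v, φ (nbr a v) = nbr (π a) (φ v)) (hW : ∀ v ∈ W, φ v ∈ W')
    (hc : ∀ v ∈ W, ∀ u ∈ Ioc s T, u + c ∈ cure' (φ v) → u ∈ cure v)
    (ha : ∀ v ∈ W, ∀ a, nbr a v ∈ W → ∀ u ∈ Ioc s T, u ∈ arrow v a → u + c ∈ arrow' (φ v) (π a))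
    (h : PN W cure arrow y s K x t) (ht : t ≤ T) :
    PN W' cure' arrow' (φ y) (s + c) K (φ x) (t + c) := by
  induction h with
  | stay K t h1 h2 h3 =>
    exact .stay _ _ (hW _ h1) (by linarith) (disjoint_Ioc_shift h3 fun u hu =>
      hc _ h1 u ⟨hu.1, hu.2.trans ht⟩)
  | jump K x a r t h1 h2 h3 h4 h5 h6 ih =>
    rw [hφ]
    refine .jump _ _ _ (r + c) _ (ih (h4.trans ht)) (ha _ h1.mem a h5 r ⟨h3, h4.trans ht⟩ h2)
      (by linarith) (by linarith) (hφ a x ▸ hW _ h5) ?_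
    rw [← hφ]
    exact disjoint_Ioc_shift h6 fun u hu => hc _ h5 u ⟨h3.trans hu.1, hu.2.trans ht⟩

lemma PN.monoW (h : PN W cure arrow y s K x t) (hW : W ⊆ W') : PN W' cure arrow y s K x t := by
  induction h with
  | stay _ t h1 h2 h3 => exact .stay _ t (hW h1) h2 h3
  | jump K x a r t _ h2 h3 h4 h5 h6 ih => exact .jump _ x a r t ih h2 h3 h4 (hW h5) h6

lemma PN.range (h : PN W cure arrow y s K x t) :
    PN (W ∩ {v | MP_69dcc1_pr.len y ≤ MP_69dcc1_pr.len v + K ∧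
      MP_69dcc1_pr.len v ≤ MP_69dcc1_pr.len y + K}) cure arrow y s K x t := by
  induction h with
  | stay _ t h1 h2 h3 => exact .stay _ t ⟨h1, by omega, by omega⟩ h2 h3
  | jump K x a r t h1 h2 h3 h4 h5 h6 ih =>
    have := (PN.jump K x a r t h1 h2 h3 h4 h5 h6).len
    exact .jump _ x a r t (ih.monoW fun v hv => ⟨hv.1, by have := hv.2.1; omega,
      by have := hv.2.2; omega⟩) h2 h3 h4 ⟨h5, this⟩ h6

lemma PN.closed (h : PN W cure arrow y s K x t) (hy : y ∈ W')
    (hcl : ∀ v ∈ W', ∀ a, nbr a v ∈ W → nbr a v ∈ W') : PN (W ∩ W') cure arrow y s K x t := by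
  induction h with
  | stay _ t h1 h2 h3 => exact .stay _ t ⟨h1, hy⟩ h2 h3
  | jump K x a r t h1 h2 h3 h4 h5 h6 ih =>
    exact .jump _ x a r t ih h2 h3 h4 ⟨h5, hcl _ ih.mem.2 a h5⟩ h6

lemma disjoint_Ioc_union {C : Set ℝ} {r t t' : ℝ} (h : Disjoint C (Ioc r t))
    (h' : Disjoint C (Ioc t t')) : Disjoint C (Ioc r t') := by
  rw [disjoint_left] at h h' ⊢
  intro u hu hu'
  rcases le_or_gt u t with e | e
  · exact h hu ⟨hu'.1, e⟩
  · exact h' hu ⟨e, hu'.2⟩

lemma PN.extend (h : PN W cure arrow y s K x t) {t' : ℝ} (ht : t ≤ t')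
    (hd : Disjoint (cure x) (Ioc t t')) : PN W cure arrow y s K x t' := by
  cases h with
  | stay _ _ h1 h2 h3 => exact .stay _ _ h1 (h2.trans ht) (disjoint_Ioc_union h3 hd)
  | jump K x a r _ h1 h2 h3 h4 h5 h6 =>
    exact .jump _ x a r _ h1 h2 h3 (h4.trans ht) h5 (disjoint_Ioc_union h6 hd)

lemma PN.trans {z : Vx d} {m : ℝ} {K' : ℕ} (h : PN W cure arrow y s K z m)
    (h' : PN W cure arrow z m K' x t) : PN W cure arrow y s (K + K') x t := by
  induction h' with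
  | stay K' t h1 h2 h3 => exact (h.extend h2 h3).monoK (by omega)
  | jump K' x a r t h1 h2 h3 h4 h5 h6 ih =>
    exact .jump _ x a r t ih h2 (h.le.trans_lt h3) h4 h5 h6

lemma PN.split (h : PN W cure arrow y s K x t) {m : ℝ} (h1 : s ≤ m) (h2 : m ≤ t) :
    ∃ z, PN W cure arrow y s K z m ∧ PN W cure arrow z m K x t := by
  induction h with
  | stay K t h3 h4 h5 =>
    exact ⟨y, .stay _ _ h3 h1 (h5.mono_right (Ioc_subset_Ioc_right h2)),
      .stay _ _ h3 h2 (h5.mono_right (Ioc_subset_Ioc_left h1))⟩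
  | jump K x a r t h3 h4 h5 h6 h7 h8 ih =>
    rcases le_or_gt r m with e | e
    · exact ⟨nbr a x, .jump _ x a r m h3 h4 h5 e h7 (h8.mono_right (Ioc_subset_Ioc_right h2)),
        .stay _ _ h7 h2 (h8.mono_right (Ioc_subset_Ioc_left e))⟩
    · obtain ⟨z, h9, h10⟩ := ih e.le
      exact ⟨z, h9.monoK (by omega), .jump _ x a r t h10 h4 e h6 h7 h8⟩

lemma PN.reach (h : PN W cure arrow y s K x t) : Reach cure arrow y s x t := by
  induction h with
  | stay _ t _ h2 h3 => exact .stay t h2 h3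
  | jump K x a r t _ h2 h3 h4 _ h6 ih => exact .jump x a r t ih h2 h3 h4 h6

lemma Reach.pn (h : Reach cure arrow y s x t) : ∃ K, PN univ cure arrow y s K x t := by
  induction h with
  | stay t h2 h3 => exact ⟨0, .stay _ t trivial h2 h3⟩
  | jump x a r t _ h2 h3 h4 h6 ih =>
    obtain ⟨K, ih⟩ := ih
    exact ⟨K + 1, .jump _ x a r t ih h2 h3 h4 trivial h6⟩

lemma Reach.trans {z : Vx d} {m : ℝ} (h : Reach cure arrow y s z m)
    (h' : Reach cure arrow z m x t) : Reach cure arrow y s x t := by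
  obtain ⟨K, h⟩ := h.pn
  obtain ⟨K', h'⟩ := h'.pn
  exact (h.trans h').reach

lemma PN.prepend {a : Fin (d + 1)} {r : ℝ} (hy : y ∈ W) (hr : s < r)
    (hd : Disjoint (cure y) (Ioc s r)) (ha : r ∈ arrow y a)
    (h : PN W cure arrow (nbr a y) r K x t) : PN W cure arrow y s (K + 1) x t := by
  have h0 : PN W cure arrow y s (0 + 1) (nbr a y) r :=
    .jump 0 y a r r (.stay 0 r hy hr.le hd) ha hr le_rfl h.start_mem (by simp)
  exact (h0.trans h).monoK (by omega)

/-- time reversal of a path under generic marks -/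
lemma PN.reverse (c : ℝ) (hs : ∀ v, s ∉ cure v)
    (hca : ∀ v z a, Disjoint (cure v) (arrow z a))
    (haa : ∀ z a z' a', z ≠ z' → Disjoint (arrow z a) (arrow z' a'))
    (hc : ∀ v u, u ∈ cure' v → c - u ∈ cure v)
    (ha : ∀ v a u, c - u ∈ arrow (nbr a v) a → u ∈ arrow' v a)
    (h : PN W cure arrow y s K x t) (ht : ∀ a, t ∉ arrow (nbr a x) a) :
    PN W cure' arrow' x (c - t) K y (c - s) := by
  induction h with
  | stay K t h1 h2 h3 =>
    refine .stay _ _ h1 (by linarith) (disjoint_left.2 fun u hu hu' => ?_)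
    have e := hc _ _ hu
    rcases eq_or_lt_of_le hu'.2 with e' | e'
    · rw [e'] at e; exact hs y (by simpa using e)
    · exact disjoint_left.1 h3 e ⟨by linarith, by linarith [hu'.1]⟩
  | jump K x a r t h1 h2 h3 h4 h5 h6 ih =>
    have hrt : r < t := lt_of_le_of_ne h4 fun e => ht a (by rw [nbr_nbr, ← e]; exact h2)
    refine PN.prepend (a := a) (r := c - r) h5 (by linarith)
      (disjoint_left.2 fun u hu hu' => ?_) (ha _ _ _ (by simpa using h2)) ?_
    · have e := hc _ _ hu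
      rcases eq_or_lt_of_le hu'.2 with e' | e'
      · rw [e'] at e; exact disjoint_left.1 (hca _ x a) (by simpa using e) h2
      · exact disjoint_left.1 h6 e ⟨by linarith, by linarith [hu'.1]⟩
    · rw [nbr_nbr]
      exact ih fun b hb => disjoint_left.1 (haa _ b x a (nbr_ne b x)) hb h2

lemma PN_zero : PN W cure arrow y s 0 x t ↔ x = y ∧ y ∈ W ∧ s ≤ t ∧ Disjoint (cure y) (Ioc s t) :=
  ⟨fun h => by cases h with | stay _ _ h1 h2 h3 => exact ⟨rfl, h1, h2, h3⟩,
    fun ⟨h0, h1, h2, h3⟩ => by subst h0; exact .stay _ _ h1 h2 h3⟩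

lemma PN_succ : PN W cure arrow y s (K + 1) x t ↔
    PN W cure arrow y s 0 x t ∨ ∃ a r, PN W cure arrow y s K (nbr a x) r ∧
      r ∈ arrow (nbr a x) a ∧ s < r ∧ r ≤ t ∧ x ∈ W ∧ Disjoint (cure x) (Ioc r t) := by
  constructor
  · intro h
    cases h with
    | stay _ _ h1 h2 h3 => exact Or.inl (.stay _ _ h1 h2 h3)
    | jump _ z a r _ h1 h2 h3 h4 h5 h6 =>
      exact Or.inr ⟨a, r, by rwa [nbr_nbr], by rwa [nbr_nbr], h3, h4, h5, h6⟩
  · rintro (h | ⟨a, r, h1, h2, h3, h4, h5, h6⟩)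
    · exact h.monoK (by omega)
    · have := PN.jump K (nbr a x) a r t h1 h2 h3 h4 (by rwa [nbr_nbr]) (by rwa [nbr_nbr])
      rwa [nbr_nbr] at this

end Pool.Agent.Lib.MP_69dcc1_pr
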