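import Pool.Agent.Lib.MP_69dcc1_pr.Model

-- part Pool.Agent.Lib.MP_69dcc1_pr.Growth
section

/-! Exponential growth of the expected number of infected sites, in the tree and in branches. -/

namespace Pool.Agent.Lib.MP_69dcc1_pr

open Set Function MeasureTheory ProbabilityTheory
open scoped NNReal ENNReal

variable {d : ℕ} {lam : ℝ≥0} {W : Set (Vx d)} {K n : ℕ}

lemma p_eq_zero {v v' : Vx d} (hv : v ∈ W) (hv' : v' ∉ W) : p lam W K n v v' = 0 := by
  unfold p
  convert measure_empty (μ := Pr d lam)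
  exact eq_empty_of_forall_notMem fun ω h => hv' (Ch.mem h hv)

lemma p_zero (v : Vx d) : p lam W K 0 v v = 1 := by
  unfold p
  convert measure_univ (μ := Pr d lam)
  exact eq_univ_of_forall fun ω => rfl

lemma eps_pow_le (hK : 1 ≤ K) {z : Vx d} : ∀ w, Anc z w → (∀ u, Anc z u → Anc u w → u ∈ W) →
    ∀ j, len w = len z + j → eps lam ^ j ≤ p lam W K j z w := by
  intro w
  induction w using Vx.induction with
  | h0 =>
    intro h _ j hj
    obtain rfl : z = root d := h.eq_of_len (by simp)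
    obtain rfl : j = 0 := by simpa using hj.symm
    simp [p_zero]
  | h1 a w ha ih =>
    intro h hW j hj
    have hc := nbr_child ha
    rcases (anc_cons hc).1 h with rfl | h'
    · obtain rfl : j = 0 := by omega
      simp [p_zero]
    · have e1 := len_cons hc
      have e2 := h'.len_le
      obtain ⟨j, rfl⟩ : ∃ i, j = i + 1 := ⟨j - 1, by omega⟩
      have hw : Anc w (nbr a w) := (anc_cons hc).2 (Or.inr (Anc.refl w))
      rw [pow_succ]
      refine le_trans (mul_le_mul' (ih h' (fun u h1 h2 => hW u h1 (h2.trans hw)) j (by omega))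
        (eps_le_p (hW w h' hw) (hW _ h (Anc.refl _)) hK)) p_mul_le

section
variable [Fact (2 ≤ d)]

lemma frontier_sum (o : Vx d) (C : Vx d × Bool → Vx d → Set (Om d))
    (hC : ∀ q v, Dep {p | (n : ℤ) ≤ p.2} (C q v)) (β : ℝ≥0∞)
    (hβ : ∀ q, β ≤ ∑' v, (Br (ch q.1 q.2)).indicator (fun v => Pr d lam (C q v)) v)
    (G : Vx d → Set (Om d))
    (hG : ∀ q v ω, Anc (ch q.1 q.2) v → Ch W K ω 0 o n q.1 → ω ∈ C q v → ω ∈ G v) :
    β * ∑' x, p lam W K n o x ≤ ∑' v, Pr d lam (G v) := by
  classical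
  set F : Vx d × Bool → Set (Om d) := fun q => {ω | q ∈ Fr {v | Ch W K ω 0 o n v}} with hF
  have dF : ∀ q, Dep (Reg W 0 n) (F q) := fun q => by
    have : F q = {ω | Ch W K ω 0 o n q.1} ∩
        ⋂ v, ({ω | Ch W K ω 0 o n v} ∩ {_ω | Anc (ch q.1 q.2) v})ᶜ := by
      ext ω; simp [hF, Fr]
    rw [this]
    exact (dep_Ch _ _ _ _ _ _).inter
      (Dep.iInter fun v => ((dep_Ch _ _ _ _ _ _).inter (Dep.const _ _)).compl)
  have h1 : ∑' x, p lam W K n o x ≤ ∑' q, Pr d lam (F q) := by
    unfold p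
    rw [tsum_meas_eq _ _ fun v => (dep_Ch W K 0 o n v).meas, tsum_meas_eq _ _ fun q => (dF q).meas]
    refine lintegral_mono fun ω => ?_
    exact ENat.toENNReal_le.2 (encard_le_Fr ((Bl_finite (len o + n * K)).subset
      fun v hv => (Ch.len hv).2))
  have h2 : ∀ v, ∑' q, Pr d lam (F q) * (Br (ch q.1 q.2)).indicator (fun v => Pr d lam (C q v)) v
      ≤ Pr d lam (G v) := by
    intro v
    have e : ∀ q, Pr d lam (F q) * (Br (ch q.1 q.2)).indicator (fun v => Pr d lam (C q v)) v
        = Pr d lam (F q ∩ C q v ∩ {_ω | Anc (ch q.1 q.2) v}) := by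
      intro q
      by_cases h : Anc (ch q.1 q.2) v
      · rw [indicator_of_mem (show v ∈ Br _ from h), Pr, ← Dep.meas_inter _ (dF q) (hC q v)
          (disjoint_left.2 fun p hp hp' => by
            have h1 := hp.2.2; have h2 : (n : ℤ) ≤ p.2 := hp'; omega)]
        simp [h]
      · rw [indicator_of_notMem (show v ∉ Br _ from h)]
        simp [h]
    simp_rw [e]
    rw [← measure_iUnion]
    · refine measure_mono fun ω hω => ?_
      obtain ⟨q, ⟨h1, h2⟩, h3⟩ := mem_iUnion.1 hω
      exact hG q v ω h3 h1.1 h2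
    · intro q q' hq
      exact disjoint_left.2 fun ω h h' => hq (Fr_unique h.1.1 h'.1.1 h.2 h'.2)
    · exact fun q => ((dF q).meas.inter (hC q v).meas).inter (MeasurableSet.const _)
  calc β * ∑' x, p lam W K n o x ≤ β * ∑' q, Pr d lam (F q) := by gcongr
    _ = ∑' q, Pr d lam (F q) * β := by rw [ENNReal.tsum_mul_right, mul_comm]
    _ ≤ ∑' q, Pr d lam (F q) *
        ∑' v, (Br (ch q.1 q.2)).indicator (fun v => Pr d lam (C q v)) v := by
      gcongr with q; exact hβ q
    _ = ∑' v, ∑' q, Pr d lam (F q) *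
        (Br (ch q.1 q.2)).indicator (fun v => Pr d lam (C q v)) v := by
      rw [ENNReal.tsum_comm]
      simp_rw [ENNReal.tsum_mul_left]
    _ ≤ _ := ENNReal.tsum_le_tsum h2

end

/-- expected number of infected sites -/
noncomputable def ex (d : ℕ) (lam : ℝ≥0) (K n : ℕ) : ℝ≥0∞ := ∑' v, p lam univ K n (root d) v

lemma ex_eq (o : Vx d) : ∑' v, p lam univ K n o v = ex d lam K n := by
  obtain ⟨f, hf⟩ := exists_aut_root o
  refine le_antisymm ?_ ?_
  · refine le_trans (ENNReal.tsum_le_tsum fun v => p_le_aut (W' := univ) f.inv fun _ _ => trivial) ?_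
    have : f.inv.φ o = root d := by rw [← hf]; exact f.φ.symm_apply_apply _
    rw [this]
    exact ENNReal.tsum_comp_le_tsum_of_injective f.inv.φ.injective _
  · refine le_trans (ENNReal.tsum_le_tsum fun v => p_le_aut (W' := univ) f fun _ _ => trivial) ?_
    rw [hf]
    exact ENNReal.tsum_comp_le_tsum_of_injective f.φ.injective _

lemma br_le (m : ℕ) (a0 : Fin (d + 1)) (x : Vx d) (a : Fin (d + 1)) (h : x.1.head? ≠ some a) :
    ∑' v, (Br (nbr a0 (root d))).indicator (p lam univ K m (root d)) v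
      ≤ ∑' v, (Br (nbr a x)).indicator (p lam univ K m x) v := by
  obtain ⟨f, h0, -, h2, -⟩ := exists_aut a0 x a h
  refine le_trans (ENNReal.tsum_le_tsum fun v => ?_)
    (ENNReal.tsum_comp_le_tsum_of_injective f.φ.injective _)
  by_cases hv : v ∈ Br (nbr a0 (root d))
  · rw [indicator_of_mem hv, indicator_of_mem (show f.φ v ∈ Br _ from (h2 v).1 hv), ← h0]
    exact p_le_aut f fun _ _ => trivial
  · rw [indicator_of_notMem hv]; exact zero_le

lemma ex_le_br (m : ℕ) : ex d lam K m ≤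
    1 + (d + 1) * ∑' v, (Br (nbr 0 (root d))).indicator (p lam univ K m (root d)) v := by
  classical
  have h1 : ∀ v, p lam univ K m (root d) v ≤ (if v = root d then 1 else 0) +
      ∑ a, (Br (nbr a (root d))).indicator (p lam univ K m (root d)) v := by
    intro v
    by_cases hv : v = root d
    · rw [if_pos hv]; exact p_le_one.trans le_self_add
    · obtain ⟨a, ha⟩ := exists_br_root hv
      refine le_trans ?_ le_add_self
      refine le_trans (le_of_eq ?_) (Finset.single_le_sum (f := fun a =>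
        (Br (nbr a (root d))).indicator (p lam univ K m (root d)) v) (fun _ _ => zero_le)
        (Finset.mem_univ a))
      exact (indicator_of_mem (show v ∈ Br _ from ha) _).symm
  refine (ENNReal.tsum_le_tsum h1).trans ?_
  rw [ENNReal.tsum_add, tsum_ite_eq, Summable.tsum_finsetSum fun _ _ => ENNReal.summable]
  gcongr
  refine (Finset.sum_le_card_nsmul _ _ _ fun a _ => br_le m a (root d) 0 (by simp [root])).trans ?_
  simp

lemma ex_growth [Fact (2 ≤ d)] {m : ℕ} (h : 1 + (d + 1) * 2 ≤ ex d lam K m) (j : ℕ) :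
    2 ^ j ≤ ex d lam K (j * m) := by
  have hb : 2 ≤ ∑' v, (Br (nbr 0 (root d))).indicator (p lam univ K m (root d)) v := by
    have := (ENNReal.add_le_add_iff_left ENNReal.one_ne_top).1 (h.trans (ex_le_br m))
    exact (ENNReal.mul_le_mul_iff_right (by simp) (by simp)).1 this
  induction j with
  | zero =>
    rw [pow_zero, zero_mul, ← p_zero (lam := lam) (W := univ) (K := K) (root d)]
    exact ENNReal.le_tsum _
  | succ j ih =>
    have := frontier_sum (lam := lam) (W := univ) (K := K) (n := j * m) (root d)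
      (fun q v => {ω | Ch univ K ω (0 + (j * m : ℕ)) q.1 m v})
      (fun q v => (dep_Ch _ _ _ _ _ _).mono fun p hp => by simpa using hp.2.1) 2
      (fun q => by
        simp_rw [Pr_Ch]
        exact hb.trans (br_le m 0 q.1 _ (lt_ne q.1 q.2)))
      (fun v => {ω | Ch univ K ω 0 (root d) (j * m + m) v})
      (fun q v ω _ h1 h2 => Ch_add.2 ⟨q.1, h1, h2⟩)
    rw [pow_succ', add_mul, one_mul]
    exact le_trans (by gcongr; exact ih) this

/-! ### growth inside a branch -/

/-- expected number of infected sites for the process confined to a branch -/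
noncomputable def ub (lam : ℝ≥0) (K s : ℕ) (z : Vx d) : ℝ≥0∞ := ∑' v, p lam (Br z) K s z v

lemma ub_eq {z : Vx d} (hz : 0 < len z) (s : ℕ) : ub lam K s z = ub lam K s (nbr 0 (root d)) := by
  obtain ⟨a, x, rfl, hx⟩ := exists_parent hz
  obtain ⟨f, -, h1, h2, -⟩ := exists_aut 0 x a (head_ne_of_cons hx)
  refine le_antisymm ?_ ?_
  · refine le_trans (ENNReal.tsum_le_tsum fun v => p_le_aut (W' := Br (nbr 0 (root d))) f.inv
      fun v hv => (h2 _).2 (by simpa [Aut.inv, Br] using hv)) ?_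
    have : f.inv.φ (nbr a x) = nbr 0 (root d) := by rw [← h1]; exact f.φ.symm_apply_apply _
    rw [this]
    exact ENNReal.tsum_comp_le_tsum_of_injective f.inv.φ.injective _
  · refine le_trans (ENNReal.tsum_le_tsum fun v => p_le_aut (W' := Br (nbr a x)) f
      fun v hv => (h2 _).1 hv) ?_
    rw [h1]
    exact ENNReal.tsum_comp_le_tsum_of_injective f.φ.injective _

lemma Ch.decomp {ω : Om d} {o : Vx d} (t : ℕ) : ∀ v, Ch univ K ω 0 o t v → ∃ s ≤ t, ∃ w,
    MP_69dcc1_pr.len w ≤ MP_69dcc1_pr.len o ∧ MP_69dcc1_pr.len o ≤ MP_69dcc1_pr.len w + t * K ∧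
    MP_69dcc1_pr.len w ≤ MP_69dcc1_pr.len v ∧
    Ch {u | MP_69dcc1_pr.len w ≤ MP_69dcc1_pr.len u + K} K ω 0 o s w ∧
    Ch {u | MP_69dcc1_pr.len w ≤ MP_69dcc1_pr.len u + K} K ω (0 + s) w (t - s) v := by
  induction t with
  | zero =>
    intro v h
    obtain rfl : v = o := h
    exact ⟨0, le_rfl, v, le_rfl, by omega, le_rfl, rfl, rfl⟩
  | succ t ih =>
    rintro v' ⟨v, h1, h2⟩
    obtain ⟨s, hs, w, e1, e2, e3, e4, e5⟩ := ih v h1
    have h3 := PN.range h2
    have h4 := PN.len h2
    rcases le_or_gt (MP_69dcc1_pr.len w) (MP_69dcc1_pr.len v') with h | h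
    · refine ⟨s, by omega, w, e1, by rw [add_mul]; omega, h, e4, ?_⟩
      rw [show t + 1 - s = t - s + 1 by omega]
      refine ⟨v, e5, ?_⟩
      rw [show (0 + (s : ℤ) + ((t - s : ℕ) : ℤ)) = 0 + t by push_cast [hs]; ring]
      exact h3.monoW fun u hu => by have := hu.2.1; simp only [mem_ofPred_eq]; omega
    · refine ⟨t + 1, le_rfl, v', by omega, by rw [add_mul]; omega, le_rfl, ⟨v, ?_,
        h3.monoW fun u hu => by have := hu.2.1; simp only [mem_ofPred_eq]; omega⟩, by simp [Ch]⟩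
      have := Ch_add.2 ⟨w, e4, e5⟩
      rw [show s + (t - s) = t by omega] at this
      exact this.mono (fun u hu => by simp only [mem_ofPred_eq] at hu ⊢; omega) le_rfl

lemma ex_le_of_ub [Fact (2 ≤ d)] {M : ℝ≥0∞}
    (hM : ∀ z w : Vx d, 0 < len z → Anc z w → len w = len z + K →
      ∀ r, ∑' v, p lam (Br z) K r w v ≤ M) (t : ℕ) : ex d lam K t ≤ 2 * (t + 1) * M ^ 2 := by
  classical
  set n := t * K + K + 1 with hn
  have hanc : ∀ w : Vx d, ∃ z, Anc z w ∧ len z = len w - K := fun w => exists_anc w (by omega)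
  choose an han1 han2 using hanc
  set L := (Lv_finite (d := d) n).toFinset with hL
  set B := (Bl_finite (d := d) n).toFinset.filter fun w => K < len w with hB
  have h1 : ∀ o ∈ L, ∀ v, p lam univ K t o v ≤ ∑ s ∈ Finset.range (t + 1), ∑ w ∈ B,
      p lam (Br (an w)) K s o w * p lam (Br (an w)) K (t - s) w v := by
    intro o ho v
    have ho : len o = n := by simpa [hL, Lv] using ho
    have : {ω | Ch univ K ω 0 o t v} ⊆ ⋃ s ∈ Finset.range (t + 1), ⋃ w ∈ B,
        {ω | Ch (Br (an w)) K ω 0 o s w} ∩ {ω | Ch (Br (an w)) K ω (0 + s) w (t - s) v} := by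
      intro ω h
      obtain ⟨s, hs, w, e1, e2, e3, e4, e5⟩ := Ch.decomp t v h
      have e6 := han2 w
      have hcl : ∀ z : Vx d, len z = len w - K → ∀ v ∈ Br z, ∀ a,
          nbr a v ∈ {u | len w ≤ len u + K} → nbr a v ∈ Br z := fun z hz v hv a ha =>
        Anc.nbr hv a (by have : len w ≤ len (nbr a v) + K := ha; omega)
      obtain ⟨z', hz1, hz2⟩ := exists_anc o (h := len w - K) (by omega)
      have e7 := e4.closed (W' := Br z') hz1 (hcl z' hz2)
      obtain rfl : z' = an w := (Anc.of_len_le e7.2 (han1 w) (by omega)).eq_of_len (by omega)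
      simp only [mem_iUnion]
      refine ⟨s, Finset.mem_range.2 (by omega), w, ?_, e7.1.mono inter_subset_right le_rfl,
        (e5.closed (W' := Br (an w)) (han1 w) (hcl _ e6)).1.mono inter_subset_right le_rfl⟩
      simp only [hB, Finset.mem_filter, Finite.mem_toFinset, Bl, mem_ofPred_eq]
      omega
    refine (measure_mono this).trans ((measure_biUnion_finset_le _ _).trans
      (Finset.sum_le_sum fun s _ => (measure_biUnion_finset_le _ _).trans
        (Finset.sum_le_sum fun w _ => le_of_eq ?_)))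
    rw [Pr, Dep.meas_inter _ (dep_Ch _ _ _ _ _ _) (dep_Ch _ _ _ _ _ _) (Reg_disjoint_time le_rfl)]
    exact congrArg₂ _ rfl (Pr_Ch _)
  have hM' : ∀ w ∈ B, ∀ r, ∑' v, p lam (Br (an w)) K r w v ≤ M := by
    intro w hw
    have : K < len w := (Finset.mem_filter.1 hw).2
    have := han2 w
    exact hM _ w (by omega) (han1 w) (by omega)
  have h2 : (L.card : ℝ≥0∞) * ex d lam K t ≤ (t + 1) * (B.card * M ^ 2) := by
    calc (L.card : ℝ≥0∞) * ex d lam K t = ∑ o ∈ L, ∑' v, p lam univ K t o v := by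
          simp_rw [ex_eq]; simp
      _ ≤ ∑ o ∈ L, ∑ s ∈ Finset.range (t + 1), ∑ w ∈ B, p lam (Br (an w)) K s o w * M := by
          refine Finset.sum_le_sum fun o ho => (ENNReal.tsum_le_tsum (h1 o ho)).trans ?_
          rw [Summable.tsum_finsetSum fun _ _ => ENNReal.summable]
          refine Finset.sum_le_sum fun s _ => ?_
          rw [Summable.tsum_finsetSum fun _ _ => ENNReal.summable]
          refine Finset.sum_le_sum fun w hw => ?_
          rw [ENNReal.tsum_mul_left]
          gcongr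
          exact hM' w hw _
      _ = ∑ s ∈ Finset.range (t + 1), ∑ w ∈ B, (∑ o ∈ L, p lam (Br (an w)) K s o w) * M := by
          rw [Finset.sum_comm]
          refine Finset.sum_congr rfl fun s _ => ?_
          rw [Finset.sum_comm]
          simp_rw [Finset.sum_mul]
      _ ≤ ∑ s ∈ Finset.range (t + 1), ∑ w ∈ B, M ^ 2 := by
          refine Finset.sum_le_sum fun s _ => Finset.sum_le_sum fun w hw => ?_
          rw [sq]
          gcongr
          simp_rw [p_symm (v' := w)]
          exact (ENNReal.sum_le_tsum _).trans (hM' w hw s)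
      _ = _ := by simp
  have h3 : B.card ≤ 2 * L.card := by
    refine (Finset.card_filter_le _ _).trans ?_
    rw [hL, ← ncard_eq_toFinset_card _ (Bl_finite n), ← ncard_eq_toFinset_card _ (Lv_finite n)]
    exact Bl_le n
  have h4 : L.card ≠ 0 := by
    rw [hL, ← ncard_eq_toFinset_card _ (Lv_finite n)]
    exact (Lv_pos n).ne'
  have h3' : (B.card : ℝ≥0∞) ≤ 2 * L.card := by exact_mod_cast h3
  refine (ENNReal.mul_le_mul_iff_right (a := L.card) (by exact_mod_cast h4) (by simp)).1
    (h2.trans ?_)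
  calc ((t : ℝ≥0∞) + 1) * (B.card * M ^ 2) ≤ (t + 1) * (2 * L.card * M ^ 2) := by gcongr
    _ = _ := by ring

lemma exists_pow_gt (m : ℕ) {C : ℝ≥0∞} (hC : C ≠ ∞) : ∃ j : ℕ, C * ((j * m : ℕ) + 1) < 2 ^ j := by
  obtain ⟨N, hN⟩ := ENNReal.exists_nat_gt hC
  have h1 := Asymptotics.isLittleO_iff.1 (isLittleO_pow_const_const_pow_of_one_lt (R := ℝ) 1
    (by norm_num : (1 : ℝ) < 2)) (c := 1 / (N * (m + 1) + 1)) (by positivity)
  obtain ⟨j, h2, hj⟩ := (h1.and (Filter.eventually_ge_atTop 1)).exists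
  refine ⟨j, ?_⟩
  rw [pow_one, Real.norm_natCast, Real.norm_eq_abs, abs_of_pos (by positivity), one_div,
    inv_mul_eq_div, le_div_iff₀ (by positivity)] at h2
  have h3 : j * (N * (m + 1) + 1) ≤ 2 ^ j := by exact_mod_cast h2
  have h4 : N * (j * m + 1) < 2 ^ j := by nlinarith
  calc C * ((j * m : ℕ) + 1) ≤ N * ((j * m : ℕ) + 1) := by gcongr
    _ < 2 ^ j := by exact_mod_cast h4

lemma ub_unbounded [Fact (2 ≤ d)] (hlam : 0 < lam) (hK : 1 ≤ K) {m : ℕ}
    (h : 1 + (d + 1) * 2 ≤ ex d lam K m) {M : ℝ≥0∞} (hM : M ≠ ∞) :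
    ∃ s, M < ub lam K s (nbr 0 (root d)) := by
  by_contra hh
  push Not at hh
  have he : eps lam ^ K ≠ 0 := pow_ne_zero _ (eps_ne_zero hlam)
  have he' : eps lam ^ K ≠ ∞ := ENNReal.pow_ne_top (ne_top_of_le_ne_top ENNReal.one_ne_top eps_le_one)
  have key := ex_le_of_ub (d := d) (lam := lam) (K := K) (M := M / eps lam ^ K) (fun z w hz hw hl r => by
    rw [ENNReal.le_div_iff_mul_le (Or.inl he) (Or.inl he'), mul_comm, ← ENNReal.tsum_mul_left]
    refine le_trans (ENNReal.tsum_le_tsum fun v => ?_) ((ub_eq hz (K + r)).trans_le (hh _))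
    exact le_trans (mul_le_mul' (eps_pow_le hK w hw (fun u h _ => h) K hl) le_rfl) p_mul_le)
  obtain ⟨j, hj⟩ := exists_pow_gt m (C := 2 * (M / eps lam ^ K) ^ 2)
    (ENNReal.mul_ne_top (by simp) (ENNReal.pow_ne_top (ENNReal.div_ne_top hM he)))
  have := (ex_growth h j).trans (key (j * m))
  exact absurd (hj.trans_le this) (by rw [mul_right_comm]; exact lt_irrefl _)

end Pool.Agent.Lib.MP_69dcc1_pr
end

-- part Pool.Agent.Lib.MP_69dcc1_pr.Branching
section

/-! A supercritical branching process of infection paths with linear drift in a thinned tree. -/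

namespace Pool.Agent.Lib.MP_69dcc1_pr

open Set Function MeasureTheory ProbabilityTheory
open scoped NNReal ENNReal

variable {d : ℕ} {lam : ℝ≥0} {K : ℕ} [Fact (2 ≤ d)]

lemma gen_growth (hK : 1 ≤ K) {s : ℕ} (hs : 2 ≤ eps lam * ub lam K s (nbr 0 (root d))) (i : ℕ) :
    ∀ z : Vx d, 0 < len z →
      2 ^ i ≤ ∑' v, p lam (Br z ∩ {u | len u ≤ len v + s * K}) K (i * (s + 1)) z v := by
  induction i with
  | zero =>
    intro z _
    refine le_trans ?_ (ENNReal.le_tsum z)
    simp [p_zero]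
  | succ i ih =>
    intro z hz
    have h1 := frontier_sum (lam := lam) (W := Br z ∩ {u | len u ≤ len z + s * K}) (K := K) (n := s) z
      (fun q v => {ω | Ch {q.1, ch q.1 q.2} K ω (0 + s) q.1 1 (ch q.1 q.2)} ∩
        {ω | Ch (Br (ch q.1 q.2) ∩ {u | len u ≤ len v + s * K}) K ω (0 + s + (1 : ℕ)) (ch q.1 q.2)
          (i * (s + 1)) v})
      (fun q v => Dep.inter ((dep_Ch _ _ _ _ _ _).mono fun p hp => by simpa using hp.2.1)
        ((dep_Ch _ _ _ _ _ _).mono fun p hp => by
          have := hp.2.1; simp only [mem_ofPred_eq]; omega)) (eps lam * 2 ^ i)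
      (fun q => by
        refine le_trans (mul_le_mul' le_rfl (ih (ch q.1 q.2) (by simp))) ?_
        rw [← ENNReal.tsum_mul_left]
        refine ENNReal.tsum_le_tsum fun v => ?_
        by_cases hv : v ∈ Br (ch q.1 q.2)
        · rw [indicator_of_mem hv, Pr, Dep.meas_inter _ (dep_Ch _ _ _ _ _ _) (dep_Ch _ _ _ _ _ _)
            (Reg_disjoint_time le_rfl)]
          refine mul_le_mul' (le_trans ?_ (Pr_Ch _).ge) (Pr_Ch _).ge
          exact eps_le_p (by simp) (by simp [ch]) hK
        · have : p lam (Br (ch q.1 q.2) ∩ {u | len u ≤ len v + s * K}) K (i * (s + 1))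
              (ch q.1 q.2) v = 0 :=
            le_antisymm ((p_mono inter_subset_left le_rfl).trans_eq (p_eq_zero (Anc.refl _) hv))
              zero_le
          rw [this, mul_zero]; exact zero_le)
      (fun v => {ω | Ch (Br z ∩ {u | len u ≤ len v + s * K}) K ω 0 z (s + (1 + i * (s + 1))) v})
      (fun q v ω h1 h2 h3 => by
        have e1 : Anc z q.1 := (h2.mem ⟨Anc.refl z, by simp⟩).1
        have e2 := e1.len_le
        have e3 := h1.len_le
        rw [len_ch] at e3
        refine Ch_add.2 ⟨q.1, h2.mono (fun u hu => ⟨hu.1, ?_⟩) le_rfl, Ch_add.2 ⟨ch q.1 q.2,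
          h3.1.mono ?_ le_rfl, h3.2.mono (fun u hu => ⟨(e1.trans (anc_ch_self _ _)).trans hu.1,
            hu.2⟩) le_rfl⟩⟩
        · have := hu.2; simp only [mem_ofPred_eq] at this ⊢; omega
        · rintro u (rfl | rfl)
          · exact ⟨e1, by simp only [mem_ofPred_eq]; omega⟩
          · exact ⟨e1.trans (anc_ch_self _ _), by simp only [mem_ofPred_eq, len_ch]; omega⟩)
    rw [show (i + 1) * (s + 1) = s + (1 + i * (s + 1)) by ring]
    refine le_trans ?_ h1
    have h2 : ub lam K s z ≤ ∑' x, p lam (Br z ∩ {u | len u ≤ len z + s * K}) K s z x :=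
      ENNReal.tsum_le_tsum fun v => measure_mono fun ω h => Ch.depth h
    rw [ub_eq hz] at h2
    calc (2 : ℝ≥0∞) ^ (i + 1) = 2 ^ i * 2 := pow_succ _ _
      _ ≤ 2 ^ i * (eps lam * ub lam K s (nbr 0 (root d))) := by gcongr
      _ = eps lam * 2 ^ i * ub lam K s (nbr 0 (root d)) := by ring
      _ ≤ _ := by gcongr

omit [Fact (2 ≤ d)] in
lemma level_pigeon (f : Vx d → ℝ≥0∞) (N : ℕ) (hf : ∀ v, N < len v → f v = 0) :
    ∃ l ≤ N, ∑' v, f v ≤ (N + 1) * ∑' v, (Lv d l).indicator f v := by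
  obtain ⟨l, hl, hmax⟩ := Finset.exists_max_image (Finset.range (N + 1))
    (fun l => ∑' v, (Lv d l).indicator f v) ⟨0, by simp⟩
  refine ⟨l, Nat.lt_succ_iff.1 (Finset.mem_range.1 hl), ?_⟩
  have h1 : ∀ v, f v ≤ ∑ l ∈ Finset.range (N + 1), (Lv d l).indicator f v := by
    intro v
    rcases le_or_gt (len v) N with h | h
    · refine le_trans (le_of_eq ?_) (Finset.single_le_sum (f := fun l => (Lv d l).indicator f v)
        (fun _ _ => zero_le) (Finset.mem_range.2 (Nat.lt_succ_of_le h)))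
      exact (indicator_of_mem (show v ∈ Lv d (len v) from rfl) _).symm
    · rw [hf v h]; exact zero_le
  refine (ENNReal.tsum_le_tsum h1).trans ?_
  rw [Summable.tsum_finsetSum fun _ _ => ENNReal.summable]
  refine (Finset.sum_le_card_nsmul _ _ _ hmax).trans ?_
  simp

/-- the set of vertices at which the domination takes place -/
def Dl (d : ℕ) [Fact (2 ≤ d)] (L : ℕ) : Set (Vx d) := {x | ∃ w, x = ch w false ∧ L ∣ len w + 2}

/-- descendants of `z` in the thinned tree -/
def Free (L : ℕ) (z : Vx d) : Set (Vx d) := {v | Anc z v ∧ ∀ x ∈ Dl d L, Anc x v → Anc x z}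

/-- region of one generation -/
def Rg (L : ℕ) (z : Vx d) : Set (Vx d) := Free L z ∩ {v | len v ≤ len z + L}

/-- possible offspring -/
def Off (L : ℕ) (z : Vx d) : Set (Vx d) := Free L z ∩ Lv d (len z + L)

lemma Free.trans {L : ℕ} {z z' v : Vx d} (h : z' ∈ Free L z) (h' : v ∈ Free L z') : v ∈ Free L z :=
  ⟨h.1.trans h'.1, fun x hx hv => h.2 x hx (h'.2 x hx hv)⟩

lemma Off_finite (L : ℕ) (z : Vx d) : (Off L z).Finite := (Lv_finite _).subset inter_subset_right

lemma Dl_len {L : ℕ} {x : Vx d} (h : x ∈ Dl d L) : L ∣ len x + 1 := by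
  obtain ⟨w, rfl, h⟩ := h
  simpa [add_assoc] using h

lemma Off_card (L : ℕ) {z : Vx d} (hz : 0 < len z) : (Off L z).ncard ≤ (Bl d (1 + L)).ncard := by
  obtain ⟨a, x, rfl, hx⟩ := exists_parent hz
  obtain ⟨f, -, -, h2, h3⟩ := exists_aut 0 x a (head_ne_of_cons hx)
  refine ncard_le_ncard_of_injOn f.φ.symm (fun v hv => ?_) f.φ.symm.injective.injOn (Bl_finite _)
  have h4 := h3 _ ((h2 (f.φ.symm v)).2 (by simpa using hv.1.1))
  have h5 : len v = len (nbr a x) + L := hv.2
  have h6 := len_cons hx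
  rw [Equiv.apply_symm_apply] at h4
  change len _ ≤ _
  omega

/-- going down along the thinned tree -/
noncomputable def desc (D : ℕ) (v : Vx d) : Vx d := ch (ch ((fun u => ch u false)^[D] v) true) false

lemma iter_ch (D : ℕ) (v : Vx d) :
    Anc v ((fun u => ch u false)^[D] v) ∧ len ((fun u => ch u false)^[D] v) = len v + D := by
  induction D with
  | zero => exact ⟨Anc.refl v, rfl⟩
  | succ D ih =>
    rw [iterate_succ_apply']
    exact ⟨ih.1.trans (anc_ch_self _ _), by rw [len_ch, ih.2]; rfl⟩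

lemma anc_desc (D : ℕ) (v : Vx d) : Anc v (desc D v) :=
  ((iter_ch D v).1.trans (anc_ch_self _ _)).trans (anc_ch_self _ _)

lemma len_desc (D : ℕ) (v : Vx d) : len (desc D v) = len v + (D + 2) := by
  simp [desc, (iter_ch D v).2, add_assoc]

lemma desc_injective (D : ℕ) : Injective (desc D : Vx d → Vx d) := fun u v h => by
  have h1 := len_desc D u
  have h2 := len_desc D v
  rw [h] at h1
  exact ((anc_desc D u).of_len_le (h ▸ anc_desc D v) (by omega)).eq_of_len (by omega)

lemma dvd_aux {L a b : ℕ} (h1 : L ∣ a) (h2 : L ∣ b + 1) (h3 : b + 1 < a + L) : b < a := by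
  obtain ⟨i, rfl⟩ := h1
  obtain ⟨j, hj⟩ := h2
  have : j < i + 1 := by
    by_contra hh
    have : L * (i + 1) ≤ L * j := Nat.mul_le_mul_left _ (by omega)
    rw [mul_add] at this
    omega
  have : L * j ≤ L * i := Nat.mul_le_mul_left _ (by omega)
  omega

lemma mem_Free_of_len {L : ℕ} {z u : Vx d} (hz : L ∣ len z) (h : Anc z u)
    (hl : len u + 1 < len z + L) : u ∈ Free L z := by
  refine ⟨h, fun x hx hxu => hxu.of_len_le h ?_⟩
  have := hxu.len_le
  exact (dvd_aux hz (Dl_len hx) (by omega)).le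

lemma desc_mem_Off {L D : ℕ} {z v : Vx d} (hz : L ∣ len z) (h : Anc z v)
    (hl : len v + (D + 2) = len z + L) : desc D v ∈ Off L z := by
  refine ⟨⟨h.trans (anc_desc D v), fun x hx hxu => ?_⟩, (len_desc D v).trans hl⟩
  have e1 := iter_ch D v
  have e2 := Dl_len hx
  rcases anc_ch.1 hxu with e | e
  · have e3 : len x = len z + L := by rw [e]; exact (len_desc D v).trans hl
    have e4 : L ∣ 1 := by
      rw [e3, add_assoc] at e2
      have := (Nat.dvd_add_right hz).1 e2
      exact (Nat.dvd_add_right (dvd_refl L)).1 this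
    have := Nat.le_of_dvd one_pos e4
    have := h.len_le
    omega
  rcases anc_ch.1 e with e | e
  · obtain ⟨w, rfl, -⟩ := hx
    exact absurd (ch_inj e).2 (by simp)
  · exact (mem_Free_of_len hz (h.trans e1.1) (by omega)).2 x hx e

lemma offspring (hlam : 0 < lam) (hK : 1 ≤ K) {m : ℕ} (h : 1 + (d + 1) * 2 ≤ ex d lam K m) :
    ∃ L τ : ℕ, 2 ≤ L ∧ 0 < τ ∧ ∀ z : Vx d, 0 < len z → L ∣ len z →
      2 ≤ ∑' v, (Off L z).indicator (fun v => p lam (Rg L z) K τ v z) v := by
  have he : eps lam ≠ 0 := eps_ne_zero hlam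
  have he' : eps lam ≠ ∞ := ne_top_of_le_ne_top ENNReal.one_ne_top eps_le_one
  obtain ⟨s, hs⟩ := ub_unbounded hlam hK h (M := 2 / eps lam) (ENNReal.div_ne_top (by simp) he)
  have hs' : 2 ≤ eps lam * ub lam K s (nbr 0 (root d)) := by
    rw [ENNReal.div_lt_iff (Or.inl he) (Or.inl he'), mul_comm] at hs
    exact hs.le
  set D := s * K with hD
  have hE : eps lam ^ (D + 2) ≠ 0 := pow_ne_zero _ he
  have hE' : eps lam ^ (D + 2) ≠ ∞ := ENNReal.pow_ne_top he'
  obtain ⟨i, hi⟩ := exists_pow_gt ((s + 1) * K) (C := 2 * (2 / eps lam ^ (D + 2)))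
    (ENNReal.mul_ne_top (by simp) (ENNReal.div_ne_top (by simp) hE))
  set z0 := nbr 0 (root d) with hz0
  have l0 : len z0 = 1 := len_cons (nbr_child (by simp [root]))
  set T := i * (s + 1) with hT
  obtain ⟨l, hl, h1⟩ := level_pigeon (fun v => p lam (Br z0 ∩ {u | len u ≤ len v + D}) K T z0 v)
    (1 + T * K) fun v hv => by
      unfold p
      convert measure_empty (μ := Pr d lam)
      exact eq_empty_of_forall_notMem fun ω h => by have := (Ch.len h).2; omega
  have h2 := (gen_growth hK hs' i z0 (by omega)).trans h1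
  set A := ∑' v, (Lv d l).indicator
    (fun v => p lam (Br z0 ∩ {u | len u ≤ len v + D}) K T z0 v) v with hA
  have h3 : 2 ≤ A * eps lam ^ (D + 2) := by
    rw [← ENNReal.div_le_iff_le_mul (Or.inl hE) (Or.inl hE')]
    by_contra hh
    have e1 : ((1 + T * K : ℕ) + 1 : ℝ≥0∞) ≤ 2 * ((i * ((s + 1) * K) : ℕ) + 1) := by
      have : 1 + T * K + 1 ≤ 2 * (i * ((s + 1) * K) + 1) := by rw [hT, mul_assoc]; omega
      exact_mod_cast this
    refine absurd (hi.trans_le (h2.trans (mul_le_mul' e1 (not_le.1 hh).le))) (not_lt.2 (le_of_eq ?_))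
    ring
  have hl1 : 1 ≤ l := by
    by_contra hh
    obtain rfl : l = 0 := by omega
    have : A = 0 := by
      rw [hA, ENNReal.tsum_eq_zero]
      intro v
      by_cases hv : v ∈ Lv d 0
      · rw [indicator_of_mem hv]
        refine le_antisymm ((p_mono inter_subset_left le_rfl).trans_eq
          (p_eq_zero (Anc.refl _) fun h => ?_)) zero_le
        have h1 := Anc.len_le h
        have h2 : len v = 0 := hv
        omega
      · exact indicator_of_notMem hv _
    simp [this] at h3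
  refine ⟨l - 1 + (D + 2), T + (D + 2), by omega, by omega, fun z hz hL => h3.trans ?_⟩
  obtain ⟨a, x, rfl, hx⟩ := exists_parent hz
  obtain ⟨f, -, f1, f2, f3⟩ := exists_aut 0 x a (head_ne_of_cons hx)
  have lz := len_cons hx
  rw [hA, ← ENNReal.tsum_mul_right]
  refine le_trans (ENNReal.tsum_le_tsum fun v => ?_) (ENNReal.tsum_comp_le_tsum_of_injective
    ((desc_injective D).comp f.φ.injective) _)
  by_cases hv : v ∈ Lv d l
  swap
  · rw [indicator_of_notMem hv, zero_mul]; exact zero_le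
  by_cases hv' : v ∈ Br z0
  swap
  · rw [indicator_of_mem hv, le_antisymm ((p_mono inter_subset_left le_rfl).trans_eq
      (p_eq_zero (Anc.refl _) hv')) zero_le, zero_mul]
    exact zero_le
  have e1 : len v = l := hv
  have e2 := f3 v hv'
  have e3 := (f2 v).1 hv'
  have e4 := desc_mem_Off (D := D) hL e3 (by omega)
  rw [indicator_of_mem hv, comp_apply, indicator_of_mem e4, p_symm (v' := nbr a x)]
  refine le_trans (mul_le_mul' ?_ (eps_pow_le hK _ (anc_desc D (f.φ v)) (fun u h1 h2 => ?_) _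
    (len_desc D _))) p_mul_le
  · rw [← f1]
    refine p_le_aut f fun u hu => ?_
    have e5 := f3 u hu.1
    have e6 : len u ≤ len v + D := hu.2
    rw [f1]
    exact ⟨mem_Free_of_len hL ((f2 u).1 hu.1) (by omega), by simp only [mem_ofPred_eq]; omega⟩
  · refine ⟨⟨e3.trans h1, fun y hy hyu => e4.1.2 y hy (hyu.trans h2)⟩, ?_⟩
    have := h2.len_le
    have e5 : len (desc D (f.φ v)) = _ := e4.2
    simp only [mem_ofPred_eq]
    omega

end Pool.Agent.Lib.MP_69dcc1_pr
end

-- part Pool.Agent.Lib.MP_69dcc1_pr.Survive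
section

/-! Survival of the branching process, with control of the space-time region used. -/

namespace Pool.Agent.Lib.MP_69dcc1_pr

open Set Function MeasureTheory ProbabilityTheory
open scoped NNReal ENNReal

lemma one_sub_pow_le {q : ℝ} (h0 : 0 ≤ q) (h1 : q ≤ 1) (k : ℕ) (hk : k * q ≤ 1) :
    (1 - q) ^ k ≤ 1 - k * q / 2 := by
  induction k with
  | zero => simp
  | succ k ih =>
    push_cast at hk ⊢
    have h2 : k * q ≤ 1 := by linarith
    have h3 := ih h2
    rw [pow_succ]
    have : (1 - q) ^ k * (1 - q) ≤ (1 - k * q / 2) * (1 - q) := by gcongr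
    nlinarith

lemma gw_step {ι κ : Type*} [Countable κ] {X : ι → Type*} [∀ i, MeasurableSpace (X i)] (μ : ∀ i, Measure (X i))
    [∀ i, IsProbabilityMeasure (μ i)] (S : Finset κ) {C D : κ → Set (∀ i, X i)} {T : Set ι}
    {U : κ → Set ι} (hC : ∀ j ∈ S, Dep T (C j)) (hD : ∀ j ∈ S, Dep (U j) (D j))
    (hU : (S : Set κ).PairwiseDisjoint U) (hT : ∀ j ∈ S, Disjoint T (U j)) {q : ℝ} (h0 : 0 ≤ q)
    (h1 : q ≤ 1) (hq : S.card * q ≤ 1) (hDq : ∀ j ∈ S, q ≤ (Measure.infinitePi μ).real (D j))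
    (h2 : 2 ≤ ∑ j ∈ S, (Measure.infinitePi μ).real (C j)) :
    q ≤ (Measure.infinitePi μ).real (⋃ j ∈ S, C j ∩ D j) := by
  classical
  set P := Measure.infinitePi μ with hP
  set E : Finset κ → Set (∀ i, X i) := fun F => {ω | ∀ j ∈ S, ω ∈ C j ↔ j ∈ F} with hE
  have dE : ∀ F, Dep T (E F) := fun F => by
    have : E F = ⋂ j : S, if j.1 ∈ F then C j else (C j)ᶜ := by
      ext ω
      simp only [hE, mem_ofPred_eq, mem_iInter, Subtype.forall]
      refine forall₂_congr fun j _ => ?_
      split_ifs with h <;> simp [h]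
    rw [this]
    refine Dep.iInter fun j => ?_
    split_ifs
    · exact hC j j.2
    · exact (hC j j.2).compl
  have mem : ∀ ω, ω ∈ E (S.filter fun j => ω ∈ C j) := fun ω j hj => by simp [hj]
  have a1 : ∑ F ∈ S.powerset, P.real (E F) ≤ 1 := by
    rw [← measureReal_biUnion_finset]
    · exact measureReal_le_one
    · intro F hF F' hF' hne
      refine disjoint_left.2 fun ω h h' => hne (Finset.ext fun j => ?_)
      have e1 : F ⊆ S := by simpa using hF
      have e2 : F' ⊆ S := by simpa using hF'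
      exact ⟨fun hj => (h' j (e1 hj)).1 ((h j (e1 hj)).2 hj),
        fun hj => (h j (e2 hj)).1 ((h' j (e2 hj)).2 hj)⟩
    · exact fun F _ => (dE F).meas
  have a2 : 2 ≤ ∑ F ∈ S.powerset, P.real (E F) * F.card := by
    refine h2.trans ?_
    calc ∑ j ∈ S, P.real (C j) ≤ ∑ j ∈ S, ∑ F ∈ S.powerset, if j ∈ F then P.real (E F) else 0 := by
          refine Finset.sum_le_sum fun j hj => ?_
          rw [← Finset.sum_filter]
          refine le_trans (measureReal_mono (fun ω h => ?_) (measure_ne_top _ _))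
            (measureReal_biUnion_finset_le _ _)
          simp only [mem_iUnion]
          exact ⟨_, by simp [hj, h], mem ω⟩
      _ = _ := by
          rw [Finset.sum_comm]
          refine Finset.sum_congr rfl fun F hF => ?_
          rw [← Finset.sum_filter, Finset.sum_const, Finset.filter_mem_eq_inter,
            Finset.inter_eq_right.2 (Finset.mem_powerset.1 hF), nsmul_eq_mul, mul_comm]
  have a3 : ∀ F ∈ S.powerset, P.real (E F ∩ ⋂ j ∈ F, (D j)ᶜ) ≤ P.real (E F) * (1 - F.card * q / 2) := by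
    intro F hF
    have hF : F ⊆ S := Finset.mem_powerset.1 hF
    have e1 : Dep (⋃ j ∈ F, U j) (⋂ j ∈ F, (D j)ᶜ) :=
      Dep.iInter fun j => Dep.iInter fun hj =>
        (hD j (hF hj)).compl.mono (subset_iUnion₂ (s := fun j (_ : j ∈ F) => U j) j hj)
    have e2 := Dep.meas_inter μ (dE F) e1 (by
      simp only [disjoint_iUnion_right]; exact fun j hj => hT j (hF hj))
    rw [meas_biInter μ F (fun j hj => (hD j (hF hj)).compl) (hU.subset hF)] at e2
    rw [measureReal_def, hP, e2, ENNReal.toReal_mul, ENNReal.toReal_prod]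
    refine mul_le_mul_of_nonneg_left ?_ ENNReal.toReal_nonneg
    refine le_trans ?_ (one_sub_pow_le h0 h1 _ ?_)
    · rw [← Finset.prod_const]
      refine Finset.prod_le_prod (fun _ _ => ENNReal.toReal_nonneg) fun j hj => ?_
      have := probReal_compl_eq_one_sub (μ := P) (hD j (hF hj)).meas
      rw [measureReal_def] at this
      rw [this]
      linarith [hDq j (hF hj)]
    · have : (F.card : ℝ) ≤ S.card := by exact_mod_cast Finset.card_le_card hF
      exact le_trans (by gcongr) hq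
  have a4 : P.real (⋃ j ∈ S, C j ∩ D j)ᶜ ≤ 1 - q := by
    calc _ ≤ ∑ F ∈ S.powerset, P.real (E F ∩ ⋂ j ∈ F, (D j)ᶜ) := by
          refine le_trans (measureReal_mono (fun ω h => ?_) (measure_ne_top _ _))
            (measureReal_biUnion_finset_le _ _)
          simp only [mem_compl_iff, mem_iUnion, not_exists, mem_inter_iff, not_and, mem_iInter] at h ⊢
          exact ⟨_, Finset.mem_powerset.2 (Finset.filter_subset _ _), mem ω, fun j hj =>
            h j (Finset.mem_filter.1 hj).1 (Finset.mem_filter.1 hj).2⟩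
      _ ≤ ∑ F ∈ S.powerset, P.real (E F) * (1 - F.card * q / 2) := Finset.sum_le_sum a3
      _ = ∑ F ∈ S.powerset, P.real (E F) - q / 2 * ∑ F ∈ S.powerset, P.real (E F) * F.card := by
          rw [Finset.mul_sum, ← Finset.sum_sub_distrib]
          exact Finset.sum_congr rfl fun F _ => by ring
      _ ≤ 1 - q := by nlinarith
  rw [probReal_compl_eq_one_sub
    (Finset.measurableSet_biUnion _ fun j hj => (hC j hj).meas.inter (hD j hj).meas)] at a4
  linarith

variable {d : ℕ} {lam : ℝ≥0} [Fact (2 ≤ d)]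

/-- survival for `n` generations, backwards in time from `(z, t)` -/
def Sv (K L τ : ℕ) : ℕ → Vx d → ℤ → Set (Om d)
  | 0, _, _ => univ
  | n + 1, z, t => ⋃ z' ∈ Off L z, {ω | Ch (Rg L z) K ω (t - τ) z' τ z} ∩ Sv K L τ n z' (t - τ)

/-- space-time region on which survival from `(z, t)` depends -/
def SR (L τ : ℕ) (z : Vx d) (t : ℤ) : Set (Lb d × ℤ) :=
  {p | ∃ γ : ℕ, p.1 ∈ ED (Free L z ∩ {v | len z + γ * L ≤ len v ∧ len v ≤ len z + (γ + 1) * L}) ∧
    t - (γ + 1) * τ ≤ p.2 ∧ p.2 < t - γ * τ}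

variable {K L τ : ℕ}

lemma dep_Sv (n : ℕ) : ∀ (z : Vx d) (t : ℤ), Dep (SR L τ z t) (Sv K L τ n z t) := by
  induction n with
  | zero => exact fun z t => Dep.univ _
  | succ n ih =>
    intro z t
    refine Dep.iUnion fun z' => Dep.iUnion fun hz' => Dep.inter
      ((dep_Ch _ _ _ _ _ _).mono fun p hp => ?_) ((ih z' _).mono fun p hp => ?_)
    · refine ⟨0, ED_mono ?_ hp.1, by simpa using hp.2.1, by simpa using hp.2.2⟩
      exact fun v hv => ⟨hv.1, by simpa using hv.1.1.len_le, by simpa using hv.2⟩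
    · obtain ⟨γ, h1, h2, h3⟩ := hp
      refine ⟨γ + 1, ED_mono ?_ h1, by push_cast; linarith, by push_cast; linarith⟩
      intro v hv
      have e1 : len z' = len z + L := hz'.2
      have e2 := hv.2.1
      have e3 := hv.2.2
      exact ⟨Free.trans hz'.1 hv.1, by rw [add_mul]; omega, by rw [add_mul (γ + 1)]; omega⟩

lemma SR_sub {z : Vx d} {t : ℤ} {q : Lb d × ℤ} (h : q ∈ SR L τ z t) :
    q.1 ∈ ED (Free L z) ∧ q.2 < t := by
  obtain ⟨γ, h1, -, h3⟩ := h
  have : (0 : ℤ) ≤ γ * τ := by positivity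
  exact ⟨ED_mono inter_subset_left h1, by omega⟩

lemma Sv_prob (hoff : ∀ z : Vx d, 0 < len z → L ∣ len z →
      2 ≤ ∑' v, (Off L z).indicator (fun v => p lam (Rg L z) K τ v z) v) :
    ∃ q : ℝ, 0 < q ∧ ∀ n (z : Vx d) t, 0 < len z → L ∣ len z → q ≤ (Pr d lam).real (Sv K L τ n z t) := by
  classical
  set M : ℝ := (Bl d (1 + L)).ncard + 1 with hM
  have M1 : 1 ≤ M := by rw [hM]; linarith [Nat.cast_nonneg (α := ℝ) (Bl d (1 + L)).ncard]
  refine ⟨1 / M, by positivity, fun n => ?_⟩
  have hq1 : 1 / M ≤ 1 := by rw [div_le_one (by linarith)]; exact M1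
  induction n with
  | zero => intro z t _ _; simpa [Sv] using hq1
  | succ n ih =>
    intro z t hz hL
    have := gw_step (fun p : Lb d × ℤ => cellLaw (rate lam p.1)) (Off_finite L z).toFinset
      (C := fun z' => {ω | Ch (Rg L z) K ω (t - τ) z' τ z}) (D := fun z' => Sv K L τ n z' (t - τ))
      (T := Reg (Rg L z) (t - τ) τ) (U := fun z' => SR L τ z' (t - τ))
      (fun j _ => dep_Ch _ _ _ _ _ _) (fun j _ => dep_Sv n _ _)
      (fun i hi j hj hij => disjoint_left.2 fun q h h' => by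
        have e1 : len i = len z + L := ((Off_finite L z).mem_toFinset.1 hi).2
        have e2 : len j = len z + L := ((Off_finite L z).mem_toFinset.1 hj).2
        exact hij (((SR_sub h).1.1.1.of_len_le (SR_sub h').1.1.1 (by omega)).eq_of_len (by omega)))
      (fun j _ => disjoint_left.2 fun q h h' => by
        have := (SR_sub h').2; have := h.2.1; omega) (q := 1 / M) (by positivity) hq1
      (by
        rw [← ncard_eq_toFinset_card _ (Off_finite L z), mul_one_div, div_le_one (by linarith)]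
        have : ((Off L z).ncard : ℝ) ≤ (Bl d (1 + L)).ncard := by exact_mod_cast Off_card L hz
        linarith)
      (fun j hj => by
        have e1 : len j = len z + L := ((Off_finite L z).mem_toFinset.1 hj).2
        exact ih j _ (by omega) (by rw [e1]; exact dvd_add hL dvd_rfl))
      (by
        have h1 := hoff z hz hL
        rw [tsum_eq_sum (s := (Off_finite L z).toFinset)
          (fun v hv => indicator_of_notMem (by simpa using hv) _)] at h1
        have h2 : ∑ v ∈ (Off_finite L z).toFinset, (Off L z).indicator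
            (fun v => p lam (Rg L z) K τ v z) v = ∑ v ∈ (Off_finite L z).toFinset,
              Pr d lam {ω | Ch (Rg L z) K ω (t - τ) v τ z} :=
          Finset.sum_congr rfl fun v hv => by
            rw [indicator_of_mem (by simpa using hv), Pr_Ch]
        rw [h2] at h1
        have h3 := ENNReal.toReal_mono (ENNReal.sum_ne_top.2 fun _ _ => measure_ne_top _ _) h1
        rw [ENNReal.toReal_sum fun _ _ => measure_ne_top _ _] at h3
        exact h3)
    simpa [Sv, Pr] using this

lemma Sv_anti (n : ℕ) : ∀ (z : Vx d) (t : ℤ), Sv K L τ (n + 1) z t ⊆ Sv K L τ n z t := by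
  induction n with
  | zero => exact fun _ _ => subset_univ _
  | succ n ih =>
    intro z t
    exact iUnion₂_mono fun z' _ => inter_subset_inter_right _ (ih z' _)

/-- survival forever, backwards in time from `(z, t)` -/
def Surv (K L τ : ℕ) (z : Vx d) (t : ℤ) : Set (Om d) := ⋂ n, Sv K L τ n z t

lemma dep_Surv (z : Vx d) (t : ℤ) : Dep (SR L τ z t) (Surv K L τ z t) :=
  Dep.iInter fun n => dep_Sv n z t

lemma Surv_prob (hoff : ∀ z : Vx d, 0 < len z → L ∣ len z →
      2 ≤ ∑' v, (Off L z).indicator (fun v => p lam (Rg L z) K τ v z) v) :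
    ∃ q : ℝ≥0∞, q ≠ 0 ∧ ∀ (z : Vx d) t, 0 < len z → L ∣ len z → q ≤ Pr d lam (Surv K L τ z t) := by
  obtain ⟨q, h0, h⟩ := Sv_prob hoff
  refine ⟨ENNReal.ofReal q, by simpa using h0, fun z t hz hL => ?_⟩
  rw [Surv, (antitone_nat_of_succ_le fun n => Sv_anti n z t).measure_iInter
    (fun n => (dep_Sv n z t).meas.nullMeasurableSet) ⟨0, measure_ne_top _ _⟩]
  exact le_iInf fun n => ENNReal.ofReal_le_of_le_toReal (h n z t hz hL)

lemma Surv.step {z : Vx d} {t : ℤ} {ω : Om d} (h : ω ∈ Surv K L τ z t) :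
    ∃ z', Ch univ K ω (t - τ) z' τ z ∧ ω ∈ Surv K L τ z' (t - τ) := by
  have h1 : ∀ n, ∃ z' : Off L z, Ch (Rg L z) K ω (t - τ) z' τ z ∧ ω ∈ Sv K L τ n z' (t - τ) := by
    intro n
    have := mem_iInter.1 h (n + 1)
    simp only [Sv, mem_iUnion] at this
    obtain ⟨z', h1, h2⟩ := this
    exact ⟨⟨z', h1⟩, h2⟩
  choose f hf using h1
  have := (Off_finite L z).to_subtype
  obtain ⟨z', hz'⟩ := Finite.exists_infinite_fiber f
  have hinf : (f ⁻¹' {z'}).Infinite := infinite_coe_iff.1 hz'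
  obtain ⟨n0, hn0⟩ := hinf.nonempty
  refine ⟨z', ?_, mem_iInter.2 fun n => ?_⟩
  · have := (hf n0).1
    rw [show f n0 = z' from hn0] at this
    exact this.mono (subset_univ _) le_rfl
  · obtain ⟨m, hm, hnm⟩ := hinf.exists_gt n
    have := (hf m).2
    rw [show f m = z' from hm] at this
    exact (antitone_nat_of_succ_le (f := fun n => Sv K L τ n (z' : Vx d) (t - τ))
      fun n => Sv_anti n _ _) hnm.le this

lemma Surv.steps {ω : Om d} (k : ℕ) : ∀ {z : Vx d} {t : ℤ}, ω ∈ Surv K L τ z t →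
    ∃ z', Ch univ K ω (t - (k * τ : ℕ)) z' (k * τ) z ∧ ω ∈ Surv K L τ z' (t - (k * τ : ℕ)) := by
  induction k with
  | zero => intro z t h; exact ⟨z, by simp [Ch], by simpa using h⟩
  | succ k ih =>
    intro z t h
    obtain ⟨z', h1, h2⟩ := ih h
    obtain ⟨z'', h3, h4⟩ := Surv.step h2
    have e : t - (k * τ : ℕ) - τ = t - ((k + 1) * τ : ℕ) := by push_cast; ring
    rw [e] at h3 h4
    refine ⟨z'', ?_, h4⟩
    rw [show (k + 1) * τ = τ + k * τ by ring, Ch_add]
    refine ⟨z', by rwa [show τ + k * τ = (k + 1) * τ by ring], ?_⟩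
    convert h1 using 1
    push_cast; ring

end Pool.Agent.Lib.MP_69dcc1_pr
end

-- part Pool.Agent.Lib.MP_69dcc1_pr.Stationary
section

/-! The stationary configuration, its law, and unboundedness of the expected size on survival. -/

namespace Pool.Agent.Lib.MP_69dcc1_pr

open Set Function MeasureTheory ProbabilityTheory Filter Topology
open scoped NNReal ENNReal

variable {d : ℕ} {lam : ℝ≥0}

lemma mem_times_iff {ι : Type} {ω : ι × ℕ → Cell} (hg : Gen ω) {e : ι} {k : ℕ} {u : ℝ}
    (hu : u ∈ Ioc (0 : ℝ) 1) : u + k ∈ times ω e ↔ u ∈ pts (ω (e, k)) := by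
  constructor
  · rintro ⟨k', i, hi, h⟩
    have h1 := hg.1 (e, k') i
    have h2 : (k : ℝ) < k' + 1 := by linarith [hu.1]
    have h3 : (k' : ℝ) < k + 1 := by linarith [hu.2]
    have h2' : k < k' + 1 := by exact_mod_cast h2
    have h3' : k' < k + 1 := by exact_mod_cast h3
    obtain rfl : k' = k := by omega
    exact ⟨i, hi, by linarith⟩
  · rintro ⟨i, hi, h⟩
    exact ⟨k, i, hi, by linarith⟩

/-- recoveries of one-sided marks -/
abbrev cu (ω : Lb d × ℕ → Cell) : Vx d → Set ℝ := fun v => times ω (v, none)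
/-- arrows of one-sided marks -/
abbrev ar (ω : Lb d × ℕ → Cell) : Vx d → Fin (d + 1) → Set ℝ := fun v a => times ω (v, some a)

section
variable {ω : Om d} {ω1 : Lb d × ℕ → Cell} (hg : Gen ω1) (h : ∀ e (k : ℕ), ω (e, k) = ω1 (e, k))
include hg h

lemma step_iff {K k : ℕ} {v v' : Vx d} :
    Step univ K ω k v v' ↔ PN univ (cu ω1) (ar ω1) v k K v' (k + 1) := by
  constructor
  · intro hs
    have := PN.map (W' := univ) (cure' := cu ω1) (arrow' := ar ω1) id id k 1 (fun _ _ => rfl)
      (fun _ _ => trivial) (fun v _ u hu h' => by rw [h]; exact (mem_times_iff hg hu).1 h')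
      (fun v _ a _ u hu h' => by rw [h] at h'; exact (mem_times_iff hg hu).2 h') hs le_rfl
    simpa [add_comm] using this
  · intro hs
    have e : ∀ u ∈ Ioc (k : ℝ) (k + 1), u + -k ∈ Ioc (0 : ℝ) 1 := fun u hu =>
      ⟨by linarith [hu.1], by linarith [hu.2]⟩
    have := PN.map (W' := univ) (cure' := fun v => pts (ω ((v, none), k)))
      (arrow' := fun v a => pts (ω ((v, some a), k))) id id (-k) (k + 1) (fun _ _ => rfl)
      (fun _ _ => trivial) (fun v _ u hu h' => by
        rw [h] at h'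
        simpa using (mem_times_iff hg (e u hu)).2 h')
      (fun v _ a _ u hu h' => by
        rw [h]
        exact (mem_times_iff hg (e u hu)).1 (by simpa using h')) hs le_rfl
    simpa [Step] using this

lemma ch_reach {K k : ℕ} {y : Vx d} (n : ℕ) : ∀ x, Ch univ K ω k y n x →
    Reach (cu ω1) (ar ω1) y k x (k + n) := by
  induction n with
  | zero => intro x hx; rw [hx]; exact .stay _ (by simp) (by simp)
  | succ n ih =>
    rintro x ⟨z, h1, h2⟩
    have h3 := ((step_iff hg h (k := k + n)).1 (by exact_mod_cast h2)).reach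
    push_cast at h3 ⊢
    rw [← add_assoc]
    exact (ih z h1).trans h3

lemma pn_ch {K : ℕ} {y : Vx d} (n : ℕ) : ∀ x, PN univ (cu ω1) (ar ω1) y 0 K x n →
    Ch univ K ω 0 y n x := by
  induction n with
  | zero =>
    intro x hx
    generalize ht : ((0 : ℕ) : ℝ) = t at hx
    cases hx with
    | stay => rfl
    | jump _ _ _ r _ _ _ h1 h2 => exact absurd (h1.trans_le h2) (by simp [← ht])
  | succ n ih =>
    intro x hx
    obtain ⟨z, h1, h2⟩ := hx.split (m := n) (Nat.cast_nonneg n) (by simp)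
    refine ⟨z, ih z h1, ?_⟩
    rw [zero_add]
    exact (step_iff hg h).2 (by exact_mod_cast h2)

end

/-- `x` is reached at time `k + n` from some site at time `k` -/
def Hit (k : ℤ) (n : ℕ) (x : Vx d) : Set (Om d) := ⋃ y, ⋃ K, {ω | Ch univ K ω k y n x}

lemma dep_Hit (k : ℤ) (n : ℕ) (x : Vx d) : Dep (Reg univ k n) (Hit k n x) :=
  Dep.iUnion fun _ => Dep.iUnion fun _ => dep_Ch _ _ _ _ _ _

lemma Hit_anti (x : Vx d) : Antitone fun n : ℕ => Hit (-n) n x :=
  antitone_nat_of_succ_le fun n ω h => by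
    simp only [Hit, mem_iUnion, mem_ofPred_eq] at h ⊢
    obtain ⟨y, K, h⟩ := h
    rw [add_comm n 1, Ch_add] at h
    obtain ⟨z, -, h⟩ := h
    exact ⟨z, K, by simpa using h⟩

/-- the stationary configuration at time zero -/
def eta0 (ω : Om d) : Set (Vx d) := {y | ∀ n : ℕ, ω ∈ Hit (-n) n y}

/-- the marks at nonnegative times -/
def fut (ω : Om d) : Lb d × ℕ → Cell := fun p => ω (p.1, p.2)

lemma measurable_fut : Measurable (fut : Om d → _) := by unfold fut; fun_prop

lemma measurable_eta0 : Measurable (eta0 : Om d → _) :=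
  measurable_set_iff.2 fun y => Measurable.forall fun n => measurable_mem.2 (dep_Hit _ n y).meas

lemma fut_preserving : MeasurePreserving fut (Pr d lam) (contactMarks d lam) :=
  ⟨measurable_fut, Measure.map_infinitePi_infinitePi_of_inj
    (P := fun p : Lb d × ℤ => cellLaw (rate lam p.1)) (f := fun p : Lb d × ℕ => (p.1, (p.2 : ℤ)))
    (by
      rintro ⟨e, k⟩ ⟨e', k'⟩ h
      simpa using h)⟩

lemma Ch_shift {W : Set (Vx d)} {K n : ℕ} {ω : Om d} {k j : ℤ} {v v' : Vx d} :
    Ch W K (act (Aut.one d) j ω) k v n v' ↔ Ch W K ω (k + j) v n v' := by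
  refine ⟨fun h => Ch.act (f := Aut.one d) (fun _ h => h) h, fun h => ?_⟩
  have e : act (Aut.one d) (-j) (act (Aut.one d) j ω) = ω := by
    funext p
    simp [act, Aut.one]
  rw [← e] at h
  have := Ch.act (f := Aut.one d) (W' := W) (fun _ h => h) h
  rwa [add_neg_cancel_right] at this

lemma dep_cyl (F : Finset (Vx d)) (S : Set (Vx d)) (k : ℤ) (n : ℕ) :
    Dep (Reg univ k n) {ω : Om d | ∀ x ∈ F, ω ∈ Hit k n x ↔ x ∈ S} :=
  ⟨measurableSet_setOfPred.2 (Measurable.forall fun x => measurable_const.imp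
    ((measurable_mem.2 (dep_Hit k n x).meas).iff measurable_const)), fun _ _ h hω x hx =>
      (iff_of_eq ((dep_Hit k n x).dependsOn h)).symm.trans (hω x hx)⟩

lemma cyl_prob (F : Finset (Vx d)) (S : Set (Vx d)) (n : ℕ) :
    contactMarks d lam {ω | ∀ x ∈ F, x ∈ contact univ ω n ↔ x ∈ S}
      = Pr d lam {ω | ∀ x ∈ F, ω ∈ Hit (-n) n x ↔ x ∈ S} := by
  let ext : (Lb d × ℕ → Cell) → Om d := fun ω p => ω (p.1, p.2.toNat)
  have mext : Measurable ext := by fun_prop
  have hm := (dep_cyl F S 0 n).meas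
  have h1 : contactMarks d lam {ω | ∀ x ∈ F, x ∈ contact univ ω n ↔ x ∈ S}
      = contactMarks d lam (ext ⁻¹' {ω | ∀ x ∈ F, ω ∈ Hit 0 n x ↔ x ∈ S}) := by
    refine measure_congr ?_
    filter_upwards [ae_Gen fun p : Lb d × ℕ => rate lam p.1] with ω hg
    have hext : ∀ e (k : ℕ), ext ω (e, k) = ω (e, k) := fun e k => by simp [ext]
    change (∀ x ∈ F, x ∈ contact univ ω n ↔ x ∈ S) = (∀ x ∈ F, ext ω ∈ Hit 0 n x ↔ x ∈ S)
    refine propext (forall₂_congr fun x _ => iff_congr ?_ Iff.rfl)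
    simp only [Hit, mem_iUnion, mem_ofPred_eq, contact, mem_univ, true_and]
    refine exists_congr fun y => ⟨fun h => ?_, fun ⟨K, h⟩ => ?_⟩
    · obtain ⟨K, h⟩ := h.pn
      exact ⟨K, pn_ch hg hext n x h⟩
    · simpa using ch_reach hg hext (k := 0) n x h
  have h2 : fut ⁻¹' ext ⁻¹' {ω | ∀ x ∈ F, ω ∈ Hit 0 n x ↔ x ∈ S}
      = {ω | ∀ x ∈ F, ω ∈ Hit 0 n x ↔ x ∈ S} := by
    ext ω
    refine iff_of_eq ((dep_cyl F S 0 n).dependsOn fun p hp => ?_)
    simp only [ext, fut, Int.toNat_of_nonneg hp.2.1]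
  rw [h1, ← fut_preserving.measure_preimage (mext hm).nullMeasurableSet, h2,
    ← (act_preserving lam (Aut.one d) (-n)).measure_preimage hm.nullMeasurableSet]
  congr 1
  ext ω
  simp [Hit, Ch_shift]

lemma isUpperInvariant_eta0 : IsUpperInvariant lam ((Pr d lam).map eta0) := by
  refine ⟨Measure.isProbabilityMeasure_map measurable_eta0.aemeasurable, fun F S => ?_⟩
  simp_rw [cyl_prob]
  have hm : MeasurableSet {η : Set (Vx d) | ∀ x ∈ F, x ∈ η ↔ x ∈ S} :=
    measurableSet_setOfPred.2 (Measurable.forall fun x => measurable_const.imp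
      ((measurable_set_mem x).iff measurable_const))
  rw [Measure.map_apply measurable_eta0 hm]
  refine tendsto_measure_of_tendsto_indicator_of_isFiniteMeasure _ _
    (fun n => (dep_cyl F S _ n).meas) fun ω => ?_
  have h : ∀ x, ∀ᶠ n : ℕ in atTop, ω ∈ Hit (-n) n x ↔ x ∈ eta0 ω := by
    intro x
    by_cases hx : x ∈ eta0 ω
    · exact Eventually.of_forall fun n => iff_of_true (hx n) hx
    · obtain ⟨m, hm⟩ := not_forall.1 hx
      filter_upwards [eventually_ge_atTop m] with n hn
      exact iff_of_false (fun h => hm (Hit_anti x hn h)) hx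
  filter_upwards [(eventually_all_finset F).2 fun x _ => h x] with n hn
  exact forall₂_congr fun x hx => iff_congr (hn x hx) Iff.rfl

lemma joint_law : (Pr d lam).map (fun ω => (eta0 ω, fut ω))
    = ((Pr d lam).map eta0).prod (contactMarks d lam) := by
  rw [← fut_preserving.map_eq]
  refine IndepFun.map_prod_eq_prod_map_map measurable_eta0.aemeasurable
    measurable_fut.aemeasurable ?_
  refine indepFun_of_dependsOn _ measurable_eta0 measurable_fut (S := {p | p.2 < 0})
    (T := {p | 0 ≤ p.2}) (disjoint_left.2 fun p (h : p.2 < 0) (h' : 0 ≤ p.2) => by omega)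
    (fun ω ω' h => ?_) fun ω ω' h => funext fun p => h _ (by simp)
  ext y
  refine forall_congr' fun n => iff_of_eq ((dep_Hit _ n y).dependsOn fun p hp => h p ?_)
  simpa using hp.2.2

lemma exists_theta (hne : (Pr d lam).map eta0 ≠ Measure.dirac ∅) :
    ∃ x : Vx d, ∃ θ : ℝ≥0∞, θ ≠ 0 ∧ ∀ n : ℕ, θ ≤ Pr d lam (Hit (-n) n x) := by
  by_contra hh
  push Not at hh
  apply hne
  have h1 : ∀ x, ∀ᵐ ω ∂Pr d lam, x ∉ eta0 ω := by
    intro x
    rw [ae_iff]
    by_contra h
    obtain ⟨n, hn⟩ := hh x _ h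
    exact absurd hn (not_lt.2 (measure_mono fun ω hω => (not_not.1 hω : x ∈ eta0 ω) n))
  have h2 : (eta0 : Om d → _) =ᵐ[Pr d lam] fun _ => ∅ := by
    filter_upwards [ae_all_iff.2 h1] with ω h
    exact eq_empty_of_forall_notMem h
  rw [Measure.map_congr h2]
  simp

/-- in the cell `k` every site of `F` recovers and receives no arrow -/
def Kill (F : Finset (Vx d)) (k : ℤ) : Set (Om d) :=
  ⋂ e ∈ F ×ˢ (Finset.univ : Finset (Option (Fin (d + 1)))),
    {ω | ω (revL e, k) ∈ e.2.elim {c | 0 < c.1 ∧ 0 < (c.2 0 : ℝ)} fun _ => {c | c.1 = 0}}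

lemma meas_elim (o : Option (Fin (d + 1))) :
    MeasurableSet (o.elim {c : Cell | 0 < c.1 ∧ 0 < (c.2 0 : ℝ)} fun _ => {c | c.1 = 0}) := by
  cases o
  · exact meas_c1
  · exact meas_c0

lemma dep_Kill (F : Finset (Vx d)) (k : ℤ) : Dep {p | p.2 = k} (Kill F k) :=
  Dep.iInter fun e => Dep.iInter fun _ =>
    (Dep.eval (X := fun _ : Lb d × ℤ => Cell) (revL e, k) (meas_elim e.2)).mono (by simp)

lemma Kill_prob (F : Finset (Vx d)) (k : ℤ) :
    min (c1 1) (c0 lam) ^ (F.card * (d + 2)) ≤ Pr d lam (Kill F k) := by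
  have hinv : ∀ e : Lb d, revL (revL e) = e := by
    rintro ⟨v, _ | a⟩ <;> simp [revL]
  rw [Kill, Pr, meas_biInter _ _ (fun e _ =>
    Dep.eval (X := fun _ : Lb d × ℤ => Cell) (revL e, k) (meas_elim e.2)) (fun e _ e' _ h => by
      simp only [disjoint_singleton, ne_eq, Prod.mk.injEq, and_true]
      exact fun h' => h (by rw [← hinv e, h', hinv]))]
  refine le_trans (le_of_eq ?_) (Finset.pow_card_le_prod _ _ (min (c1 1) (c0 lam)) fun e _ => ?_)
  · simp
  · change _ ≤ Pr d lam _
    rw [Pr_eval _ (meas_elim e.2)]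
    rcases e with ⟨v, _ | a⟩
    · exact min_le_left _ _
    · exact min_le_right _ _

lemma Kill.not_step {F : Finset (Vx d)} {k : ℤ} {ω : Om d} (h : ω ∈ Kill F k) {K : ℕ} {y z : Vx d}
    (hz : z ∈ F) : ¬ Step univ K ω k y z := by
  simp only [Kill, mem_iInter] at h
  intro hs
  cases hs with
  | stay _ _ _ _ h3 =>
    obtain ⟨h1, h2⟩ := h (y, none) (by simp [hz])
    exact disjoint_left.1 h3 ⟨0, h1, rfl⟩ ⟨h2, ((ω ((y, none), k)).2 0).2.2⟩
  | jump _ x a r _ _ h2 =>
    have h1 : (ω ((nbr a (nbr a x), some a), k)).1 = 0 := h (nbr a x, some a) (by simp [hz])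
    rw [nbr_nbr] at h1
    simp [pts_empty h1] at h2

lemma exists_ex_large {x : Vx d} {θ : ℝ≥0∞} (h0 : θ ≠ 0) (hθ : ∀ n : ℕ, θ ≤ Pr d lam (Hit (-n) n x))
    {M : ℝ≥0∞} (hM : M ≠ ∞) : ∃ K m, 1 ≤ K ∧ M ≤ ex d lam K m := by
  classical
  by_contra hh
  push Not at hh
  have hθ1 : θ ≠ ∞ := ne_top_of_le_ne_top (measure_ne_top _ _) (hθ 0)
  set A : ℕ → Vx d → Set (Om d) := fun n y => ⋃ K, {ω | Ch univ K ω (-n) y n x} with hA
  have dA : ∀ (n : ℕ) y, Dep (Reg univ (-n) n) (A n y) := fun n y => Dep.iUnion fun _ => dep_Ch _ _ _ _ _ _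
  have h1 : ∀ n, ∑' y, Pr d lam (A n y) ≤ M := by
    intro n
    have e : ∀ y, Pr d lam (A n y) = ⨆ K, p lam univ K n x y := fun y => by
      have := Monotone.measure_iUnion (μ := Pr d lam) (s := fun K => {ω | Ch univ K ω (-n) y n x})
        fun K K' h ω h' => Ch.mono h' subset_rfl h
      simp_rw [Pr_Ch, p_symm (v := y)] at this
      exact this
    simp_rw [e]
    rw [ENNReal.tsum_eq_iSup_sum]
    refine iSup_le fun F => ?_
    rw [ENNReal.finsetSum_iSup_of_monotone (f := fun y K => p lam univ K n x y) fun y K K' h => p_mono subset_rfl h]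
    refine iSup_le fun K => (ENNReal.sum_le_tsum _).trans ?_
    refine le_trans (ENNReal.tsum_le_tsum fun y => p_mono subset_rfl (Nat.le_succ K)) ?_
    rw [ex_eq]
    exact (hh _ n (by omega)).le
  obtain ⟨R, hR⟩ := ENNReal.exists_nat_gt (r := M / (θ / 2))
    (ENNReal.div_ne_top hM (ENNReal.half_pos h0).ne')
  set E : ℕ → Finset (Vx d) → Set (Om d) := fun n F => {ω | ∀ y, ω ∈ A n y ↔ y ∈ F} with hE
  have dE : ∀ (n : ℕ) F, Dep (Reg univ (-n) n) (E n F) := fun n F => by
    have : E n F = ⋂ y, if y ∈ F then A n y else (A n y)ᶜ := by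
      ext ω
      simp only [hE, mem_ofPred_eq, mem_iInter]
      refine forall_congr' fun y => ?_
      split_ifs with h <;> simp [h]
    rw [this]
    refine Dep.iInter fun y => ?_
    split_ifs
    · exact dA n y
    · exact (dA n y).compl
  let G := {F : Finset (Vx d) // F.Nonempty ∧ F.card ≤ R}
  have h2 : ∀ n, θ / 2 ≤ ∑' F : G, Pr d lam (E n F) := by
    intro n
    have e1 := mul_meas_ge_le_lintegral (μ := Pr d lam)
      (f := fun ω => ({y | ω ∈ A n y}.encard : ℝ≥0∞)) (by
        have : (fun ω => ({y | ω ∈ A n y}.encard : ℝ≥0∞)) = fun ω => ∑' y, (A n y).indicator 1 ω := by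
          funext ω
          rw [← ENNReal.tsum_set_one, tsum_subtype {y | ω ∈ A n y} fun _ => (1 : ℝ≥0∞)]
          rfl
        rw [this]
        exact Measurable.tsum fun y => measurable_one.indicator (dA n y).meas) R
    rw [← tsum_meas_eq _ _ fun y => (dA n y).meas] at e1
    have e2 : Pr d lam {ω | (R : ℝ≥0∞) ≤ ({y | ω ∈ A n y}.encard : ℝ≥0∞)} ≤ θ / 2 := by
      by_contra h
      rw [ENNReal.div_lt_iff (Or.inl (ENNReal.half_pos h0).ne')
        (Or.inl (ENNReal.div_ne_top hθ1 (by simp)))] at hR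
      exact absurd (hR.trans_le ((mul_le_mul' le_rfl (not_le.1 h).le).trans (e1.trans (h1 n))))
        (lt_irrefl _)
    have e3 : Hit (-n) n x ⊆ {ω | (R : ℝ≥0∞) ≤ ({y | ω ∈ A n y}.encard : ℝ≥0∞)} ∪ ⋃ F : G, E n F := by
      intro ω h
      by_cases h' : (R : ℝ≥0∞) ≤ ({y | ω ∈ A n y}.encard : ℝ≥0∞)
      · exact Or.inl h'
      have h3 : {y | ω ∈ A n y}.encard < R := by
        rw [not_le] at h'
        exact_mod_cast h'
      have h4 : {y | ω ∈ A n y}.Finite := finite_of_encard_le_coe h3.le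
      refine Or.inr (mem_iUnion.2 ⟨⟨h4.toFinset, ?_, ?_⟩, fun y => by simp⟩)
      · obtain ⟨y, hy⟩ := mem_iUnion.1 h
        exact ⟨y, h4.mem_toFinset.2 hy⟩
      · rw [h4.encard_eq_coe_toFinset_card] at h3
        exact_mod_cast h3.le
    have e4 := (hθ n).trans ((measure_mono e3).trans ((measure_union_le _ _).trans
      (add_le_add e2 (measure_iUnion_le _))))
    nth_rw 1 [← ENNReal.add_halves θ] at e4
    exact (ENNReal.add_le_add_iff_left (ENNReal.div_ne_top hθ1 (by simp))).1 e4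
  set δ := min (c1 1) (c0 lam) with hδ
  have δ0 : δ ≠ 0 := (lt_min (pos_iff_ne_zero.2 (c1_ne_zero one_pos))
    (pos_iff_ne_zero.2 (c0_ne_zero lam))).ne'
  have δ1 : δ ≤ 1 := (min_le_right _ _).trans prob_le_one
  have h3 : ∀ n : ℕ, θ / 2 * δ ^ (R * (d + 2))
      ≤ Pr d lam (Hit (-n) n x \ Hit (-(n + 1 : ℕ)) (n + 1) x) := by
    intro n
    calc _ ≤ ∑' F : G, Pr d lam (E n F) * δ ^ (R * (d + 2)) := by
          rw [ENNReal.tsum_mul_right]; gcongr; exact h2 n
      _ ≤ ∑' F : G, Pr d lam (E n F ∩ Kill F (-(n + 1 : ℕ))) := by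
          refine ENNReal.tsum_le_tsum fun F => ?_
          rw [Pr, Dep.meas_inter _ (dE n F) (dep_Kill _ _) (disjoint_left.2 fun p hp hp' => by
            have h1 := hp.2.1; have h2 : p.2 = _ := hp'; omega)]
          refine mul_le_mul' le_rfl (le_trans ?_ (Kill_prob _ _))
          exact pow_le_pow_right_of_le_one' δ1 (Nat.mul_le_mul_right _ F.2.2)
      _ = Pr d lam (⋃ F : G, E n F ∩ Kill F (-(n + 1 : ℕ))) := by
          refine (measure_iUnion (fun F F' h => disjoint_left.2 fun ω h1 h2 => h ?_)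
            fun F : G => (dE n F).meas.inter (dep_Kill _ _).meas).symm
          exact Subtype.ext (Finset.ext fun y => (h1.1 y).symm.trans (h2.1 y))
      _ ≤ _ := by
          refine measure_mono fun ω h => ?_
          obtain ⟨F, e1, e2⟩ := mem_iUnion.1 h
          obtain ⟨y, hy⟩ := F.2.1
          refine ⟨mem_iUnion.2 ⟨y, (e1 y).2 hy⟩, fun h' => ?_⟩
          simp only [Hit, mem_iUnion, mem_ofPred_eq] at h'
          obtain ⟨y', K, h'⟩ := h'
          rw [add_comm n 1, Ch_add] at h'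
          obtain ⟨z, e3, e4⟩ := h'
          rw [add_comm 1 n] at e3
          exact Kill.not_step e2 ((e1 z).1 (mem_iUnion.2 ⟨K, by simpa using e4⟩)) (Ch_one.1 e3)
  have h4 := ENNReal.tsum_le_tsum h3
  rw [ENNReal.tsum_const_eq_top_of_ne_zero (mul_ne_zero (ENNReal.half_pos h0).ne'
    (pow_ne_zero _ δ0)), ← measure_iUnion] at h4
  · exact measure_ne_top _ _ (top_le_iff.1 h4)
  · refine pairwise_disjoint_on _ |>.2 fun m n hmn => disjoint_left.2 fun ω h h' => ?_
    exact h.2 (Hit_anti x (show m + 1 ≤ n from hmn) h'.1)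
  · exact fun n => (dep_Hit _ _ _).meas.diff (dep_Hit _ _ _).meas

end Pool.Agent.Lib.MP_69dcc1_pr
end
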