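import Pool.Agent.Lib.MP_69dcc1_pr.Defs

/-! Combinatorics of the homogeneous tree. -/

namespace Pool.Agent.Lib.MP_69dcc1_pr

open Set Function

variable {d : ℕ}

instance : Countable (Vx d) := inferInstanceAs (Countable {l : List (Fin (d + 1)) // l.IsChain (· ≠ ·)})
instance : DecidableEq (Vx d) := inferInstanceAs (DecidableEq {l : List (Fin (d + 1)) // l.IsChain (· ≠ ·)})

lemma Vx.ext {u v : Vx d} (h : u.1 = v.1) : u = v := Subtype.ext h

/-- word length -/
def len (v : Vx d) : ℕ := v.1.length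

/-- `z` is an ancestor of `v` -/
def Anc (z v : Vx d) : Prop := z.1 <:+ v.1

/-- the branch below `z` -/
def Br (z : Vx d) : Set (Vx d) := {v | Anc z v}

@[simp] lemma len_root : len (root d) = 0 := rfl

lemma eq_root {v : Vx d} (h : len v = 0) : v = root d := Vx.ext (List.length_eq_zero_iff.1 h)

lemma nbr_child {a : Fin (d + 1)} {v : Vx d} (h : v.1.head? ≠ some a) : (nbr a v).1 = a :: v.1 := by
  rw [nbr, dif_neg h]

lemma nbr_parent {a : Fin (d + 1)} {v : Vx d} (h : v.1.head? = some a) : v.1 = a :: (nbr a v).1 := by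
  rw [nbr, dif_pos h]
  exact (List.cons_head?_tail h).symm

lemma nbr_cases (a : Fin (d + 1)) (v : Vx d) :
    (nbr a v).1 = a :: v.1 ∨ v.1 = a :: (nbr a v).1 := by
  by_cases h : v.1.head? = some a
  · exact Or.inr (nbr_parent h)
  · exact Or.inl (nbr_child h)

lemma head_ne_of_cons {a : Fin (d + 1)} {u v : Vx d} (h : u.1 = a :: v.1) : v.1.head? ≠ some a := by
  intro h'
  have := u.2
  rw [h, List.isChain_cons] at this
  exact this.1 a h' rfl

lemma eq_nbr_of_cons {a : Fin (d + 1)} {u v : Vx d} (h : u.1 = a :: v.1) : u = nbr a v :=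
  Vx.ext (by rw [h, nbr_child (head_ne_of_cons h)])

@[simp] lemma nbr_nbr (a : Fin (d + 1)) (v : Vx d) : nbr a (nbr a v) = v := by
  by_cases h : v.1.head? = some a
  · exact (eq_nbr_of_cons (nbr_parent h)).symm
  · have h1 := nbr_child h
    have h2 : (nbr a v).1.head? = some a := by rw [h1]; rfl
    have h3 := nbr_parent h2
    rw [h1] at h3
    exact Vx.ext (List.cons.inj h3).2.symm

lemma len_nbr (a : Fin (d + 1)) (v : Vx d) : len (nbr a v) = len v + 1 ∨ len v = len (nbr a v) + 1 := by
  rcases nbr_cases a v with h | h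
  · left; simp [len, h]
  · right; unfold len; rw [h]; simp

lemma nbr_ne (a : Fin (d + 1)) (v : Vx d) : nbr a v ≠ v := fun h => by
  have := len_nbr a v
  rw [h] at this
  omega

lemma exists_parent {v : Vx d} (h : 0 < len v) : ∃ a u, v = nbr a u ∧ v.1 = a :: u.1 := by
  obtain ⟨l, hl⟩ := v
  cases l with
  | nil => simp [len] at h
  | cons a l => exact ⟨a, ⟨l, hl.tail⟩, eq_nbr_of_cons rfl, rfl⟩

lemma Vx.induction {p : Vx d → Prop} (h0 : p (root d))
    (h1 : ∀ a v, v.1.head? ≠ some a → p v → p (nbr a v)) (v : Vx d) : p v := by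
  induction hn : len v generalizing v with
  | zero => rw [eq_root hn]; exact h0
  | succ n ih =>
    obtain ⟨a, u, rfl, h⟩ := exists_parent (v := v) (by omega)
    refine h1 a u (head_ne_of_cons h) (ih u ?_)
    unfold len at hn ⊢
    rw [h] at hn
    simpa using hn

lemma Anc.refl (v : Vx d) : Anc v v := List.suffix_refl _
lemma Anc.trans {u v w : Vx d} (h : Anc u v) (h' : Anc v w) : Anc u w := List.IsSuffix.trans h h'
lemma Anc.len_le {u v : Vx d} (h : Anc u v) : len u ≤ len v := List.IsSuffix.length_le h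
lemma Anc.eq_of_len {u v : Vx d} (h : Anc u v) (h' : len v ≤ len u) : u = v :=
  Vx.ext (List.IsSuffix.eq_of_length_le h h')
lemma Anc.of_len_le {u v w : Vx d} (h : Anc u w) (h' : Anc v w) (hl : len u ≤ len v) : Anc u v :=
  List.suffix_of_suffix_length_le h h' hl
lemma anc_root (v : Vx d) : Anc (root d) v := List.nil_suffix

lemma anc_cons {a : Fin (d + 1)} {u v z : Vx d} (h : u.1 = a :: v.1) :
    Anc z u ↔ z = u ∨ Anc z v := by
  unfold Anc
  rw [h, List.suffix_cons_iff, ← h]
  exact or_congr ⟨Vx.ext, congrArg _⟩ Iff.rfl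

lemma len_cons {a : Fin (d + 1)} {u v : Vx d} (h : u.1 = a :: v.1) : len u = len v + 1 := by
  unfold len; rw [h]; simp

/-- a step that does not go above level `len z` stays in the branch of `z` -/
lemma Anc.nbr {z v : Vx d} (h : Anc z v) (a : Fin (d + 1)) (hl : len z ≤ len (nbr a v)) :
    Anc z (nbr a v) := by
  rcases nbr_cases a v with h' | h'
  · exact (anc_cons h').2 (Or.inr h)
  · rcases (anc_cons h').1 h with rfl | h''
    · have := len_cons h'; omega
    · exact h''

lemma exists_anc (v : Vx d) {h : ℕ} (hh : h ≤ len v) : ∃ z, Anc z v ∧ len z = h :=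
  ⟨⟨v.1.drop (len v - h), v.2.suffix (List.drop_suffix _ _)⟩, List.drop_suffix _ _, by
    simp only [len, List.length_drop] at hh ⊢; omega⟩

/-- every non-root vertex lies in a branch at the root -/
lemma exists_br_root {v : Vx d} (h : v ≠ root d) : ∃ a, Anc (nbr a (root d)) v := by
  obtain ⟨z, h1, h2⟩ := exists_anc v (h := 1) (by
    by_contra hh
    exact h (eq_root (by omega)))
  obtain ⟨a, u, rfl, h3⟩ := exists_parent (v := z) (by omega)
  have := len_cons h3
  rw [eq_root (v := u) (by omega)] at h1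
  exact ⟨a, h1⟩

/-! ### automorphisms -/

/-- right multiplication -/
def app (x : Vx d) (v : Vx d) : Vx d := v.1.foldr nbr x

lemma app_nbr (x : Vx d) (a : Fin (d + 1)) (v : Vx d) : app x (nbr a v) = nbr a (app x v) := by
  rcases nbr_cases a v with h | h
  · unfold app; rw [h]; rfl
  · unfold app; rw [h]; simp

lemma eq_of_equivariant {f g : Vx d → Vx d} {π : Fin (d + 1) → Fin (d + 1)}
    (hf : ∀ a v, f (nbr a v) = nbr (π a) (f v))
    (hg : ∀ a v, g (nbr a v) = nbr (π a) (g v)) (h : f (root d) = g (root d)) : f = g := by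
  funext v
  induction v using Vx.induction with
  | h0 => exact h
  | h1 a v _ ih => rw [hf, hg, ih]

lemma foldr_surj (l : List (Fin (d + 1))) : Surjective fun y : Vx d => l.foldr nbr y := by
  induction l with
  | nil => exact surjective_id
  | cons a l ih =>
    intro w
    obtain ⟨y, hy⟩ := ih (nbr a w)
    exact ⟨y, by simp only [List.foldr_cons] at hy ⊢; rw [hy, nbr_nbr]⟩

lemma app_leftInv (x : Vx d) : ∃ y, ∀ v, app y (app x v) = v := by
  obtain ⟨y, hy⟩ := foldr_surj x.1 (root d)
  refine ⟨y, fun v => ?_⟩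
  have := eq_of_equivariant (f := fun v => app y (app x v)) (g := id) (π := id)
    (fun a v => by simp only [app_nbr, id]) (fun _ _ => rfl) hy
  exact congrFun this v

lemma app_bijective (x : Vx d) : Bijective (app x) := by
  obtain ⟨y, hy⟩ := app_leftInv x
  obtain ⟨y', hy'⟩ := app_leftInv y
  refine ⟨LeftInverse.injective hy, fun w => ⟨app y w, LeftInverse.injective hy' (hy _)⟩⟩

/-- permuting the letters -/
def mapL (π : Equiv.Perm (Fin (d + 1))) (v : Vx d) : Vx d :=
  ⟨v.1.map π, by
    rw [List.isChain_map]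
    exact v.2.imp fun _ _ h e => h (π.injective e)⟩

lemma mapL_nbr (π : Equiv.Perm (Fin (d + 1))) (a : Fin (d + 1)) (v : Vx d) :
    mapL π (nbr a v) = nbr (π a) (mapL π v) := by
  rcases nbr_cases a v with h | h
  · exact eq_nbr_of_cons (by simp [mapL, h])
  · have : mapL π v = nbr (π a) (mapL π (nbr a v)) :=
      eq_nbr_of_cons (by simp only [mapL]; rw [h]; simp)
    rw [this, nbr_nbr]

lemma mapL_bijective (π : Equiv.Perm (Fin (d + 1))) : Bijective (mapL π : Vx d → Vx d) :=
  bijective_iff_has_inverse.2 ⟨mapL π.symm, fun v => Vx.ext (by simp [mapL]),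
    fun v => Vx.ext (by simp [mapL])⟩

/-- a tree automorphism compatible with a permutation of the letters -/
structure Aut (d : ℕ) where
  φ : Vx d ≃ Vx d
  π : Equiv.Perm (Fin (d + 1))
  eqv : ∀ a v, φ (nbr a v) = nbr (π a) (φ v)

lemma exists_aut_root (x : Vx d) : ∃ f : Aut d, f.φ (root d) = x :=
  ⟨⟨Equiv.ofBijective _ (app_bijective x), 1, app_nbr x⟩, rfl⟩

lemma exists_aut (a0 : Fin (d + 1)) (x : Vx d) (a : Fin (d + 1)) (h : x.1.head? ≠ some a) :
    ∃ f : Aut d, f.φ (root d) = x ∧ f.φ (nbr a0 (root d)) = nbr a x ∧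
      (∀ v, Anc (nbr a0 (root d)) v ↔ Anc (nbr a x) (f.φ v)) ∧
      ∀ v, Anc (nbr a0 (root d)) v → len (f.φ v) = len v + len x := by
  let π := Equiv.swap a0 a
  let f : Aut d := ⟨Equiv.ofBijective _ ((app_bijective x).comp (mapL_bijective π)), π,
    fun b v => by
      change app x (mapL π (nbr b v)) = nbr (π b) (app x (mapL π v))
      rw [mapL_nbr, app_nbr]⟩
  have h0 : f.φ (root d) = x := rfl
  have h1 : f.φ (nbr a0 (root d)) = nbr a x := by
    rw [f.eqv, h0]
    simp [f, π]
  have r1 : (nbr a0 (root d)).1 = [a0] := nbr_child (by simp [root])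
  have r2 : len (nbr a0 (root d)) = 1 := by simp [len, r1]
  have key : ∀ v, Anc (nbr a0 (root d)) v → (f.φ v).1 = v.1.map π ++ x.1 := by
    intro v
    induction v using Vx.induction with
    | h0 => intro hv; have := hv.len_le; rw [r2, len_root] at this; omega
    | h1 b v hb ih =>
      intro hv
      rcases (anc_cons (nbr_child hb)).1 hv with e | hv'
      · rw [← e, h1, nbr_child h, r1]; simp [π]
      · have e := ih hv'
        rw [f.eqv, nbr_child, e, nbr_child hb]
        · rfl
        · rw [e]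
          have hl := hv'.len_le
          obtain ⟨c, u, -, hc⟩ := exists_parent (v := v) (by omega)
          rw [hc] at hb ⊢
          simpa [f] using hb
  have fwd : ∀ v, Anc (nbr a0 (root d)) v → Anc (nbr a x) (f.φ v) := by
    intro v hv
    unfold Anc
    rw [key v hv, nbr_child h]
    obtain ⟨l, hl⟩ := hv
    rw [← hl, r1]
    exact ⟨l.map π, by simp [π]⟩
  refine ⟨f, h0, h1, fun v => ⟨fwd v, fun hv => ?_⟩, fun v hv => ?_⟩
  · have : ∀ w, Anc (nbr a x) w → ∃ v, Anc (nbr a0 (root d)) v ∧ f.φ v = w := by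
      intro w
      induction w using Vx.induction with
      | h0 => intro hw; have := hw.len_le; simp [len, nbr_child h, root] at this
      | h1 b w hb ih =>
        intro hw
        rcases (anc_cons (nbr_child hb)).1 hw with e | hw'
        · exact ⟨_, Anc.refl _, h1.trans e⟩
        · obtain ⟨v, hv, rfl⟩ := ih hw'
          refine ⟨nbr (f.π.symm b) v, hv.nbr _ ?_, by rw [f.eqv]; simp⟩
          by_contra hh
          have e1 := len_nbr (f.π.symm b) v
          have e2 := hv.len_le
          have e3 : v = nbr a0 (root d) := (hv.eq_of_len (by omega)).symm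
          have e4 : nbr (f.π.symm b) v = root d := eq_root (by omega)
          have e5 : nbr b (f.φ v) = x := by
            have := f.eqv (f.π.symm b) v
            rw [e4, h0] at this
            simpa using this.symm
          have e6 := len_cons (nbr_child hb)
          have e7 := len_cons (nbr_child h)
          rw [e5, e3, h1] at e6
          omega
    obtain ⟨v', hv', e⟩ := this _ hv
    rwa [← f.φ.injective e]
  · unfold len
    rw [key v hv]
    simp

/-! ### two distinguished children -/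

section
variable [hd : Fact (2 ≤ d)]

lemma exists_letters (v : Vx d) :
    ∃ l : Bool → Fin (d + 1), Injective l ∧ ∀ i, v.1.head? ≠ some (l i) := by
  have h := hd.out
  let a0 : Fin (d + 1) := ⟨0, by omega⟩
  let a1 : Fin (d + 1) := ⟨1, by omega⟩
  let a2 : Fin (d + 1) := ⟨2, by omega⟩
  have inj : ∀ a b : Fin (d + 1), a ≠ b → Injective fun i : Bool => cond i a b := by
    rintro a b hab (_ | _) (_ | _) h
    · rfl
    · exact absurd h.symm hab
    · exact absurd h hab
    · rfl
  by_cases h0 : v.1.head? = some a0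
  · refine ⟨fun i => cond i a1 a2, inj _ _ (by simp [a1, a2]), ?_⟩
    rintro (_ | _) <;> simp [h0, a0, a1, a2]
  by_cases h1 : v.1.head? = some a1
  · refine ⟨fun i => cond i a0 a2, inj _ _ (by simp [a0, a2]), ?_⟩
    rintro (_ | _) <;> simp [h1, a0, a1, a2]
  · refine ⟨fun i => cond i a0 a1, inj _ _ (by simp [a0, a1]), ?_⟩
    rintro (_ | _)
    · exact h1
    · exact h0

/-- the letters of the two distinguished children -/
noncomputable def lt (v : Vx d) : Bool → Fin (d + 1) := (exists_letters v).choose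

/-- the two distinguished children -/
noncomputable def ch (v : Vx d) (i : Bool) : Vx d := nbr (lt v i) v

lemma lt_ne (v : Vx d) (i : Bool) : v.1.head? ≠ some (lt v i) := (exists_letters v).choose_spec.2 i

lemma ch_val (v : Vx d) (i : Bool) : (ch v i).1 = lt v i :: v.1 := nbr_child (lt_ne v i)

@[simp] lemma len_ch (v : Vx d) (i : Bool) : len (ch v i) = len v + 1 := len_cons (ch_val v i)

lemma anc_ch {z v : Vx d} {i : Bool} : Anc z (ch v i) ↔ z = ch v i ∨ Anc z v := anc_cons (ch_val v i)

lemma anc_ch_self (v : Vx d) (i : Bool) : Anc v (ch v i) := anc_ch.2 (Or.inr (Anc.refl v))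

lemma ch_inj {u v : Vx d} {i j : Bool} (h : ch u i = ch v j) : u = v ∧ i = j := by
  have h1 := congrArg Subtype.val h
  rw [ch_val, ch_val] at h1
  obtain ⟨h2, h3⟩ := List.cons.inj h1
  obtain rfl : u = v := Vx.ext h3
  exact ⟨rfl, (exists_letters u).choose_spec.1 h2⟩

/-- the frontier of a set of vertices -/
def Fr (A : Set (Vx d)) : Set (Vx d × Bool) := {q | q.1 ∈ A ∧ ∀ v ∈ A, ¬ Anc (ch q.1 q.2) v}

lemma Fr_unique {A : Set (Vx d)} {q q' : Vx d × Bool} (h : q ∈ Fr A) (h' : q' ∈ Fr A) {v : Vx d}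
    (hv : Anc (ch q.1 q.2) v) (hv' : Anc (ch q'.1 q'.2) v) : q = q' := by
  wlog hl : len (ch q.1 q.2) ≤ len (ch q'.1 q'.2) generalizing q q'
  · exact (this h' h hv' hv (by omega)).symm
  rcases anc_ch.1 (hv.of_len_le hv' hl) with e | e
  · exact Prod.ext (ch_inj e).1 (ch_inj e).2
  · exact absurd e (h.2 _ h'.1)

lemma encard_le_Fr {A : Set (Vx d)} (hA : A.Finite) : A.encard ≤ (Fr A).encard := by
  classical
  set N : Set (Vx d × Bool) := {q | q.1 ∈ A ∧ ∃ v ∈ A, Anc (ch q.1 q.2) v} with hN
  have hex : ∀ q : Vx d × Bool, ∃ y, q ∈ N → (y ∈ A ∧ Anc (ch q.1 q.2) y) ∧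
      ∀ v ∈ A, Anc (ch q.1 q.2) v → len y ≤ len v := by
    intro q
    by_cases hq : q ∈ N
    · obtain ⟨y, hy, hmin⟩ := exists_min_image {v | v ∈ A ∧ Anc (ch q.1 q.2) v} len
        (hA.subset fun v hv => hv.1) (by obtain ⟨v, h1, h2⟩ := hq.2; exact ⟨v, h1, h2⟩)
      exact ⟨y, fun _ => ⟨hy, fun v h1 h2 => hmin v ⟨h1, h2⟩⟩⟩
    · exact ⟨root d, fun h => absurd h hq⟩
  choose g hg using hex
  have hinj : InjOn g N := by
    intro q hq q' hq' e
    wlog hl : len (ch q.1 q.2) ≤ len (ch q'.1 q'.2) generalizing q q'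
    · exact (this hq' hq e.symm (by omega)).symm
    have h1 := hg q hq
    have h2 := hg q' hq'
    rw [← e] at h2
    rcases anc_ch.1 (h1.1.2.of_len_le h2.1.2 hl) with e' | e'
    · exact Prod.ext (ch_inj e').1 (ch_inj e').2
    · have h3 := h1.2 _ hq'.1 e'
      have h4 := h2.1.2.len_le
      rw [len_ch] at h4
      omega
  have h1 : N.encard ≤ A.encard := encard_le_encard_of_injOn (fun q hq => (hg q hq).1.1) hinj
  have h2 : A ×ˢ (univ : Set Bool) ⊆ Fr A ∪ N := by
    rintro q ⟨hq, -⟩
    by_cases h : ∃ v ∈ A, Anc (ch q.1 q.2) v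
    · exact Or.inr ⟨hq, h⟩
    · exact Or.inl ⟨hq, fun v h1 h2 => h ⟨v, h1, h2⟩⟩
  have h3 : A.encard + A.encard ≤ (Fr A).encard + A.encard := by
    calc A.encard + A.encard = (A ×ˢ (univ : Set Bool)).encard := by
          rw [encard_prod, encard_univ]; simp [mul_two]
      _ ≤ (Fr A).encard + N.encard := (encard_le_encard h2).trans (encard_union_le _ _)
      _ ≤ _ := by gcongr
  exact (ENat.add_le_add_iff_right hA.encard_lt_top.ne).1 h3

end

/-! ### levels and balls -/

/-- level sets -/
def Lv (d n : ℕ) : Set (Vx d) := {v | len v = n}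
/-- balls around the root -/
def Bl (d n : ℕ) : Set (Vx d) := {v | len v ≤ n}

lemma Bl_finite (n : ℕ) : (Bl d n).Finite :=
  (List.finite_length_le (Fin (d + 1)) n).preimage Subtype.val_injective.injOn

lemma Lv_finite (n : ℕ) : (Lv d n).Finite := (Bl_finite n).subset fun _ h => le_of_eq h

lemma Lv_succ_le (n : ℕ) : (Lv d (n + 1)).ncard ≤ (d + 1) * (Lv d n).ncard := by
  have : Lv d (n + 1) ⊆ (fun p : Fin (d + 1) × Vx d => nbr p.1 p.2) '' (univ ×ˢ Lv d n) := by
    intro v hv
    have hv : len v = n + 1 := hv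
    obtain ⟨a, u, rfl, h⟩ := exists_parent (v := v) (by omega)
    have := len_cons h
    exact ⟨(a, u), ⟨trivial, show len u = n by omega⟩, rfl⟩
  have hf : (univ ×ˢ Lv d n : Set (Fin (d + 1) × Vx d)).Finite := finite_univ.prod (Lv_finite n)
  refine (ncard_le_ncard this (hf.image _)).trans ((ncard_image_le hf).trans ?_)
  rw [ncard_prod, ncard_univ]
  simp

lemma Lv_add_le (n k : ℕ) : (Lv d (n + k)).ncard ≤ (d + 1) ^ k * (Lv d n).ncard := by
  induction k with
  | zero => simp
  | succ k ih =>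
    refine (Lv_succ_le (n + k)).trans ?_
    rw [pow_succ', mul_assoc]
    gcongr

lemma le_Lv_succ [Fact (2 ≤ d)] (n : ℕ) : 2 * (Lv d n).ncard ≤ (Lv d (n + 1)).ncard := by
  have h := ncard_le_ncard_of_injOn (s := Lv d n ×ˢ (univ : Set Bool)) (t := Lv d (n + 1))
    (fun q => ch q.1 q.2) (fun q hq => by
      have : len q.1 = n := hq.1
      change len _ = _
      rw [len_ch, this]) (fun q _ q' _ e => Prod.ext (ch_inj e).1 (ch_inj e).2) (Lv_finite _)
  rw [ncard_prod, ncard_univ] at h
  simpa [mul_comm] using h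

lemma Lv_zero : Lv d 0 = {root d} := by
  ext v; exact ⟨fun h => eq_root h, fun h => by rw [h]; rfl⟩

lemma Bl_le [Fact (2 ≤ d)] (n : ℕ) : (Bl d n).ncard ≤ 2 * (Lv d n).ncard := by
  induction n with
  | zero =>
    have : Bl d 0 = Lv d 0 := by ext v; simp [Bl, Lv]
    rw [this]; omega
  | succ n ih =>
    have : Bl d (n + 1) = Bl d n ∪ Lv d (n + 1) := by
      ext v; simp only [Bl, Lv, mem_union, mem_ofPred_eq]; omega
    rw [this]
    have := ncard_union_le (Bl d n) (Lv d (n + 1))
    have := le_Lv_succ (d := d) n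
    omega

lemma Lv_pos [Fact (2 ≤ d)] (n : ℕ) : 0 < (Lv d n).ncard := by
  induction n with
  | zero => simp [Lv_zero]
  | succ n ih => have := le_Lv_succ (d := d) n; omega

lemma tree_adj (a : Fin (d + 1)) (v : Vx d) : (tree d).Adj v (nbr a v) := by
  rw [tree, SimpleGraph.fromRel_adj]
  exact ⟨(nbr_ne a v).symm, Or.inl ⟨a, rfl⟩⟩

lemma len_walk {u v : Vx d} (p : (tree d).Walk u v) : len v ≤ len u + p.length := by
  induction p with
  | nil => simp
  | @cons u w v h p ih =>
    rw [tree, SimpleGraph.fromRel_adj] at h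
    rw [SimpleGraph.Walk.length_cons]
    rcases h.2 with ⟨a, rfl⟩ | ⟨a, rfl⟩
    · have := len_nbr a u; omega
    · have := len_nbr a w; omega

lemma dist_root (v : Vx d) : (tree d).dist (root d) v = len v := by
  have h : ∃ p : (tree d).Walk (root d) v, p.length = len v := by
    induction v using Vx.induction with
    | h0 => exact ⟨.nil, rfl⟩
    | h1 a v ha ih =>
      obtain ⟨p, hp⟩ := ih
      exact ⟨p.concat (tree_adj a v), by
        rw [SimpleGraph.Walk.length_concat, hp, len_cons (nbr_child ha)]⟩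
  obtain ⟨p, hp⟩ := h
  refine le_antisymm (hp ▸ SimpleGraph.dist_le p) ?_
  obtain ⟨q, hq⟩ := p.reachable.exists_walk_length_eq_dist
  have := len_walk q
  rw [len_root, hq] at this
  omega

end Pool.Agent.Lib.MP_69dcc1_pr
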